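import Pool.Agent.MP_07c73e_al.H96.Braid

/-!
Artin's theorem on braid automorphisms of the free group of rank three.
-/

namespace Pool.Agent.MP_07c73e_al.H96

open FreeGroup

section words

variable {α : Type} [DecidableEq α]

/-- The reduced word of `u` starts with the letter `l`. -/
def Starts (u : FreeGroup α) (l : α × Bool) : Prop := u.toWord.head? = some l

/-- The reduced word of `u` ends with the letter `l`. -/
def Ends (u : FreeGroup α) (l : α × Bool) : Prop := u.toWord.getLast? = some l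

lemma toWord_mul_of {u v : FreeGroup α}
    (h : ∀ x ∈ u.toWord.getLast?, ∀ y ∈ v.toWord.head?, x.1 = y.1 → x.2 = y.2) :
    (u * v).toWord = u.toWord ++ v.toWord := by
  rw [toWord_mul]
  exact IsReduced.reduce_eq (List.IsChain.append isReduced_toWord isReduced_toWord h)

lemma Starts.norm_lt {b : FreeGroup α} {l : α × Bool} (h : Starts b l) :
    norm ((mk [l])⁻¹ * b) + 1 ≤ norm b := by
  obtain ⟨L, hL⟩ := List.head?_eq_some_iff.mp h
  have h1 : b = mk [l] * mk L := by rw [mul_mk, List.singleton_append, ← hL, mk_toWord]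
  have h2 : norm b = L.length + 1 := by rw [FreeGroup.norm, hL, List.length_cons]
  rw [h2, h1, inv_mul_cancel_left]
  exact Nat.succ_le_succ norm_mk_le

lemma Ends.norm_lt {a : FreeGroup α} {l : α × Bool} (h : Ends a l) :
    norm (a * (mk [l])⁻¹) + 1 ≤ norm a := by
  obtain ⟨L, hL⟩ := List.getLast?_eq_some_iff.mp h
  have h1 : a = mk L * mk [l] := by rw [mul_mk, ← hL, mk_toWord]
  have h2 : norm a = L.length + 1 := by rw [FreeGroup.norm, hL]; simp
  rw [h2, h1, mul_inv_cancel_right]
  exact Nat.succ_le_succ norm_mk_le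

lemma ends_iff_starts_inv {a : FreeGroup α} {s : α} {ε : Bool} :
    Ends a (s, ε) ↔ Starts a⁻¹ (s, !ε) := by
  unfold Ends Starts
  rw [toWord_inv, invRev, List.head?_reverse, List.getLast?_map]
  cases h : a.toWord.getLast? with
  | none => simp
  | some x => obtain ⟨x1, x2⟩ := x; simp

lemma junction {a b : FreeGroup α} {s : α} {ε : Bool} (ha : ¬ Ends a (s, !ε))
    (hb : Starts b (s, ε)) : norm (a * (mk [(s, ε)])⁻¹ * b) < norm (a * b) := by
  have h1 : (a * b).toWord = a.toWord ++ b.toWord := by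
    refine toWord_mul_of fun x hx y hy hxy => ?_
    have hy' : y = (s, ε) := Option.some_injective _ ((Option.mem_def.mp hy).symm.trans hb)
    subst hy'
    by_contra hne
    apply ha
    have : x = (s, !ε) := by
      obtain ⟨x1, x2⟩ := x
      simp only at hxy hne
      subst hxy
      cases x2 <;> cases ε <;> simp_all
    exact this ▸ Option.mem_def.mp hx
  have h2 : norm (a * b) = norm a + norm b := by simp [FreeGroup.norm, h1]
  have h3 := hb.norm_lt
  have h4 := norm_mul_le a ((mk [(s, ε)])⁻¹ * b)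
  rw [mul_assoc]
  omega

lemma toWord_mul_of_mul {u v : FreeGroup α} {s : α} (hu : ¬ Ends u (s, false))
    (hv : ¬ Starts v (s, false)) :
    (u * of s * v).toWord = u.toWord ++ (s, true) :: v.toWord := by
  have h1 : (of s * v).toWord = (s, true) :: v.toWord := by
    rw [toWord_mul_of, toWord_of, List.singleton_append]
    intro x hx y hy hxy
    simp only [toWord_of, List.getLast?_singleton, Option.mem_def, Option.some.injEq] at hx
    subst hx
    by_contra hne
    apply hv
    have : y = (s, false) := by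
      obtain ⟨y1, y2⟩ := y
      simp only at hxy hne
      subst hxy
      cases y2 <;> simp_all
    exact this ▸ Option.mem_def.mp hy
  rw [mul_assoc, toWord_mul_of, h1]
  intro x hx y hy hxy
  simp only [h1, List.head?_cons, Option.mem_def, Option.some.injEq] at hy
  subst hy
  by_contra hne
  apply hu
  have : x = (s, false) := by
    obtain ⟨x1, x2⟩ := x
    simp only at hxy hne
    subst hxy
    cases x2 <;> simp_all
  exact this ▸ Option.mem_def.mp hx

lemma not_ends_of_mul {u v : FreeGroup α} {s t : α} (hu : ¬ Ends u (s, false))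
    (hv : ¬ Starts v (s, false)) (hv' : ¬ Ends v (t, false)) : ¬ Ends (u * of s * v) (t, false) := by
  unfold Ends at *
  rw [toWord_mul_of_mul hu hv, List.getLast?_append, List.getLast?_cons]
  cases h : v.toWord.getLast? with
  | none => simp
  | some x => simpa [h] using hv'

omit [DecidableEq α] in
lemma mk_true (s : α) : (mk [(s, true)] : FreeGroup α) = of s := rfl

omit [DecidableEq α] in
lemma mk_false (s : α) : (mk [(s, false)] : FreeGroup α) = (of s)⁻¹ := by
  rw [← mk_true, inv_mk]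
  rfl

end words

/-- The free group of rank three. -/
abbrev F3 := FreeGroup (Fin 3)

/-- The first Artin generator. -/
def sig1 : MulAut F3 :=
  MonoidHom.toMulEquiv (FreeGroup.lift ![of 0 * of 1 * (of 0)⁻¹, of 0, of 2])
    (FreeGroup.lift ![of 1, (of 1)⁻¹ * of 0 * of 1, of 2])
    (by ext i; fin_cases i <;> simp [mul_assoc]) (by ext i; fin_cases i <;> simp [mul_assoc])

/-- The second Artin generator. -/
def sig2 : MulAut F3 :=
  MonoidHom.toMulEquiv (FreeGroup.lift ![of 0, of 1 * of 2 * (of 1)⁻¹, of 1])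
    (FreeGroup.lift ![of 0, of 2, (of 2)⁻¹ * of 1 * of 2])
    (by ext i; fin_cases i <;> simp [mul_assoc]) (by ext i; fin_cases i <;> simp [mul_assoc])

@[simp] lemma sig1_0 : sig1 (of 0) = of 0 * of 1 * (of 0)⁻¹ := by simp [sig1]
@[simp] lemma sig1_1 : sig1 (of 1) = of 0 := by simp [sig1]
@[simp] lemma sig1_2 : sig1 (of 2) = of 2 := by simp [sig1]
@[simp] lemma sig2_0 : sig2 (of 0) = of 0 := by simp [sig2]
@[simp] lemma sig2_1 : sig2 (of 1) = of 1 * of 2 * (of 1)⁻¹ := by simp [sig2]
@[simp] lemma sig2_2 : sig2 (of 2) = of 1 := by simp [sig2]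
@[simp] lemma sig1i_0 : sig1.symm (of 0) = of 1 := by simp [sig1]
@[simp] lemma sig1i_1 : sig1.symm (of 1) = (of 1)⁻¹ * of 0 * of 1 := by simp [sig1]
@[simp] lemma sig1i_2 : sig1.symm (of 2) = of 2 := by simp [sig1]
@[simp] lemma sig2i_0 : sig2.symm (of 0) = of 0 := by simp [sig2]
@[simp] lemma sig2i_1 : sig2.symm (of 1) = of 2 := by simp [sig2]
@[simp] lemma sig2i_2 : sig2.symm (of 2) = (of 2)⁻¹ * of 1 * of 2 := by simp [sig2]

lemma aut_ext {β β' : MulAut F3} (h0 : β (of 0) = β' (of 0)) (h1 : β (of 1) = β' (of 1))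
    (h2 : β (of 2) = β' (of 2)) : β = β' := by
  apply MulEquiv.toMonoidHom_injective
  ext i
  fin_cases i
  exacts [h0, h1, h2]

lemma sig_braid : sig1 * sig2 * sig1 = sig2 * sig1 * sig2 := by
  apply aut_ext <;> simp [mul_assoc]

lemma sig_cube : (sig1 * sig2) ^ 3 = MulAut.conj (of 0 * of 1 * of 2) := by
  apply aut_ext <;> simp [pow_succ, mul_assoc]

/-- The triple `w` is the image of the basis under a braid automorphism. -/
def IsBraidTriple (w0 w1 w2 : F3) : Prop :=
  ∃ β ∈ Subgroup.closure {sig1, sig2}, β (of 0) = w0 ∧ β (of 1) = w1 ∧ β (of 2) = w2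

lemma sig1_mem : sig1 ∈ Subgroup.closure {sig1, sig2} := Subgroup.subset_closure (by simp)

lemma sig2_mem : sig2 ∈ Subgroup.closure {sig1, sig2} := Subgroup.subset_closure (by simp)

lemma IsBraidTriple.move1 {w0 w1 w2 : F3} (h : IsBraidTriple (w0 * w1 * w0⁻¹) w0 w2) :
    IsBraidTriple w0 w1 w2 := by
  obtain ⟨β, hβ, h0, h1, h2⟩ := h
  exact ⟨β * sig1⁻¹, mul_mem hβ (inv_mem sig1_mem), by simp [h1], by simp [h0, h1, mul_assoc],
    by simp [h2]⟩

lemma IsBraidTriple.move1' {w0 w1 w2 : F3} (h : IsBraidTriple w1 (w1⁻¹ * w0 * w1) w2) :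
    IsBraidTriple w0 w1 w2 := by
  obtain ⟨β, hβ, h0, h1, h2⟩ := h
  exact ⟨β * sig1, mul_mem hβ sig1_mem, by simp [h0, h1, mul_assoc], by simp [h0], by simp [h2]⟩

lemma IsBraidTriple.move2 {w0 w1 w2 : F3} (h : IsBraidTriple w0 (w1 * w2 * w1⁻¹) w1) :
    IsBraidTriple w0 w1 w2 := by
  obtain ⟨β, hβ, h0, h1, h2⟩ := h
  exact ⟨β * sig2⁻¹, mul_mem hβ (inv_mem sig2_mem), by simp [h0], by simp [h2],
    by simp [h1, h2, mul_assoc]⟩

lemma IsBraidTriple.move2' {w0 w1 w2 : F3} (h : IsBraidTriple w0 w2 (w2⁻¹ * w1 * w2)) :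
    IsBraidTriple w0 w1 w2 := by
  obtain ⟨β, hβ, h0, h1, h2⟩ := h
  exact ⟨β * sig2, mul_mem hβ sig2_mem, by simp [h0], by simp [h1, h2, mul_assoc], by simp [h1]⟩

lemma shorten {a : F3} {s : Fin 3} (h : Ends a (s, false) ∨ Ends a (s, true)) :
    ∃ a' : F3, norm a' < norm a ∧ a * of s * a⁻¹ = a' * of s * a'⁻¹ := by
  rcases h with h | h
  · exact ⟨_, h.norm_lt, by rw [mk_false]; group⟩
  · exact ⟨_, h.norm_lt, by rw [mk_true]; group⟩

theorem artin (n : ℕ) : ∀ (a0 a1 a2 : F3) (s0 s1 s2 : Fin 3), norm a0 + norm a1 + norm a2 = n →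
    (a0 * of s0 * a0⁻¹) * (a1 * of s1 * a1⁻¹) * (a2 * of s2 * a2⁻¹) = of 0 * of 1 * of 2 →
    IsBraidTriple (a0 * of s0 * a0⁻¹) (a1 * of s1 * a1⁻¹) (a2 * of s2 * a2⁻¹) := by
  induction n using Nat.strong_induction_on with
  | _ n ih =>
  intro a0 a1 a2 s0 s1 s2 hn hprod
  by_cases e0 : Ends a0 (s0, false) ∨ Ends a0 (s0, true)
  · obtain ⟨a', h1, h2⟩ := shorten e0
    rw [h2] at hprod ⊢
    exact ih _ (by omega) _ _ _ _ _ _ rfl hprod
  by_cases e1 : Ends a1 (s1, false) ∨ Ends a1 (s1, true)
  · obtain ⟨a', h1, h2⟩ := shorten e1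
    rw [h2] at hprod ⊢
    exact ih _ (by omega) _ _ _ _ _ _ rfl hprod
  by_cases e2 : Ends a2 (s2, false) ∨ Ends a2 (s2, true)
  · obtain ⟨a', h1, h2⟩ := shorten e2
    rw [h2] at hprod ⊢
    exact ih _ (by omega) _ _ _ _ _ _ rfl hprod
  push Not at e0 e1 e2
  by_cases j1 : Starts (a0⁻¹ * a1) (s0, false)
  · have h1 := junction (a := a0) (ε := false) e0.2 j1
    rw [mk_false, inv_inv, mul_inv_cancel_left] at h1
    apply IsBraidTriple.move1
    have := ih _ (by omega) (a0 * of s0 * (a0⁻¹ * a1)) a0 a2 s1 s0 s2 rfl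
      (by rw [← hprod]; group)
    convert this using 1
    group
  by_cases j2 : Ends (a0⁻¹ * a1) (s1, false)
  · rw [ends_iff_starts_inv, mul_inv_rev, inv_inv] at j2
    have h1 := junction (a := a1) (ε := true) e1.1 j2
    rw [mk_true, mul_inv_cancel_left] at h1
    apply IsBraidTriple.move1'
    have := ih _ (by omega) a1 (a1 * (of s1)⁻¹ * (a1⁻¹ * a0)) a2 s1 s0 s2 rfl
      (by rw [← hprod]; group)
    convert this using 1
    group
  by_cases j3 : Starts (a1⁻¹ * a2) (s1, false)
  · have h1 := junction (a := a1) (ε := false) e1.2 j3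
    rw [mk_false, inv_inv, mul_inv_cancel_left] at h1
    apply IsBraidTriple.move2
    have := ih _ (by omega) a0 (a1 * of s1 * (a1⁻¹ * a2)) a1 s0 s2 s1 rfl
      (by rw [← hprod]; group)
    convert this using 1
    group
  by_cases j4 : Ends (a1⁻¹ * a2) (s2, false)
  · rw [ends_iff_starts_inv, mul_inv_rev, inv_inv] at j4
    have h1 := junction (a := a2) (ε := true) e2.1 j4
    rw [mk_true, mul_inv_cancel_left] at h1
    apply IsBraidTriple.move2'
    have := ih _ (by omega) a0 a2 (a2 * (of s2)⁻¹ * (a2⁻¹ * a1)) s0 s2 s1 rfl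
      (by rw [← hprod]; group)
    convert this using 1
    group
  have j5 : ¬ Starts a2⁻¹ (s2, false) := fun h => e2.2 (ends_iff_starts_inv.mpr h)
  have k1 := not_ends_of_mul e0.1 j1 j2
  have k2 := not_ends_of_mul k1 j3 j4
  have w3 := toWord_mul_of_mul k2 j5
  rw [toWord_mul_of_mul k1 j3, toWord_mul_of_mul e0.1 j1] at w3
  have hp : a0 * of s0 * (a0⁻¹ * a1) * of s1 * (a1⁻¹ * a2) * of s2 * a2⁻¹ =
      of 0 * of 1 * of 2 := by rw [← hprod]; group
  have hw : (of 0 * of 1 * of 2 : F3).toWord = [(0, true), (1, true), (2, true)] := by decide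
  rw [hp, hw] at w3
  have hlen := congrArg List.length w3
  simp only [List.length_cons, List.length_nil, List.length_append] at hlen
  have z0 : a0 = 1 := by rw [← toWord_eq_nil_iff, ← List.length_eq_zero_iff]; omega
  have z1 : a0⁻¹ * a1 = 1 := by rw [← toWord_eq_nil_iff, ← List.length_eq_zero_iff]; omega
  have z2 : a1⁻¹ * a2 = 1 := by rw [← toWord_eq_nil_iff, ← List.length_eq_zero_iff]; omega
  subst z0
  obtain rfl : a1 = 1 := by simpa using z1
  obtain rfl : a2 = 1 := by simpa using z2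
  simp only [toWord_one, inv_one, mul_one, List.nil_append, List.cons_append, List.cons.injEq,
    Prod.mk.injEq, and_true] at w3
  obtain ⟨rfl, rfl, rfl⟩ := w3
  exact ⟨1, one_mem _, by simp, by simp, by simp⟩

/-- An automorphism of the free group of rank three that sends every generator to a conjugate and
fixes their product lies in the pure braid group. -/
theorem mem_pure_of_conj (β : MulAut F3) (h : ∀ i, IsConj (of i) (β (of i)))
    (hprod : β (of 0 * of 1 * of 2) = of 0 * of 1 * of 2) : β ∈ pureSub sig1 sig2 := by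
  have h' := fun i => isConj_iff.mp (h i)
  choose a ha using h'
  obtain ⟨β', hβ', h0, h1, h2⟩ := artin _ (a 0) (a 1) (a 2) 0 1 2 rfl
    (by rw [ha, ha, ha, ← _root_.map_mul, ← _root_.map_mul, hprod])
  have e : β = β' := aut_ext (by rw [h0, ha]) (by rw [h1, ha]) (by rw [h2, ha])
  subst e
  obtain ⟨η, hη, r, hr, rfl⟩ := braid_cosets sig_braid hβ'
  let ab : F3 →* Multiplicative (Fin 3 → ZMod 2) :=
    FreeGroup.lift fun i => Multiplicative.ofAdd (Pi.single i 1)
  have hab : ∀ η ∈ pureSub sig1 sig2, ∀ w, ab (η w) = ab w := by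
    intro η hη
    induction hη using Subgroup.closure_induction with
    | mem x hx =>
      suffices ab.comp x.toMonoidHom = ab from fun w => DFunLike.congr_fun this w
      rcases hx with rfl | rfl | rfl
      · ext1 i
        fin_cases i <;> simp [pow_two, mul_comm]
      · ext1 i
        fin_cases i <;> simp [pow_two, mul_comm]
      · rw [sig_cube]
        ext1 i
        simp [mul_comm]
    | one => simp
    | mul x y _ _ hx hy => intro w; rw [MulAut.mul_apply, hx, hy]
    | inv x _ hx => intro w; rw [← hx, MulAut.apply_inv_self]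
  have hr' : ∀ i, ab (r (of i)) = ab (of i) := by
    intro i
    have := congrArg ab (ha i)
    rw [MulAut.mul_apply, hab η hη] at this
    rw [← this]
    simp
  rcases hr with rfl | rfl | rfl | rfl | rfl | rfl
  · simpa using hη
  · exact absurd (hr' 1) (by simp [ab]; decide)
  · exact absurd (hr' 2) (by simp [ab]; decide)
  · exact absurd (hr' 2) (by simp [ab]; decide)
  · exact absurd (hr' 1) (by simp [ab]; decide)
  · exact absurd (hr' 2) (by simp [ab]; decide)

end Pool.Agent.MP_07c73e_al.H96
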