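import Pool.Agent.MP_07c73e_al.H96.Final

/-!
Bases of the profinite completion of the fundamental group of the sphere with four punctures.
-/

namespace Pool.Agent.MP_07c73e_al.H96

open FreeGroup ProfiniteGrp.ProfiniteCompletion CategoryTheory

variable {P : Type} [Group P] [TopologicalSpace P] [IsTopologicalGroup P] [CompactSpace P]
  [TotallyDisconnectedSpace P]

/-- The first three loops. -/
def toPi : F3 →* Pi04 :=
  FreeGroup.lift ![PresentedGroup.of 0, PresentedGroup.of 1, PresentedGroup.of 2]

/-- The inverse map. -/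
def ofPi : Pi04 →* F3 := PresentedGroup.toGroup (f := loops) (by
  rintro _ rfl
  simp only [_root_.map_mul, FreeGroup.lift_apply_of, loops_0, loops_1, loops_2, loops_3,
    mul_inv_cancel])

lemma ofPi_toPi (w : F3) : ofPi (toPi w) = w :=
  hom3_ext (f := ofPi.comp toPi) (g := MonoidHom.id _) (by simp [ofPi, toPi])
    (by simp [ofPi, toPi]) (by simp [ofPi, toPi]) w

lemma pi_rel : (PresentedGroup.of 0 * PresentedGroup.of 1 * PresentedGroup.of 2 *
    PresentedGroup.of 3 : Pi04) = 1 :=
  PresentedGroup.one_of_mem (x := of 0 * of 1 * of 2 * of 3) rfl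

lemma toPi_ofPi (w : Pi04) : toPi (ofPi w) = w := by
  have : toPi.comp ofPi = MonoidHom.id _ := by
    refine PresentedGroup.ext fun i => ?_
    fin_cases i
    · simp [ofPi, toPi]
    · simp [ofPi, toPi]
    · simp [ofPi, toPi]
    · have := eq_inv_of_mul_eq_one_right pi_rel
      simp [ofPi, toPi, this]
  exact DFunLike.congr_fun this w

omit [IsTopologicalGroup P] [CompactSpace P] [TotallyDisconnectedSpace P] in
lemma freeData_std (e : P ≃ₜ* completion (GrpCat.of Pi04)) :
    FreeData ((e.symm.toMulEquiv.toMonoidHom.comp (eta (GrpCat.of Pi04)).hom).comp toPi) where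
  dense := by
    have h1 : DenseRange (e.symm ∘ etaFn (GrpCat.of Pi04)) :=
      e.symm.surjective.denseRange.comp (denseRange _) e.symm.continuous_toFun
    refine h1.mono ?_
    rintro _ ⟨w, rfl⟩
    exact ⟨ofPi w, by
      change e.symm (etaFn (GrpCat.of Pi04) (toPi (ofPi w))) = _
      rw [toPi_ofPi]
      rfl⟩
  ext Q _ _ _ _ _ f := by
    let f₀ : GrpCat.of Pi04 ⟶ GrpCat.of (ProfiniteGrp.of Q) := GrpCat.ofHom (f.comp ofPi)
    refine ⟨(ProfiniteGrp.ProfiniteCompletion.lift f₀).hom.toMonoidHom.comp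
      e.toMulEquiv.toMonoidHom,
      (ProfiniteGrp.ProfiniteCompletion.lift f₀).hom.continuous_toFun.comp e.continuous_toFun,
      fun w => ?_⟩
    have h1 : (ProfiniteGrp.ProfiniteCompletion.lift f₀).hom
        (etaFn (GrpCat.of Pi04) (toPi w)) = f (ofPi (toPi w)) :=
      ConcreteCategory.congr_hom (lift_eta f₀) (toPi w)
    rw [ofPi_toPi] at h1
    rw [← h1]
    exact congrArg (ProfiniteGrp.ProfiniteCompletion.lift f₀).hom (e.apply_symm_apply _)

lemma freeData_of_basis (e : P ≃ₜ* completion (GrpCat.of Pi04)) (j : F3 →* P)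
    (hj : j.range.topologicalClosure = ⊤) : FreeData j := by
  have h := freeData_std e
  obtain ⟨ψ, hc, hψ⟩ := h.exists_aut j (by
    intro R hR hgen i
    have h1 : j.range ≤ R := by
      rintro _ ⟨w, rfl⟩
      induction w using FreeGroup.induction_on with
      | C1 => simp
      | of i => exact hgen i
      | inv_of i h => simpa using h
      | mul x y hx hy => simpa using mul_mem hx hy
    exact Subgroup.topologicalClosure_minimal _ h1 hR (hj ▸ Subgroup.mem_top _))
  refine ⟨?_, fun Q _ _ _ _ _ f => ?_⟩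
  · intro x
    have : x ∈ j.range.topologicalClosure := hj ▸ Subgroup.mem_top _
    exact this
  · obtain ⟨f', h1, h2⟩ := h.ext Q f
    refine ⟨f'.comp (ψ⁻¹ : MulAut P).toMonoidHom, h1.comp (continuous_aut_inv hc), fun w => ?_⟩
    rw [← h2, ← hψ]
    exact congrArg f' (MulAut.inv_apply_self _ ψ _)

theorem not_normal_of_basis (e : P ≃ₜ* completion (GrpCat.of Pi04)) (l : Fin 4 → P)
    (hrel : l 0 * l 1 * l 2 * l 3 = 1)
    (hgen : (Subgroup.closure (Set.range l)).topologicalClosure = ⊤) :
    ¬ (tPlus l (Subgroup.closure (Set.range l))).Normal := by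
  obtain ⟨j, rfl⟩ : ∃ j : F3 →* P, l = fun i => j (loops i) := by
    refine ⟨FreeGroup.lift ![l 0, l 1, l 2], funext fun i => ?_⟩
    fin_cases i
    · simp
    · simp
    · simp
    · simp [eq_inv_of_mul_eq_one_right hrel]
  rw [closure_loops] at hgen ⊢
  exact (freeData_of_basis e j hgen).not_normal

omit [CompactSpace P] [TotallyDisconnectedSpace P] in
/-- The hypotheses are satisfiable: the images of the four loops form a basis. -/
theorem exists_basis (e : P ≃ₜ* completion (GrpCat.of Pi04)) : ∃ l : Fin 4 → P,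
    l 0 * l 1 * l 2 * l 3 = 1 ∧ (Subgroup.closure (Set.range l)).topologicalClosure = ⊤ := by
  obtain ⟨j, hj⟩ : ∃ j : F3 →* P, FreeData j := ⟨_, freeData_std e⟩
  refine ⟨fun i => j (loops i), by simp [mul_assoc], ?_⟩
  rw [closure_loops, eq_top_iff]
  exact fun x _ => hj.dense x

end Pool.Agent.MP_07c73e_al.H96
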