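import Mathlib

/-!
Two elements of a group that satisfy the braid relation: the pure subgroup is normal of index
at most six.
-/

namespace Pool.Agent.MP_07c73e_al.H96

variable {Q : Type*} [Group Q] {u v : Q}

/-- The pure subgroup. -/
def pureSub (u v : Q) : Subgroup Q := Subgroup.closure {u ^ 2, v ^ 2, (u * v) ^ 3}

lemma sq_mem_pure_left : u ^ 2 ∈ pureSub u v := Subgroup.subset_closure (by simp)

lemma sq_mem_pure_right : v ^ 2 ∈ pureSub u v := Subgroup.subset_closure (by simp)

lemma cube_mem_pure : (u * v) ^ 3 ∈ pureSub u v := Subgroup.subset_closure (by simp)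

lemma braid_cube (h : u * v * u = v * u * v) : (u * v) ^ 3 = (u * v * u) * (u * v * u) := by
  conv_rhs => rw [h]; enter [1]; rw [← h]
  simp only [pow_succ, pow_zero, one_mul, mul_assoc]

lemma braid_comm_left (h : u * v * u = v * u * v) : u * (u * v) ^ 3 = (u * v) ^ 3 * u := by
  have h1 : (u * v * u) * u = v * (u * v * u) := by
    conv_lhs => rw [h]
    simp only [mul_assoc]
  have h2 : (u * v * u) * v = u * (u * v * u) := by
    conv_rhs => rw [h]
    simp only [mul_assoc]
  rw [braid_cube h]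
  generalize u * v * u = D at h1 h2 ⊢
  rw [mul_assoc D, h1, ← mul_assoc D, h2, mul_assoc]

lemma braid_comm_right (h : u * v * u = v * u * v) : v * (u * v) ^ 3 = (u * v) ^ 3 * v := by
  have h1 : (u * v * u) * u = v * (u * v * u) := by
    conv_lhs => rw [h]
    simp only [mul_assoc]
  have h2 : (u * v * u) * v = u * (u * v * u) := by
    conv_rhs => rw [h]
    simp only [mul_assoc]
  rw [braid_cube h]
  generalize u * v * u = D at h1 h2 ⊢
  rw [mul_assoc D, h2, ← mul_assoc D, h1, mul_assoc]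

lemma braid_conj_a (h : u * v * u = v * u * v) :
    v * u ^ 2 * v⁻¹ = (u ^ 2)⁻¹ * (u * v) ^ 3 * (v ^ 2)⁻¹ := by
  have : (u * v) ^ 3 = u * (u * v * u) * (u * v) := by
    rw [h]; simp only [pow_succ, pow_zero, one_mul, mul_assoc]
  rw [this]
  simp [pow_two, mul_assoc]

lemma braid_conj_b (h : u * v * u = v * u * v) :
    u * v ^ 2 * u⁻¹ = (v ^ 2)⁻¹ * (u * v) ^ 3 * (u ^ 2)⁻¹ := by
  have : (u * v) ^ 3 = v * (v * u * v) * (v * u) := by
    rw [braid_cube h]
    conv_rhs => rw [← h]
    conv_lhs => enter [1]; rw [h]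
    simp only [mul_assoc]
  rw [this]
  simp [pow_two, mul_assoc]

lemma mem_normalizer_of_conj {H : Subgroup Q} {s : Q} (hs : s ^ 2 ∈ H)
    (h : ∀ x ∈ H, s * x * s⁻¹ ∈ H) : s ∈ Subgroup.normalizer (H : Set Q) := by
  rw [Subgroup.mem_normalizer_iff]
  refine fun x => ⟨h x, fun hx => ?_⟩
  have := H.mul_mem (H.mul_mem (H.inv_mem hs) (h _ hx)) hs
  convert this using 1
  simp only [pow_two]
  group

lemma conj_mem_pure_of_gens {s : Q} (h1 : s * u ^ 2 * s⁻¹ ∈ pureSub u v)
    (h2 : s * v ^ 2 * s⁻¹ ∈ pureSub u v) (h3 : s * (u * v) ^ 3 * s⁻¹ ∈ pureSub u v) :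
    ∀ x ∈ pureSub u v, s * x * s⁻¹ ∈ pureSub u v := by
  intro x hx
  induction hx using Subgroup.closure_induction with
  | mem x hx => rcases hx with rfl | rfl | rfl <;> assumption
  | one => simp
  | mul x y _ _ hx hy =>
    convert (pureSub u v).mul_mem hx hy using 1
    group
  | inv x _ hx =>
    convert (pureSub u v).inv_mem hx using 1
    group

lemma conj_mem_pure (h : u * v * u = v * u * v) {γ : Q} (hγ : γ ∈ Subgroup.closure {u, v})
    {x : Q} (hx : x ∈ pureSub u v) : γ * x * γ⁻¹ ∈ pureSub u v := by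
  have ha := sq_mem_pure_left (u := u) (v := v)
  have hb := sq_mem_pure_right (u := u) (v := v)
  have hd := cube_mem_pure (u := u) (v := v)
  have : Subgroup.closure {u, v} ≤ Subgroup.normalizer (pureSub u v : Set Q) := by
    rw [Subgroup.closure_le]
    rintro s (rfl | rfl)
    · refine mem_normalizer_of_conj ha (conj_mem_pure_of_gens ?_ ?_ ?_)
      · convert ha using 1; group
      · rw [braid_conj_b h]; exact mul_mem (mul_mem (inv_mem hb) hd) (inv_mem ha)
      · rw [braid_comm_left h, mul_inv_cancel_right]; exact hd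
    · refine mem_normalizer_of_conj hb (conj_mem_pure_of_gens ?_ ?_ ?_)
      · rw [braid_conj_a h]; exact mul_mem (mul_mem (inv_mem ha) hd) (inv_mem hb)
      · convert hb using 1; group
      · rw [braid_comm_right h, mul_inv_cancel_right]; exact hd
  exact (Subgroup.mem_normalizer_iff.mp (this hγ) x).mp hx

lemma braid_cosets (h : u * v * u = v * u * v) {γ : Q} (hγ : γ ∈ Subgroup.closure {u, v}) :
    ∃ η ∈ pureSub u v, ∃ r ∈ ({1, u, v, u * v, v * u, u * v * u} : Set Q), γ = η * r := by
  have ha := sq_mem_pure_left (u := u) (v := v)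
  have hb := sq_mem_pure_right (u := u) (v := v)
  have hu : u ∈ Subgroup.closure {u, v} := Subgroup.subset_closure (by simp)
  have hv : v ∈ Subgroup.closure {u, v} := Subgroup.subset_closure (by simp)
  have hR : ∀ r ∈ ({1, u, v, u * v, v * u, u * v * u} : Set Q), r ∈ Subgroup.closure {u, v} := by
    rintro r (rfl | rfl | rfl | rfl | rfl | rfl)
    exacts [one_mem _, hu, hv, mul_mem hu hv, mul_mem hv hu, mul_mem (mul_mem hu hv) hu]
  have step : ∀ s ∈ ({u, v} : Set Q), ∀ r ∈ ({1, u, v, u * v, v * u, u * v * u} : Set Q),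
      ∃ η ∈ pureSub u v, ∃ r' ∈ ({1, u, v, u * v, v * u, u * v * u} : Set Q), r * s = η * r' := by
    intro s hs r hr
    rcases hs with hs | hs <;> rcases hr with hr | hr | hr | hr | hr | hr <;> rw [hs, hr]
    · exact ⟨1, one_mem _, u, by simp, by simp⟩
    · exact ⟨_, ha, 1, by simp, by simp [pow_two]⟩
    · exact ⟨1, one_mem _, v * u, by simp, by simp⟩
    · exact ⟨1, one_mem _, u * v * u, by simp, by simp⟩
    · exact ⟨_, conj_mem_pure h hv ha, v, by simp, by simp [pow_two, mul_assoc]⟩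
    · exact ⟨_, conj_mem_pure h (mul_mem hu hv) ha, u * v, by simp, by simp [pow_two, mul_assoc]⟩
    · exact ⟨1, one_mem _, v, by simp, by simp⟩
    · exact ⟨1, one_mem _, u * v, by simp, by simp⟩
    · exact ⟨_, hb, 1, by simp, by simp [pow_two]⟩
    · exact ⟨_, conj_mem_pure h hu hb, u, by simp, by simp [pow_two, mul_assoc]⟩
    · exact ⟨1, one_mem _, u * v * u, by simp, by simp [h]⟩
    · exact ⟨_, conj_mem_pure h (mul_mem hv hu) hb, v * u, by simp,
        by rw [h]; simp [pow_two, mul_assoc]⟩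
  induction hγ using Subgroup.closure_induction_right with
  | one => exact ⟨1, one_mem _, 1, by simp, by simp⟩
  | mul_right x _ s hs ih =>
    obtain ⟨η, hη, r, hr, rfl⟩ := ih
    obtain ⟨η', hη', r', hr', e⟩ := step s hs r hr
    exact ⟨η * η', mul_mem hη hη', r', hr', by rw [mul_assoc, e, mul_assoc]⟩
  | mul_inv_cancel x _ s hs ih =>
    obtain ⟨η, hη, r, hr, rfl⟩ := ih
    obtain ⟨η', hη', r', hr', e⟩ := step s hs r hr
    have hs2 : s ^ 2 ∈ pureSub u v := by
      rcases hs with hs | hs <;> rw [hs] <;> assumption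
    refine ⟨η * η' * (r' * (s ^ 2)⁻¹ * r'⁻¹),
      mul_mem (mul_mem hη hη') (conj_mem_pure h (hR r' hr') (inv_mem hs2)), r', hr', ?_⟩
    calc η * r * s⁻¹ = η * (r * s) * (s ^ 2)⁻¹ := by simp only [pow_two]; group
      _ = _ := by rw [e]; group

end Pool.Agent.MP_07c73e_al.H96
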