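import Mathlib

/-!
Definitions: the ring of profinite integers, profinite powers, the group of loop automorphisms of a
profinite group with a given family of loops, the stabiliser of a discretification, its closure,
and the plus part of its image in the outer group.
-/

namespace Pool.Agent.MP_07c73e_al.H96

open Filter Topology

/-- The ring of profinite integers: compatible families of residues. -/
def ZHat : Subring ((n : ℕ+) → ZMod n) where
  carrier := {a | ∀ (m n : ℕ+) (h : (m : ℕ) ∣ (n : ℕ)), ZMod.castHom h (ZMod m) (a n) = a m}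
  mul_mem' {a b} ha hb m n h := by rw [Pi.mul_apply, map_mul, ha m n h, hb m n h, Pi.mul_apply]
  one_mem' m n h := by rw [Pi.one_apply, map_one, Pi.one_apply]
  add_mem' {a b} ha hb m n h := by rw [Pi.add_apply, map_add, ha m n h, hb m n h, Pi.add_apply]
  zero_mem' m n h := by rw [Pi.zero_apply, map_zero, Pi.zero_apply]
  neg_mem' {a} ha m n h := by rw [Pi.neg_apply, map_neg, ha m n h, Pi.neg_apply]

variable {P : Type} [Group P] [TopologicalSpace P]

/-- `y` is the profinite power `x ^ lam`: the limit of `x ^ (lam mod n !)`. -/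
def IsPow (x : P) (lam : ZHat) (y : P) : Prop :=
  Tendsto (fun n : ℕ => x ^ (lam.1 ⟨n.factorial, n.factorial_pos⟩).val) atTop (𝓝 y)

/-- `φ (l i) = α i * l (σ i) ^ lam * (α i)⁻¹` for some permutation `σ` and some elements `α i`. -/
def HasChar {n : ℕ} (l : Fin n → P) (φ : MulAut P) (lam : ZHat) : Prop :=
  ∃ (σ : Equiv.Perm (Fin n)) (α : Fin n → P),
    ∀ i, IsPow (l (σ i)) lam ((α i)⁻¹ * φ (l i) * α i)

lemma IsPow.map {Q : Type} [Group Q] [TopologicalSpace Q] {x y : P} {lam : ZHat}
    (h : IsPow x lam y) (f : P →* Q) (hf : Continuous f) : IsPow (f x) lam (f y) := by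
  have := (hf.tendsto y).comp h
  simpa [IsPow, Function.comp_def] using this

lemma eventually_pow_eq {H : Type} [Group H] (x : H) (lam : ZHat) (N : ℕ+) (hN : x ^ (N : ℕ) = 1) :
    ∀ᶠ n : ℕ in atTop, x ^ (lam.1 ⟨n.factorial, n.factorial_pos⟩).val = x ^ (lam.1 N).val := by
  filter_upwards [eventually_ge_atTop (N : ℕ)] with n hn
  have hd : (N : ℕ) ∣ n.factorial := Nat.dvd_factorial N.pos hn
  have h1 := lam.2 N ⟨n.factorial, n.factorial_pos⟩ hd
  refine pow_eq_pow_of_modEq ?_ hN
  rw [← ZMod.natCast_eq_natCast_iff, ← h1, ZMod.castHom_apply, ZMod.natCast_val, ZMod.natCast_val,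
    ZMod.cast_id]

variable [IsTopologicalGroup P]

lemma continuous_of_isOpen_ker {H : Type} [Group H] [TopologicalSpace H]
    (f : P →* H) (hf : IsOpen (f.ker : Set P)) : Continuous f := by
  refine continuous_def.mpr fun s _ => ?_
  rw [isOpen_iff_mem_nhds]
  intro x hx
  have h1 : IsOpen ((fun y => x⁻¹ * y) ⁻¹' (f.ker : Set P)) := hf.preimage (by fun_prop)
  filter_upwards [h1.mem_nhds (by simp)] with y hy
  have h2 : f y = f x := by
    have : f (x⁻¹ * y) = 1 := hy
    rw [map_mul, map_inv, inv_mul_eq_one] at this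
    exact this.symm
  simpa [h2] using hx

lemma IsPow.eq_of_open {x y : P} {lam : ZHat} (h : IsPow x lam y) {H : Type} [Group H]
    (f : P →* H) (hf : IsOpen (f.ker : Set P)) (N : ℕ+) (hN : f x ^ (N : ℕ) = 1) :
    f y = f x ^ (lam.1 N).val := by
  let : TopologicalSpace H := ⊥
  have : DiscreteTopology H := ⟨rfl⟩
  exact tendsto_nhds_unique (h.map f (continuous_of_isOpen_ker f hf))
    (tendsto_const_nhds.congr' (EventuallyEq.symm (eventually_pow_eq (f x) lam N hN)))

lemma IsPow.conj {x y : P} {lam : ZHat} (h : IsPow x lam y) (g : P) :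
    IsPow (g * x * g⁻¹) lam (g * y * g⁻¹) :=
  h.map (MulAut.conj g).toMonoidHom (by
    change Continuous fun z => g * z * g⁻¹
    fun_prop)

variable [CompactSpace P]

/-- The order of the quotient by an open normal subgroup. -/
noncomputable def quotCard (U : OpenNormalSubgroup P) : ℕ+ :=
  ⟨Nat.card (P ⧸ U.toSubgroup), Nat.card_pos⟩

lemma pow_quotCard (U : OpenNormalSubgroup P) (x : P) :
    QuotientGroup.mk' U.toSubgroup x ^ (quotCard U : ℕ) = 1 := pow_card_eq_one'

omit [IsTopologicalGroup P] [CompactSpace P] in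
lemma isOpen_ker_mk (U : OpenNormalSubgroup P) :
    IsOpen ((QuotientGroup.mk' U.toSubgroup).ker : Set P) := by
  rw [QuotientGroup.ker_mk']
  exact U.isOpen'

variable [TotallyDisconnectedSpace P]

lemma isPow_of_forall {x y : P} {lam : ZHat} (h : ∀ U : OpenNormalSubgroup P,
    QuotientGroup.mk' U.toSubgroup y =
      QuotientGroup.mk' U.toSubgroup x ^ (lam.1 (quotCard U)).val) : IsPow x lam y := by
  refine tendsto_nhds.mpr fun s hs hy => ?_
  obtain ⟨U, hU⟩ := ProfiniteGrp.exist_openNormalSubgroup_sub_open_nhds_of_one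
    (U := (fun z => y * z) ⁻¹' s) (hs.preimage (by fun_prop)) (by simpa using hy)
  filter_upwards [eventually_pow_eq _ lam _ (pow_quotCard U x)] with n hn
  rw [← h U, ← map_pow, eq_comm] at hn
  have := hU (QuotientGroup.eq.mp hn)
  simpa using this

lemma exists_isPow (x : P) (lam : ZHat) : ∃ y, IsPow x lam y := by
  obtain ⟨y, hy⟩ := exists_clusterPt_of_compactSpace
    (Filter.map (fun n : ℕ => x ^ (lam.1 ⟨n.factorial, n.factorial_pos⟩).val) atTop)
  refine ⟨y, isPow_of_forall fun U => ?_⟩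
  have h1 : ∃ᶠ n : ℕ in atTop, y⁻¹ * x ^ (lam.1 ⟨n.factorial, n.factorial_pos⟩).val ∈
      U.toSubgroup := by
    have h2 : IsOpen ((fun z => y⁻¹ * z) ⁻¹' (U.toSubgroup : Set P)) :=
      U.isOpen'.preimage (by fun_prop)
    exact mapClusterPt_iff_frequently.mp hy _ (h2.mem_nhds (by simp))
  obtain ⟨n, hn1, hn2⟩ := (h1.and_eventually (eventually_pow_eq _ lam _ (pow_quotCard U x))).exists
  rw [← hn2, ← map_pow]
  exact QuotientGroup.eq.mpr hn1

lemma IsPow.mul {x y z : P} {lam mu : ZHat} (h1 : IsPow x lam y) (h2 : IsPow y mu z) :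
    IsPow x (lam * mu) z := by
  refine isPow_of_forall fun U => ?_
  rw [h2.eq_of_open _ (isOpen_ker_mk U) _ (pow_quotCard U y),
    h1.eq_of_open _ (isOpen_ker_mk U) _ (pow_quotCard U x), ← pow_mul]
  refine pow_eq_pow_of_modEq ?_ (pow_quotCard U x)
  rw [← ZMod.natCast_eq_natCast_iff]
  simp

lemma isPow_one (x : P) : IsPow x 1 x := by
  refine isPow_of_forall fun U => ?_
  conv_lhs => rw [← pow_one (QuotientGroup.mk' U.toSubgroup x)]
  refine pow_eq_pow_of_modEq ?_ (pow_quotCard U x)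
  rw [← ZMod.natCast_eq_natCast_iff]
  simp

lemma IsPow.eq_of_one {x y : P} (h : IsPow x 1 y) : y = x := tendsto_nhds_unique h (isPow_one x)

variable {n : ℕ} {l : Fin n → P}

lemma HasChar.one : HasChar l 1 1 := ⟨1, fun _ => 1, fun i => by simpa using isPow_one (l i)⟩

lemma HasChar.mul {φ ψ : MulAut P} {lam mu : ZHat} (hc : Continuous φ) (h1 : HasChar l φ lam)
    (h2 : HasChar l ψ mu) : HasChar l (φ * ψ) (lam * mu) := by
  obtain ⟨σ, α, hα⟩ := h1
  obtain ⟨τ, β, hβ⟩ := h2
  refine ⟨σ * τ, fun i => φ (β i) * α (τ i), fun i => (hα (τ i)).mul ?_⟩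
  have := ((hβ i).map φ.toMonoidHom hc).conj (α (τ i))⁻¹
  simpa [mul_assoc] using this

lemma continuous_aut_inv {φ : MulAut P} (hc : Continuous φ) : Continuous (φ⁻¹ : MulAut P) :=
  Continuous.continuous_symm_of_equiv_compact_to_t2 (f := φ.toEquiv) hc

lemma HasChar.inv {φ : MulAut P} {lam mu : ZHat} (hc : Continuous φ) (h1 : HasChar l φ lam)
    (hmu : lam * mu = 1) : HasChar l φ⁻¹ mu := by
  obtain ⟨σ, α, hα⟩ := h1
  refine ⟨σ⁻¹, fun j => (φ⁻¹ (α (σ⁻¹ j)))⁻¹, fun j => ?_⟩
  obtain ⟨u, hu⟩ := exists_isPow ((α (σ⁻¹ j))⁻¹ * φ (l (σ⁻¹ j)) * α (σ⁻¹ j)) mu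
  have h2 := (hα (σ⁻¹ j)).mul hu
  rw [hmu] at h2
  have h3 := (hu.map (φ⁻¹ : MulAut P).toMonoidHom (continuous_aut_inv hc)).conj (φ⁻¹ (α (σ⁻¹ j)))
  rw [h2.eq_of_one] at h3
  simpa [mul_assoc] using h3

/-- The group of loop automorphisms: the continuous automorphisms `φ` for which there are a unit
`lam` of the profinite integers, a permutation `σ` and elements `α i` with
`φ (l i) = α i * l (σ i) ^ lam * (α i)⁻¹`. -/
def autLac (l : Fin n → P) : Subgroup (MulAut P) where
  carrier := {φ | Continuous φ ∧ ∃ lam : ZHatˣ, HasChar l φ lam}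
  one_mem' := ⟨continuous_id, 1, HasChar.one⟩
  mul_mem' := fun ⟨ha, lam, h1⟩ ⟨hb, mu, h2⟩ => ⟨ha.comp hb, lam * mu, h1.mul ha h2⟩
  inv_mem' := fun ⟨ha, lam, h1⟩ => ⟨continuous_aut_inv ha, lam⁻¹, h1.inv ha lam.mul_inv⟩

/-- The inner automorphisms, as a subgroup of the group of loop automorphisms. -/
def innLac (l : Fin n → P) : Subgroup (autLac l) :=
  (MulAut.conj : P →* MulAut P).range.subgroupOf (autLac l)

instance innLac_normal (l : Fin n → P) : (innLac l).Normal where
  conj_mem := by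
    rintro ⟨_, h⟩ ⟨g, rfl⟩ ψ
    exact ⟨ψ.1 g, by ext x; simp⟩

/-- The stabiliser of a subgroup `D` in the group of loop automorphisms. -/
def stab (l : Fin n → P) (D : Subgroup P) : Subgroup (autLac l) where
  carrier := {φ | D.map φ.1.toMonoidHom = D}
  one_mem' := Subgroup.map_id D
  mul_mem' {a b} ha hb := by
    have ha' : D.map a.1.toMonoidHom = D := ha
    have hb' : D.map b.1.toMonoidHom = D := hb
    change D.map (a.1.toMonoidHom.comp b.1.toMonoidHom) = D
    rw [← Subgroup.map_map, hb', ha']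
  inv_mem' {a} ha := by
    have ha' : D.map a.1.toMonoidHom = D := ha
    change D.map a.1.symm.toMonoidHom = D
    conv_lhs => rw [← ha', Subgroup.map_map]
    simp

/-- The closure of a subgroup `S` of the group of loop automorphisms, for the topology of uniform
convergence: `φ` agrees modulo every open normal subgroup with some element of `S`. -/
def closureLac (l : Fin n → P) (S : Subgroup (autLac l)) : Subgroup (autLac l) where
  carrier := {φ | ∀ U : OpenNormalSubgroup P, ∃ ψ ∈ S, ∀ x, (φ.1 x)⁻¹ * ψ.1 x ∈ U}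
  one_mem' U := ⟨1, one_mem _, fun x => by simp⟩
  mul_mem' {a b} ha hb U := by
    obtain ⟨ψ, hψ, h1⟩ := ha U
    obtain ⟨ψ', hψ', h2⟩ := hb ⟨⟨U.toSubgroup.comap a.1.toMonoidHom,
      U.isOpen'.preimage a.2.1⟩, inferInstance⟩
    refine ⟨ψ * ψ', mul_mem hψ hψ', fun x => ?_⟩
    have h3 : a.1 ((b.1 x)⁻¹ * ψ'.1 x) ∈ U := h2 x
    simpa [mul_assoc] using mul_mem h3 (h1 (ψ'.1 x))
  inv_mem' {a} ha U := by
    obtain ⟨ψ, hψ, h1⟩ := ha ⟨⟨U.toSubgroup.comap a⁻¹.1.toMonoidHom,
      U.isOpen'.preimage a⁻¹.2.1⟩, inferInstance⟩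
    refine ⟨ψ⁻¹, inv_mem hψ, fun x => ?_⟩
    have h3 : a⁻¹.1 ((a.1 (ψ⁻¹.1 x))⁻¹ * ψ.1 (ψ⁻¹.1 x)) ∈ U := h1 _
    simpa using inv_mem h3

/-- The kernel of the cyclotomic character: the loop automorphisms with `lam = 1`. -/
def charKer (l : Fin n → P) : Subgroup (autLac l) where
  carrier := {φ | HasChar l φ.1 1}
  one_mem' := HasChar.one
  mul_mem' {a b} ha hb := by simpa using HasChar.mul a.2.1 ha hb
  inv_mem' {a} ha := HasChar.inv a.2.1 ha (mul_one 1)

/-- The plus part attached to a discretification `D`: inside the outer group, the image of the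
closure of the stabiliser of `D`, intersected with the kernel of the cyclotomic character. -/
def tPlus (l : Fin n → P) (D : Subgroup P) : Subgroup (autLac l ⧸ innLac l) :=
  (closureLac l (stab l D)).map (QuotientGroup.mk' (innLac l)) ⊓
    (charKer l).map (QuotientGroup.mk' (innLac l))

/-- The fundamental group of the sphere with four punctures, with its presentation by four loops
whose product is `1`. -/
abbrev Pi04 : Type := PresentedGroup
  ({FreeGroup.of 0 * FreeGroup.of 1 * FreeGroup.of 2 * FreeGroup.of 3} : Set (FreeGroup (Fin 4)))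

end Pool.Agent.MP_07c73e_al.H96
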