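import Pool.Agent.MP_07c73e_al.H96.Gam

/-!
The plus part is not normal for the sphere with four punctures.
-/

namespace Pool.Agent.MP_07c73e_al.H96

open FreeGroup

variable {P : Type} [Group P] [TopologicalSpace P] [IsTopologicalGroup P] [CompactSpace P]
  [TotallyDisconnectedSpace P] {j : F3 →* P}

/-- The abelianisation modulo three. -/
def ab3 : F3 →* Multiplicative (Fin 3 → ZMod 3) :=
  FreeGroup.lift fun i => Multiplicative.ofAdd (Pi.single i 1)

lemma ab3_loops (i : Fin 4) : ab3 (loops i) =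
    Multiplicative.ofAdd (![![1, 0, 0], ![0, 1, 0], ![0, 0, 1], ![2, 2, 2]] i) := by
  fin_cases i <;> simp [ab3] <;> decide

lemma ab3_key (i m : Fin 4) (k : ZMod 3) (h : ab3 (loops i) = ab3 (loops m) ^ k.val) :
    m = i ∧ k = 1 := by
  rw [ab3_loops, ab3_loops] at h
  revert i m k
  decide

lemma int_eq_one {n : ℤ} (h : ∀ N : ℕ+, IsUnit (n : ZMod N)) (h3 : (n : ZMod 3) = 1) : n = 1 := by
  have h0 : n ≠ 0 := by
    rintro rfl
    revert h3
    decide
  have h1 := h ⟨n.natAbs, Int.natAbs_pos.mpr h0⟩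
  have h2 : (n : ZMod n.natAbs) = 0 := (ZMod.intCast_zmod_eq_zero_iff_dvd _ _).mpr (by simp)
  have h4 : n.natAbs = 1 := by
    change IsUnit (n : ZMod n.natAbs) at h1
    rw [h2, isUnit_zero_iff] at h1
    exact ZMod.subsingleton_iff.mp (subsingleton_of_zero_eq_one h1)
  rcases Int.natAbs_eq_iff.mp h4 with rfl | rfl
  · rfl
  · exfalso
    revert h3
    decide

omit [TopologicalSpace P] [IsTopologicalGroup P] [CompactSpace P] [TotallyDisconnectedSpace P] in
lemma closure_loops (j : F3 →* P) :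
    Subgroup.closure (Set.range fun i => j (loops i)) = j.range := by
  apply le_antisymm
  · rw [Subgroup.closure_le]
    rintro _ ⟨i, rfl⟩
    exact ⟨_, rfl⟩
  · rintro _ ⟨w, rfl⟩
    induction w using FreeGroup.induction_on with
    | C1 => simp
    | of i =>
      refine Subgroup.subset_closure ?_
      fin_cases i
      exacts [⟨0, rfl⟩, ⟨1, rfl⟩, ⟨2, rfl⟩]
    | inv_of i h => simpa using h
    | mul x y hx hy => simpa using mul_mem hx hy

lemma FreeData.exists_discrete (h : FreeData j) (ψ : autLac fun i => j (loops i))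
    (hψ : ψ ∈ stab (fun i => j (loops i)) j.range) :
    ∃ β : MulAut F3, ∀ w, j (β w) = ψ.1 (j w) := by
  have key : ∀ φ ∈ stab (fun i => j (loops i)) j.range, ∃ η : F3 →* F3,
      ∀ w, j (η w) = φ.1 (j w) := by
    intro φ hφ
    refine exists_lift_endo j φ.1.toMonoidHom fun w => ?_
    have h1 : j.range.map φ.1.toMonoidHom = j.range := hφ
    rw [← h1]
    exact ⟨j w, ⟨w, rfl⟩, rfl⟩
  obtain ⟨η, h1⟩ := key ψ hψ
  obtain ⟨η', h2⟩ := key ψ⁻¹ (inv_mem hψ)
  refine ⟨MonoidHom.toMulEquiv η η' ?_ ?_, h1⟩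
  · ext1 i
    apply h.injective
    simp [h1, h2]
  · ext1 i
    apply h.injective
    simp [h1, h2]

lemma FreeData.isConj_of_ab3 (h : FreeData j) (ψ : autLac fun i => j (loops i)) (β : MulAut F3)
    (hβ : ∀ w, j (β w) = ψ.1 (j w)) (h3 : ∀ i, ab3 (β (loops i)) = ab3 (loops i)) (i : Fin 4) :
    IsConj (loops i) (β (loops i)) := by
  obtain ⟨-, lam, σ, α, hα⟩ := ψ.2
  have hab : ∀ {H : Type} [CommGroup H] [Finite H] (f : F3 →* H) (N : ℕ+),
      (∀ x : H, x ^ (N : ℕ) = 1) → ∀ i, f (β (loops i)) = f (loops (σ i)) ^ (lam.1.1 N).val := by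
    intro H _ _ f N hN i
    obtain ⟨f', o, hf⟩ := h.ext_fin f
    have := (hα i).eq_of_open f' o N (hN _)
    rw [← hβ, _root_.map_mul, _root_.map_mul, _root_.map_inv, inv_mul_cancel_comm, hf, hf] at this
    exact this
  have h4 : ∀ i, σ i = i ∧ lam.1.1 3 = 1 := fun i =>
    ab3_key i (σ i) _ ((h3 i).symm.trans (hab ab3 3 (by decide) i))
  let e : F3 →* Multiplicative ℤ := FreeGroup.lift fun _ => Multiplicative.ofAdd 1
  have h5 : ∀ N : ℕ+, (((e (β (of 0))).toAdd : ℤ) : ZMod N) = lam.1.1 N := by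
    intro N
    have := hab ((Int.castAddHom (ZMod N)).toMultiplicative.comp e) N (fun x => by
      rw [← ofAdd_toAdd x, ← ofAdd_nsmul, nsmul_eq_mul, ZMod.natCast_self, zero_mul, ofAdd_zero]) 0
    rw [(h4 0).1] at this
    simpa [e] using congrArg Multiplicative.toAdd this
  have h6 : (e (β (of 0))).toAdd = 1 := by
    refine int_eq_one (fun N => ?_) ((h5 3).trans (h4 0).2)
    rw [h5]
    exact IsUnit.of_mul_eq_one (lam⁻¹.1.1 N) (congrFun (congrArg Subtype.val lam.mul_inv) N)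
  have h7 : lam.1 = 1 := Subtype.ext (funext fun N => by rw [← h5, h6]; simp)
  have h8 : IsConj (j (loops i)) (j (β (loops i))) := by
    have := hα i
    rw [h7, (h4 i).1] at this
    rw [hβ]
    refine isConj_iff.mpr ⟨α i, ?_⟩
    have h9 : (α i)⁻¹ * ψ.1 (j (loops i)) * α i = j (loops i) := this.eq_of_one
    conv_lhs => rw [← h9]
    simp [mul_assoc]
  fin_cases i
  · exact h.isConj 1 0 h8
  · exact h.isConj 1 1 h8
  · exact h.isConj 1 2 h8
  · have := h.isConj lastAut 2 (w := β (loops 3)) (by rw [lastAut_2]; exact h8)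
    rwa [lastAut_2] at this

omit [CompactSpace P] [TotallyDisconnectedSpace P] in
lemma gam_transfer (hj : DenseRange j) {ρ : F3 →* G7} {ρ' : P →* G7} {U : OpenNormalSubgroup P}
    {i : Fin 3} (o : IsOpen (ρ'.ker : Set P)) (e : ∀ w, ρ' (j w) = ρ w)
    (hU : ∀ x y, x⁻¹ * y ∈ U → ρ' x = ρ' y)
    (hl : ∀ A A', (A * j (of i) * A⁻¹)⁻¹ * (A' * j (of i) * A'⁻¹) ∈ U → ρ' A = ρ' A')
    {θ : MulAut P} (hc : Continuous θ) (hθ : IsConj (j (of i)) (θ (j (of i)))) {β : MulAut F3}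
    (hβ : ∀ w, (θ (j w))⁻¹ * j (β w) ∈ U) {γ : G7} (hγ : Gam ρ (of i) β γ) :
    Gam ρ' (j (of i)) θ γ := by
  obtain ⟨A, d, h1, h2, rfl⟩ := hγ
  obtain ⟨B, hB⟩ := isConj_iff.mp hθ
  refine ⟨B, d, hB.symm, fun w => ?_, ?_⟩
  · have := hom_eq_of_dense hj (f := ρ'.comp θ.toMonoidHom)
      (g := (MulAut.conj d).toMonoidHom.comp ρ') (o.preimage hc)
      (Subgroup.isOpen_mono (fun x hx => by simpa using hx) o)
      (fun w => by simpa [e, h2] using hU _ _ (hβ w))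
    exact DFunLike.congr_fun this w
  · have h3 := hβ (of i)
    rw [← hB, h1, _root_.map_mul, _root_.map_mul, _root_.map_inv] at h3
    rw [hl _ _ h3, e]

theorem FreeData.not_normal (h : FreeData j) :
    ¬ (tPlus (fun i => j (loops i)) j.range).Normal := by
  intro hN
  obtain ⟨ρ1, U1, o1, e1, hU1, hl1⟩ := h.exists_lamp rho1 0 rho1_0
  obtain ⟨ρ3, U3, o3, e3, hU3, hl3⟩ := h.exists_lamp rho3 2 rho3_2
  obtain ⟨a3, oa, ea⟩ := h.ext_fin ab3
  obtain ⟨ψ, cψ, a, b, k0, k1, k2, k01, ha, hb, hex⟩ := h.exists_exotic o1 o3 e1 e3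
  obtain ⟨D, cD, hD⟩ := h.exists_aut (j.comp (sig2 ^ 2).toMonoidHom) (by
    intro R _ hR
    have h1 : ∀ w, j ((sig2 ^ 2) w) ∈ R := by
      intro w
      induction w using FreeGroup.induction_on with
      | C1 => simp
      | of i => exact hR i
      | inv_of i h => simpa using h
      | mul x y hx hy => simpa using mul_mem hx hy
    intro i
    have := h1 ((sig2 ^ 2).symm (of i))
    rwa [MulEquiv.apply_symm_apply] at this)
  have d0 : D (j (of 0)) = j (of 0) := by simp [hD, sq]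
  have d1 : D (j (of 1)) = j (of 1) * j (of 2) * j (of 1) * (j (of 1) * j (of 2))⁻¹ := by
    simp [hD, sq, mul_assoc]
  have d2 : D (j (of 2)) = j (of 1) * j (of 2) * (j (of 1))⁻¹ := by simp [hD, sq]
  have cjD : ∀ i, IsConj (j (loops i)) (D (j (loops i))) := by
    intro i
    fin_cases i
    · exact isConj_iff.mpr ⟨1, by simp [d0]⟩
    · exact isConj_iff.mpr ⟨_, d1.symm⟩
    · exact isConj_iff.mpr ⟨_, d2.symm⟩
    · exact isConj_iff.mpr ⟨1, by simp [d0, d1, d2, mul_assoc]⟩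
  have cjψ : ∀ i, IsConj (j (loops i)) (ψ (j (loops i))) := by
    intro i
    fin_cases i
    · exact isConj_iff.mpr ⟨_, k0.symm⟩
    · exact isConj_iff.mpr ⟨_, k1.symm⟩
    · exact isConj_iff.mpr ⟨1, by simp [k2]⟩
    · refine isConj_iff.mpr ⟨1, ?_⟩
      simp only [Fin.reduceFinMk, loops_3, _root_.map_inv, _root_.map_mul, k01, k2]
      simp
  have hchar : ∀ φ : MulAut P, (∀ i, IsConj (j (loops i)) (φ (j (loops i)))) →
      HasChar (fun i => j (loops i)) φ 1 := by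
    intro φ hφ
    choose α hα using fun i => isConj_iff.mp (hφ i)
    exact ⟨1, α, fun i => by simpa [← hα, mul_assoc] using isPow_one (j (loops i))⟩
  let D' : autLac fun i => j (loops i) := ⟨D, cD, 1, hchar D cjD⟩
  let ψ' : autLac fun i => j (loops i) := ⟨ψ, cψ, 1, hchar ψ cjψ⟩
  have hDs : D' ∈ stab (fun i => j (loops i)) j.range := by
    refine le_antisymm ?_ ?_
    · rintro _ ⟨_, ⟨w, rfl⟩, rfl⟩
      exact ⟨_, (hD w).symm⟩
    · rintro _ ⟨w, rfl⟩
      exact ⟨j ((sig2 ^ 2).symm w), ⟨_, rfl⟩, (hD _).trans (congrArg j ((sig2 ^ 2).apply_symm_apply w))⟩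
  have hDt : QuotientGroup.mk' _ D' ∈ tPlus (fun i => j (loops i)) j.range :=
    ⟨⟨D', fun U => ⟨D', hDs, fun x => by simp⟩, rfl⟩, ⟨D', hchar D cjD, rfl⟩⟩
  obtain ⟨θ, hθ, hθ'⟩ := (hN.conj_mem _ hDt (QuotientGroup.mk' _ ψ')).1
  rw [← _root_.map_inv, ← _root_.map_mul, ← _root_.map_mul] at hθ'
  obtain ⟨g, hg⟩ := QuotientGroup.eq.mp hθ'
  have hη : ψ * D * ψ⁻¹ = θ.1 * MulAut.conj g := by
    rw [hg]
    simp [D', ψ']
  have cjθ : ∀ i, IsConj (j (loops i)) (θ.1 (j (loops i))) := by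
    intro i
    have h1 : IsConj (j (loops i)) (ψ⁻¹ (j (loops i))) := by
      simpa using ((ψ⁻¹ : MulAut P).toMonoidHom.map_isConj (cjψ i)).symm
    have h2 : IsConj (j (loops i)) ((ψ * D * ψ⁻¹) (j (loops i))) :=
      (cjψ i).trans (ψ.toMonoidHom.map_isConj ((cjD i).trans (D.toMonoidHom.map_isConj h1)))
    rw [hη] at h2
    exact h2.trans (θ.1.toMonoidHom.map_isConj (isConj_iff.mpr ⟨g, rfl⟩)).symm
  obtain ⟨φ, hφ, hφ'⟩ := hθ (U1 ⊓ U3 ⊓ kerOpen a3 oa)
  obtain ⟨β, hβ⟩ := h.exists_discrete φ hφ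
  have hβ' : ∀ w, (θ.1 (j w))⁻¹ * j (β w) ∈ U1 ⊓ U3 ⊓ kerOpen a3 oa := fun w => hβ w ▸ hφ' _
  obtain ⟨γ, g1, g3⟩ := mem_agree_of_conj β (h.isConj_of_ab3 φ β hβ fun i => by
    rw [← ea, ← ea, ← eq_of_mem_kerOpen (hβ' _).2]
    exact (isConj_iff_eq.mp (a3.map_isConj (cjθ i))).symm)
  have g1' := (gam_transfer h.dense o1 e1 hU1 hl1 θ.2.1 (cjθ 0) (fun w => (hβ' w).1.1) g1).mul
    (Gam.inner ρ1 _ g)
  have g3' := (gam_transfer h.dense o3 e3 hU3 hl3 θ.2.1 (cjθ 2) (fun w => (hβ' w).1.2) g3).mul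
    (Gam.inner ρ3 _ g)
  rw [← hη, mul_one] at g1' g3'
  -- direct computation of the two invariants
  have comm : ∀ z ∈ Subgroup.zpowers (X7 * Y7), z * (X7 * Y7) * z⁻¹ = X7 * Y7 := by
    rintro _ ⟨n, rfl⟩
    exact mul_inv_eq_iff_eq_mul.mpr (Commute.zpow_self _ n)
  have f1 : Gam ρ1 (j (of 0)) ψ (ρ1 a)⁻¹ := by
    refine ⟨a, 1, k0, fun w => ?_, by simp⟩
    have := hom_eq_of_dense h.dense (f := ρ1.comp ψ.toMonoidHom) (g := ρ1) (o1.preimage cψ) o1
      (hom3_ext (f := (ρ1.comp ψ.toMonoidHom).comp j) (g := ρ1.comp j) (by simp [k0, e1])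
        (by
          have := congrArg Inv.inv (comm _ hb)
          simpa [k1, e1, mul_assoc] using this) (by simp [k2]))
    simpa using DFunLike.congr_fun this w
  have f2 : Gam ρ1 (j (of 0)) D Y7⁻¹ := by
    refine ⟨1, Y7⁻¹, by simp [d0], fun w => ?_, by simp⟩
    have := hom_eq_of_dense h.dense (f := ρ1.comp D.toMonoidHom)
      (g := (MulAut.conj Y7⁻¹).toMonoidHom.comp ρ1) (o1.preimage cD)
      (Subgroup.isOpen_mono (fun x hx => by simpa using hx) o1)
      (hom3_ext (f := (ρ1.comp D.toMonoidHom).comp j)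
        (g := ((MulAut.conj Y7⁻¹).toMonoidHom.comp ρ1).comp j) (by simp [d0, e1])
        (by simp [d1, e1, mul_assoc]) (by simp [d2, e1, mul_assoc]))
    exact DFunLike.congr_fun this w
  have f3 : Gam ρ3 (j (of 2)) (ψ * D * ψ⁻¹) (ρ3 (ψ (j (of 1))))⁻¹ := by
    have h1 : ψ⁻¹ (j (of 2)) = j (of 2) := by
      conv_lhs => rw [← k2]
      simp
    refine ⟨ψ (j (of 1)), 1, by simp [h1, d2, k2], fun w => ?_, by simp⟩
    have := hom_eq_of_dense h.dense (f := (ρ3.comp ψ.toMonoidHom).comp D.toMonoidHom)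
      (g := ρ3.comp ψ.toMonoidHom) ((o3.preimage cψ).preimage cD) (o3.preimage cψ)
      (hom3_ext (f := ((ρ3.comp ψ.toMonoidHom).comp D.toMonoidHom).comp j)
        (g := (ρ3.comp ψ.toMonoidHom).comp j) (by simp [d0])
        (by simp [d1, k2, e3]) (by simp [d2, k2, e3]))
    simpa using DFunLike.congr_fun this (ψ⁻¹ w)
  have u1 := Gam.unique ⟨j (of 2), by simp [e1]⟩ ⟨(j (of 1) * j (of 2))⁻¹, by simp [e1]⟩
    (fun A A' hA => hl1 A A' (by rw [hA, inv_mul_cancel]; exact one_mem _)) ((f1.mul f2).mul f1.inv) g1'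
  have u3 := Gam.unique ⟨j (of 0), by simp [e3]⟩ ⟨j (of 1), by simp [e3]⟩
    (fun A A' hA => hl3 A A' (by rw [hA, inv_mul_cancel]; exact one_mem _)) g3' f3
  set α := (ρ1 a)⁻¹ with hα
  have hY : ρ3 (ψ (j (of 1))) = α * Y7 * α⁻¹ := by
    have t1 : tr7 (ρ3 (ψ (j (of 1)))) = 3 := by
      rw [k1, _root_.map_mul, _root_.map_mul, _root_.map_inv, tr7_conj, e3, rho3_1, tr_Y]
    have t2 : ρ3 (ψ (j (of 1))) ≠ α * Y7 * α⁻¹ * (-1) := by
      intro h1
      rw [h1, tr7_neg, tr7_conj, tr_Y] at t1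
      revert t1
      decide
    rcases u1 with u1 | u1 <;> rcases u3 with u3 | u3 <;> rw [u1, inv_eq_iff_eq_inv] at u3
    · simpa [mul_assoc] using u3
    · exact absurd (by simpa [mul_assoc] using u3) t2
    · exact absurd (by simpa [mul_assoc] using u3) t2
    · simpa [mul_assoc] using u3
  refine hex ⟨α, ?_, hY⟩
  have h1 : ρ3 (ψ (j (of 0))) * ρ3 (ψ (j (of 1))) = X7 * Y7 := by
    rw [← _root_.map_mul, k01, _root_.map_mul, e3, e3, rho3_0, rho3_1]
  rw [hY, ← comm α (inv_mem ha), ← eq_mul_inv_iff_mul_eq] at h1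
  rw [h1]
  simp [mul_assoc]

end Pool.Agent.MP_07c73e_al.H96
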