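import Pool.Agent.MP_07c73e_al.H96.Poincare

/-!
Galois conjugation of finite quotients of the modular group.
-/

namespace Pool.Agent.MP_07c73e_al.H96

open Complex
open scoped MatrixGroups Real

lemma exists_aut_of_minpoly_eq {F E : Type} [Field F] [Field E] [Algebra F E] [IsAlgClosed E]
    [CharZero F] {x y : E} (hx : IsIntegral F x) (hy : IsIntegral F y)
    (hxy : minpoly F y = minpoly F x) : ∃ σ : E ≃+* E, σ x = y := by
  let K := algebraicClosure F E
  have hxK : x ∈ K := mem_algebraicClosure_iff'.mpr hx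
  have hyK : y ∈ K := mem_algebraicClosure_iff'.mpr hy
  have hconj : IsConjRoot F (⟨y, hyK⟩ : K) ⟨x, hxK⟩ := by
    rw [← isConjRoot_algHom_iff_of_injective (f := K.val) Subtype.val_injective, isConjRoot_def]
    exact hxy
  obtain ⟨τ, hτ⟩ := hconj.exists_algEquiv
  obtain ⟨s, hs⟩ := exists_isTranscendenceBasis K E
  have := IsAlgClosed.isAlgClosure_of_transcendence_basis _ hs
  let e := hs.1.aevalEquiv
  let S := Algebra.adjoin K (Set.range (Subtype.val : s → E))
  let φ : S ≃+* S := (e.symm.toRingEquiv.trans (MvPolynomial.mapEquiv s τ.toRingEquiv)).trans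
    e.toRingEquiv
  have hφ : ∀ z : K, φ (algebraMap K S z) = algebraMap K S (τ z) := by
    intro z
    have h1 : e.symm (algebraMap K S z) = MvPolynomial.C z := e.symm.commutes z
    have h2 : e (MvPolynomial.C (τ z)) = algebraMap K S (τ z) := e.commutes (τ z)
    change e (MvPolynomial.mapEquiv s τ.toRingEquiv (e.symm (algebraMap K S z))) = _
    rw [h1, ← h2]
    simp
  refine ⟨IsAlgClosure.equivOfEquiv E E φ, ?_⟩
  have h3 := IsAlgClosure.equivOfEquiv_algebraMap E E φ (algebraMap K S ⟨x, hxK⟩)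
  rw [hφ, hτ] at h3
  exact h3

lemma exists_aut_complex {N : ℕ} (hN : 0 < N) {x y : ℂ} (hx : IsPrimitiveRoot x N)
    (hy : IsPrimitiveRoot y N) : ∃ σ : ℂ ≃+* ℂ, σ x = y :=
  exists_aut_of_minpoly_eq (F := ℚ) (hx.isIntegral hN).tower_top (hy.isIntegral hN).tower_top (by
    rw [← Polynomial.cyclotomic_eq_minpoly_rat hx hN, ← Polynomial.cyclotomic_eq_minpoly_rat hy hN])

/-- If a finite group is a quotient of `PSL(2, ℤ)` and `m` is prime to the order of the image `t`
of `T`, then the group is also a quotient of `PSL(2, ℤ)` in such a way that `T` goes to `t ^ m`. -/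
theorem galois_twist {G : Type} [Group G] [Finite G] (p : SL(2, ℤ) →* G)
    (hp : Function.Surjective p) (hneg : p (-1) = 1) (m : ℕ)
    (hm : m.Coprime (orderOf (p ModularGroup.T))) :
    ∃ p' : SL(2, ℤ) →* G, Function.Surjective p' ∧ p' (-1) = 1 ∧
      p' ModularGroup.T = p ModularGroup.T ^ m := by
  have := Fintype.ofFinite G
  obtain ⟨k, F, a, hk, hrep, hvv, hinj⟩ := exists_vv p hp hneg
  set N := orderOf (p ModularGroup.T)
  have hN : 0 < N := orderOf_pos _
  have hζ : IsPrimitiveRoot (cexp (2 * π * I / (N : ℝ))) N := by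
    simpa using Complex.isPrimitiveRoot_exp N hN.ne'
  obtain ⟨σ, hσ⟩ := exists_aut_complex hN (hζ.pow_of_coprime m hm) hζ
  exact twist_of_vv hN hp (slash_neg_one hk) hrep hvv hinj σ m hσ

end Pool.Agent.MP_07c73e_al.H96
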