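import Pool.Agent.MP_07c73e_al.H96.Profinite

/-!
The invariant that compares the two forgetful maps on the pure braid group.
-/

namespace Pool.Agent.MP_07c73e_al.H96

open FreeGroup

section generic

variable {Γ : Type} [Group Γ]

/-- `θ` conjugates the loop `x` by `A`, acts through `ρ` as conjugation by `d`, and
`γ = (ρ A)⁻¹ * d`. -/
def Gam (ρ : Γ →* G7) (x : Γ) (θ : MulAut Γ) (γ : G7) : Prop :=
  ∃ (A : Γ) (d : G7), θ x = A * x * A⁻¹ ∧ (∀ w, ρ (θ w) = d * ρ w * d⁻¹) ∧ γ = (ρ A)⁻¹ * d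

variable {ρ : Γ →* G7} {x : Γ} {θ θ' : MulAut Γ} {γ γ' : G7}

lemma Gam.mul (h : Gam ρ x θ γ) (h' : Gam ρ x θ' γ') : Gam ρ x (θ * θ') (γ * γ') := by
  obtain ⟨A, d, h1, h2, rfl⟩ := h
  obtain ⟨A', d', h1', h2', rfl⟩ := h'
  refine ⟨θ A' * A, d * d', ?_, fun w => ?_, ?_⟩
  · simp [h1, h1', mul_assoc]
  · simp [h2, h2', mul_assoc]
  · simp [h2, mul_assoc]

lemma Gam.inv (h : Gam ρ x θ γ) : Gam ρ x θ⁻¹ γ⁻¹ := by
  obtain ⟨A, d, h1, h2, rfl⟩ := h
  have h3 : ∀ w, ρ (θ⁻¹ w) = d⁻¹ * ρ w * d⁻¹⁻¹ := fun w => by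
    have := h2 (θ⁻¹ w)
    rw [MulAut.apply_inv_self] at this
    simp [this, mul_assoc]
  refine ⟨(θ⁻¹ A)⁻¹, d⁻¹, ?_, h3, ?_⟩
  · have := congrArg (θ⁻¹ : MulAut Γ) h1
    rw [MulAut.inv_apply_self, _root_.map_mul, _root_.map_mul, _root_.map_inv] at this
    conv_rhs => rw [this]
    simp [mul_assoc]
  · rw [_root_.map_inv, h3]
    simp [mul_assoc]

lemma Gam.inner (ρ : Γ →* G7) (x g : Γ) : Gam ρ x (MulAut.conj g) 1 :=
  ⟨g, ρ g, by simp, fun w => by simp, by simp⟩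

/-- The two invariants agree. -/
def Agree (ρ ρ' : Γ →* G7) (x x' : Γ) : Subgroup (MulAut Γ) where
  carrier := {θ | ∃ γ, Gam ρ x θ γ ∧ Gam ρ' x' θ γ}
  one_mem' := ⟨1, by simpa using Gam.inner ρ x 1, by simpa using Gam.inner ρ' x' 1⟩
  mul_mem' := fun ⟨_, h1, h2⟩ ⟨_, h3, h4⟩ => ⟨_, h1.mul h3, h2.mul h4⟩
  inv_mem' := fun ⟨_, h1, h2⟩ => ⟨_, h1.inv, h2.inv⟩

lemma conj_mem_agree (ρ ρ' : Γ →* G7) (x x' g : Γ) : MulAut.conj g ∈ Agree ρ ρ' x x' :=
  ⟨1, Gam.inner ρ x g, Gam.inner ρ' x' g⟩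

lemma Gam.unique (hX : X7 ∈ ρ.range) (hY : Y7 ∈ ρ.range)
    (hl : ∀ A A', A * x * A⁻¹ = A' * x * A'⁻¹ → ρ A = ρ A') (h : Gam ρ x θ γ)
    (h' : Gam ρ x θ γ') : γ' = γ ∨ γ' = γ * (-1) := by
  obtain ⟨A, d, h1, h2, rfl⟩ := h
  obtain ⟨A', d', h1', h2', rfl⟩ := h'
  have h3 : ∀ z ∈ ρ.range, d⁻¹ * d' * z = z * (d⁻¹ * d') := by
    rintro _ ⟨w, rfl⟩
    have := (h2 w).symm.trans (h2' w)
    rw [mul_assoc, inv_mul_eq_iff_eq_mul, ← mul_assoc, ← mul_assoc, this]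
    simp [mul_assoc]
  rw [← hl A A' (h1.symm.trans h1')]
  rcases cent7 (h3 _ hX) (h3 _ hY) with h4 | h4
  · left
    rw [inv_mul_eq_one.mp h4]
  · right
    rw [mul_assoc, ← h4]
    simp

end generic

lemma hom3_ext {H : Type} [Group H] {f g : F3 →* H} (h0 : f (of 0) = g (of 0))
    (h1 : f (of 1) = g (of 1)) (h2 : f (of 2) = g (of 2)) (w : F3) : f w = g w := by
  have : f = g := by
    ext1 i
    fin_cases i
    exacts [h0, h1, h2]
  rw [this]

lemma pure_le_agree : pureSub sig1 sig2 ≤ Agree rho1 rho3 (of 0) (of 2) := by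
  rw [pureSub, Subgroup.closure_le]
  rintro _ (rfl | rfl | rfl)
  · refine ⟨X7 * Y7, ⟨of 0 * of 1, 1, by simp [sq, mul_assoc], fun w => ?_, by simp⟩,
      ⟨1, X7 * Y7, by simp [sq], fun w => ?_, by simp⟩⟩
    · exact hom3_ext (f := rho1.comp (sig1 ^ 2).toMonoidHom)
        (g := (MulAut.conj 1).toMonoidHom.comp rho1) (by simp [sq]) (by simp [sq]) (by simp [sq]) w
    · exact hom3_ext (f := rho3.comp (sig1 ^ 2).toMonoidHom)
        (g := (MulAut.conj (X7 * Y7)).toMonoidHom.comp rho3) (by simp [sq, mul_assoc])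
        (by simp [sq, mul_assoc]) (by simp [sq]) w
  · refine ⟨Y7⁻¹, ⟨1, Y7⁻¹, by simp [sq], fun w => ?_, by simp⟩,
      ⟨of 1, 1, by simp [sq], fun w => ?_, by simp⟩⟩
    · exact hom3_ext (f := rho1.comp (sig2 ^ 2).toMonoidHom)
        (g := (MulAut.conj Y7⁻¹).toMonoidHom.comp rho1) (by simp [sq]) (by simp [sq, mul_assoc])
        (by simp [sq, mul_assoc]) w
    · exact hom3_ext (f := rho3.comp (sig2 ^ 2).toMonoidHom)
        (g := (MulAut.conj 1).toMonoidHom.comp rho3) (by simp [sq]) (by simp [sq]) (by simp [sq]) w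
  · rw [sig_cube]
    exact conj_mem_agree _ _ _ _ _

/-- The four loops in the free group of rank three. -/
def loops : Fin 4 → F3 := ![of 0, of 1, of 2, (of 0 * of 1 * of 2)⁻¹]

@[simp] lemma loops_0 : loops 0 = of 0 := rfl
@[simp] lemma loops_1 : loops 1 = of 1 := rfl
@[simp] lemma loops_2 : loops 2 = of 2 := rfl
@[simp] lemma loops_3 : loops 3 = (of 0 * of 1 * of 2)⁻¹ := rfl

/-- An automorphism that sends the third generator to the fourth loop. -/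
def lastAut : MulAut F3 :=
  MonoidHom.toMulEquiv (FreeGroup.lift ![of 0, of 1, (of 0 * of 1 * of 2)⁻¹])
    (FreeGroup.lift ![of 0, of 1, (of 2 * of 0 * of 1)⁻¹])
    (by ext i; fin_cases i <;> simp [mul_assoc]) (by ext i; fin_cases i <;> simp [mul_assoc])

lemma lastAut_2 : lastAut (of 2) = loops 3 := by simp [lastAut]

lemma mem_agree_of_conj (β : MulAut F3) (h : ∀ i, IsConj (loops i) (β (loops i))) :
    β ∈ Agree rho1 rho3 (of 0) (of 2) := by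
  obtain ⟨c, hc⟩ := isConj_iff.mp (h 3)
  have h1 : MulAut.conj c⁻¹ * β ∈ pureSub sig1 sig2 := by
    refine mem_pure_of_conj _ (fun i => ?_) ?_
    · have h2 : IsConj (of i) (β (of i)) := by
        fin_cases i
        exacts [h 0, h 1, h 2]
      exact h2.trans (isConj_iff.mpr ⟨c⁻¹, by simp⟩)
    · rw [loops_3, _root_.map_inv] at hc
      have h3 : β (of 0 * of 1 * of 2) = c * (of 0 * of 1 * of 2) * c⁻¹ := by
        rw [← inv_inj, ← hc]
        simp [mul_assoc]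
      rw [MulAut.mul_apply, h3]
      simp [mul_assoc]
  have h4 := mul_mem (conj_mem_agree rho1 rho3 (of 0) (of 2) c) (pure_le_agree h1)
  rwa [← mul_assoc, ← _root_.map_mul, mul_inv_cancel, _root_.map_one, one_mul] at h4

end Pool.Agent.MP_07c73e_al.H96
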