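import Pool.Agent.MP_07c73e_al.H96.Series

/-!
Level one modular forms, seen through their expansions: they are polynomials in `E₄` and `E₆`,
so that their expansions are stable under field endomorphisms of `ℂ`.
-/

namespace Pool.Agent.MP_07c73e_al.H96

open UpperHalfPlane hiding I
open PowerSeries Complex Function Filter Topology
open scoped Manifold MatrixGroups ModularForm Real

/-- Invariance under the weight `k` action of the modular group. -/
def Inv (k : ℤ) (f : ℍ → ℂ) : Prop := ∀ γ : SL(2, ℤ), f ∣[k] γ = f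

variable {k l : ℤ} {f g : ℍ → ℂ}

lemma Inv.mul (hf : Inv k f) (hg : Inv l g) : Inv (k + l) (f * g) := fun γ => by
  rw [ModularForm.mul_slash_SL2, hf γ, hg γ]

lemma Inv.one : Inv 0 1 := fun γ => ModularForm.is_invariant_one γ

lemma Inv.pow (hf : Inv k f) (n : ℕ) : Inv (n * k) (f ^ n) := by
  induction n with
  | zero => simpa using Inv.one
  | succ n ih =>
    have := ih.mul hf
    rw [pow_succ]
    convert this using 1
    push_cast
    ring

lemma Inv.add (hf : Inv k f) (hg : Inv k g) : Inv k (f + g) := fun γ => by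
  rw [SlashAction.add_slash, hf γ, hg γ]

lemma Inv.smul (c : ℂ) (hf : Inv k f) : Inv k (c • f) := fun γ => by
  rw [ModularForm.SL_smul_slash, hf γ]

lemma Inv.zero : Inv k 0 := fun γ => SlashAction.zero_slash k γ

lemma Inv.sub (hf : Inv k f) (hg : Inv k g) : Inv k (f - g) := by
  have := hf.add (hg.smul (-1))
  simpa [sub_eq_add_neg] using this

lemma inv_of_form (F : ModularForm 𝒮ℒ k) : Inv k F := fun γ => F.slash_action_eq' _ ⟨γ, rfl⟩

/-- A level one modular form built from a function. -/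
noncomputable def mkForm (hf : Inv k f) (hhol : MDiff f) (hbdd : IsBoundedAtImInfty f) :
    ModularForm 𝒮ℒ k where
  toFun := f
  slash_action_eq' := fun _ ⟨γ, hγ⟩ => hγ ▸ hf γ
  holo' := hhol
  bdd_at_cusps' {c} hc := by
    rw [Subgroup.IsArithmetic.isCusp_iff_isCusp_SL2Z] at hc
    rw [OnePoint.isBoundedAt_iff_forall_SL2Z hc]
    intro γ _
    rw [hf γ]
    exact hbdd

lemma rep_form (F : ModularForm 𝒮ℒ k) : Rep 1 (qExpansion 1 F) F := fun τ => by
  simpa using ModularForm.hasSum_qExpansion F one_pos one_mem_strictPeriods_SL τ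

/-- The monomials of weight `k` in `E₄` and `E₆`. -/
def monoF (k : ℤ) : Set (ℍ → ℂ) :=
  {f | ∃ i j : ℕ, (4 * i + 6 * j : ℤ) = k ∧
    f = (ModularForm.E₄ : ℍ → ℂ) ^ i * (ModularForm.E₆ : ℍ → ℂ) ^ j}

lemma inv_mono {i j : ℕ} (hk : (4 * i + 6 * j : ℤ) = k) :
    Inv k ((ModularForm.E₄ : ℍ → ℂ) ^ i * (ModularForm.E₆ : ℍ → ℂ) ^ j) := by
  have := ((inv_of_form ModularForm.E₄).pow i).mul ((inv_of_form ModularForm.E₆).pow j)
  convert this using 1
  rw [← hk]
  ring

lemma mul_mem_span_mono {i j : ℕ} (hf : f ∈ Submodule.span ℂ (monoF k)) :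
    (ModularForm.E₄ : ℍ → ℂ) ^ i * (ModularForm.E₆ : ℍ → ℂ) ^ j * f ∈
      Submodule.span ℂ (monoF (k + (4 * i + 6 * j))) := by
  induction hf using Submodule.span_induction with
  | mem x hx =>
    obtain ⟨i', j', h1, rfl⟩ := hx
    refine Submodule.subset_span ⟨i + i', j + j', ?_, ?_⟩
    · rw [← h1]; push_cast; ring
    · rw [pow_add, pow_add]; ring
  | zero => simp
  | add x y _ _ hx hy => rw [mul_add]; exact Submodule.add_mem _ hx hy
  | smul c x _ hx => rw [mul_smul_comm]; exact Submodule.smul_mem _ c hx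

theorem form_mem_span (k : ℤ) (F : ModularForm 𝒮ℒ k) :
    (F : ℍ → ℂ) ∈ Submodule.span ℂ (monoF k) := by
  induction hn : k.toNat using Nat.strong_induction_on generalizing k with
  | _ n ih =>
    by_cases hneg : k < 0
    · rw [ModularFormClass.levelOne_neg_weight_eq_zero hneg F]
      exact Submodule.zero_mem _
    rcases Int.even_or_odd k with hev | hodd
    swap
    · rw [ModularForm.levelOne_odd_weight_eq_zero hodd F]
      exact Submodule.zero_mem _
    by_cases h2 : k = 2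
    · subst h2
      have := rank_zero_iff_forall_zero.mp ModularForm.levelOne_weight_two_rank_zero F
      rw [this]
      exact Submodule.zero_mem _
    obtain ⟨i, j, hij⟩ : ∃ i j : ℕ, (4 * i + 6 * j : ℤ) = k := by
      obtain ⟨m, hm⟩ := hev
      rcases Int.even_or_odd m with ⟨r, hr⟩ | ⟨r, hr⟩
      · exact ⟨r.toNat, 0, by omega⟩
      · exact ⟨(r - 1).toNat, 1, by omega⟩
    set M : ℍ → ℂ := (ModularForm.E₄ : ℍ → ℂ) ^ i * (ModularForm.E₆ : ℍ → ℂ) ^ j with hM
    set c := (qExpansion 1 F).coeff 0 with hc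
    have hrepM : Rep 1 (qExpansion 1 ModularForm.E₄ ^ i * qExpansion 1 ModularForm.E₆ ^ j) M :=
      ((rep_form _).pow one_pos i).mul one_pos ((rep_form _).pow one_pos j)
    have hrep := (rep_form F).sub (hrepM.smul c)
    let G : ModularForm 𝒮ℒ k := mkForm ((inv_of_form F).sub ((inv_mono hij).smul c))
      (hrep.mdiff one_pos) (hrep.bdd one_pos)
    have hG : (G : ℍ → ℂ) = F - c • M := rfl
    have h0 : (qExpansion 1 G).coeff 0 = 0 := by
      rw [hG, ← hrep.eq_qExpansion one_pos]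
      have e4 := EisensteinSeries.E_qExpansion_coeff_zero (k := 4) (by norm_num) ⟨2, rfl⟩
      have e6 := EisensteinSeries.E_qExpansion_coeff_zero (k := 6) (by norm_num) ⟨3, rfl⟩
      simp only [coeff_zero_eq_constantCoeff] at e4 e6 hc
      simp only [coeff_zero_eq_constantCoeff, map_sub, map_smul, map_mul, map_pow]
      erw [e4, e6]
      simp [hc]
    have hdiv := ModularForm.discriminant_mul_discriminantEquiv (ModularForm.toCuspForm G h0)
    set G' := CuspForm.discriminantEquiv (ModularForm.toCuspForm G h0)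
    have hG' : (G' : ℍ → ℂ) ∈ Submodule.span ℂ (monoF (k - 12)) := by
      by_cases hk12 : k - 12 < 0
      · rw [ModularFormClass.levelOne_neg_weight_eq_zero hk12 G']
        exact Submodule.zero_mem _
      · exact ih (k - 12).toNat (by omega) (k - 12) G' rfl
    have h4 := mul_mem_span_mono (i := 3) (j := 0) hG'
    have h6 := mul_mem_span_mono (i := 0) (j := 2) hG'
    rw [show k - 12 + (4 * ((3 : ℕ) : ℤ) + 6 * ((0 : ℕ) : ℤ)) = k by push_cast; ring] at h4
    rw [show k - 12 + (4 * ((0 : ℕ) : ℤ) + 6 * ((2 : ℕ) : ℤ)) = k by push_cast; ring] at h6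
    have hF : (F : ℍ → ℂ) = c • M + (1 / 1728 : ℂ) •
        ((ModularForm.E₄ : ℍ → ℂ) ^ 3 * (ModularForm.E₆ : ℍ → ℂ) ^ 0 * G' -
          (ModularForm.E₄ : ℍ → ℂ) ^ 0 * (ModularForm.E₆ : ℍ → ℂ) ^ 2 * G') := by
      funext τ
      have h1 := congrFun hdiv τ
      have h2 := congrFun hG τ
      simp only [Pi.mul_apply, ModularForm.toCuspForm_apply,
        ModularForm.discriminant_eq_E₄_cube_sub_E₆_sq] at h1
      simp only [Pi.sub_apply, Pi.smul_apply, smul_eq_mul] at h2
      simp only [Pi.add_apply, Pi.smul_apply, Pi.sub_apply, Pi.mul_apply, Pi.pow_apply,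
        smul_eq_mul]
      linear_combination -h2 - h1
    rw [hF]
    exact Submodule.add_mem _ (Submodule.smul_mem _ _ (Submodule.subset_span ⟨i, j, hij, rfl⟩))
      (Submodule.smul_mem _ _ (Submodule.sub_mem _ h4 h6))

/-- The expansion of `E₄` in `exp (2 π i τ / N)`. -/
noncomputable def e4 (N : ℕ) : ℂ⟦X⟧ := expandSer N (qExpansion 1 ModularForm.E₄)

/-- The expansion of `E₆` in `exp (2 π i τ / N)`. -/
noncomputable def e6 (N : ℕ) : ℂ⟦X⟧ := expandSer N (qExpansion 1 ModularForm.E₆)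

/-- The expansion of `E₂` in `exp (2 π i τ / N)`. -/
noncomputable def e2 (N : ℕ) : ℂ⟦X⟧ := expandSer N
  (PowerSeries.mk fun m => if m = 0 then 1 else -24 * ((ArithmeticFunction.sigma 1 m : ℕ) : ℂ))

variable {N : ℕ} {a b : ℂ⟦X⟧}

lemma rep_e4 (hN : 0 < N) : Rep N (e4 N) ModularForm.E₄ := (rep_form _).expand hN

lemma rep_e6 (hN : 0 < N) : Rep N (e6 N) ModularForm.E₆ := (rep_form _).expand hN

lemma rep_e2 (hN : 0 < N) : Rep N (e2 N) EisensteinSeries.E2 := by
  apply Rep.expand hN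
  intro τ
  have := EisensteinSeries.hasSum_qExpansion_E2 τ
  simpa [Periodic.qParam] using this

lemma isRat_E {k : ℕ} (hk : 3 ≤ k) (hk2 : Even k) : IsRatSer (qExpansion 1 (ModularForm.E hk)) := by
  intro n
  rw [EisensteinSeries.E_qExpansion_coeff hk hk2]
  split_ifs
  · exact ⟨1, by simp⟩
  · exact ⟨-(2 * k / bernoulli k) * (ArithmeticFunction.sigma (k - 1) n : ℕ), by push_cast; rfl⟩

lemma isRat_e4 : IsRatSer (e4 N) := (isRat_E (k := 4) (by norm_num) ⟨2, rfl⟩).expand N

lemma isRat_e6 : IsRatSer (e6 N) := (isRat_E (k := 6) (by norm_num) ⟨3, rfl⟩).expand N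

lemma isRat_e2 : IsRatSer (e2 N) := by
  apply IsRatSer.expand
  intro n
  rw [coeff_mk]
  split_ifs
  · exact ⟨1, by simp⟩
  · exact ⟨-24 * (ArithmeticFunction.sigma 1 n : ℕ), by push_cast; rfl⟩

/-- `a` is the expansion of a level one form of weight `k`. -/
def LO (N : ℕ) (k : ℤ) (a : ℂ⟦X⟧) : Prop := ∃ f, Rep N a f ∧ Inv k f

/-- The monomials of weight `k` in the expansions of `E₄` and `E₆`. -/
def monoS (N : ℕ) (k : ℤ) : Set ℂ⟦X⟧ :=
  {a | ∃ i j : ℕ, (4 * i + 6 * j : ℤ) = k ∧ a = e4 N ^ i * e6 N ^ j}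

lemma LO.mem_span (hN : 0 < N) (H : LO N k a) : a ∈ Submodule.span ℂ (monoS N k) := by
  have hN' : (0 : ℝ) < N := by exact_mod_cast hN
  obtain ⟨f, hf, hinv⟩ := H
  have h1 : f ∈ Submodule.span ℂ (monoF k) :=
    form_mem_span k (mkForm hinv (hf.mdiff hN') (hf.bdd hN'))
  have h2 : ∃ b ∈ Submodule.span ℂ (monoS N k), Rep N b f := by
    clear hf hinv
    induction h1 using Submodule.span_induction with
    | mem x hx =>
      obtain ⟨i, j, hij, rfl⟩ := hx
      exact ⟨_, Submodule.subset_span ⟨i, j, hij, rfl⟩,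
        ((rep_e4 hN).pow hN' i).mul hN' ((rep_e6 hN).pow hN' j)⟩
    | zero => exact ⟨0, Submodule.zero_mem _, Rep.zero⟩
    | add x y _ _ hx hy =>
      obtain ⟨b, hb, hb'⟩ := hx
      obtain ⟨c, hc, hc'⟩ := hy
      exact ⟨b + c, Submodule.add_mem _ hb hc, hb'.add hc'⟩
    | smul c x _ hx =>
      obtain ⟨b, hb, hb'⟩ := hx
      exact ⟨c • b, Submodule.smul_mem _ c hb, hb'.smul c⟩
  obtain ⟨b, hb, hb'⟩ := h2
  rwa [hf.unique_ser hN' hb']

lemma LO.map (hN : 0 < N) (H : LO N k a) (σ : ℂ →+* ℂ) : LO N k (PowerSeries.map σ a) := by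
  have hN' : (0 : ℝ) < N := by exact_mod_cast hN
  have h1 := H.mem_span hN
  clear H
  induction h1 using Submodule.span_induction with
  | mem x hx =>
    obtain ⟨i, j, hij, rfl⟩ := hx
    rw [map_mul, map_pow, map_pow, isRat_e4.map_eq, isRat_e6.map_eq]
    exact ⟨_, ((rep_e4 hN).pow hN' i).mul hN' ((rep_e6 hN).pow hN' j), inv_mono hij⟩
  | zero => exact ⟨0, by simpa using Rep.zero, Inv.zero⟩
  | add x y _ _ hx hy =>
    obtain ⟨f, hf, hf'⟩ := hx
    obtain ⟨g, hg, hg'⟩ := hy
    exact ⟨f + g, by simpa using hf.add hg, hf'.add hg'⟩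
  | smul c x _ hx =>
    obtain ⟨f, hf, hf'⟩ := hx
    exact ⟨σ c • f, by rw [map_smul_ser]; exact hf.smul _, hf'.smul _⟩

/-- The algebra generated by the expansions of `E₄` and `E₆`. -/
noncomputable def algA (N : ℕ) : Subalgebra ℂ ℂ⟦X⟧ := Algebra.adjoin ℂ {e4 N, e6 N}

lemma LO.mem_algA (hN : 0 < N) (H : LO N k a) : a ∈ algA N := by
  have h1 := H.mem_span hN
  clear H
  have h4 : e4 N ∈ algA N := Algebra.subset_adjoin (by simp)
  have h6 : e6 N ∈ algA N := Algebra.subset_adjoin (by simp)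
  induction h1 using Submodule.span_induction with
  | mem x hx =>
    obtain ⟨i, j, hij, rfl⟩ := hx
    exact mul_mem (pow_mem h4 i) (pow_mem h6 j)
  | zero => exact zero_mem _
  | add x y _ _ hx hy => exact add_mem hx hy
  | smul c x _ hx => exact Subalgebra.smul_mem _ hx c

lemma conv_map_of_mem_algA (hN : 0 < N) (σ : ℂ →+* ℂ) (H : a ∈ algA N) :
    PowerSeries.map σ a ∈ convRing := by
  have hN' : (0 : ℝ) < N := by exact_mod_cast hN
  induction H using Algebra.adjoin_induction with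
  | mem x hx =>
    rcases hx with rfl | rfl
    · rw [isRat_e4.map_eq]; exact (rep_e4 hN).conv hN'
    · rw [isRat_e6.map_eq]; exact (rep_e6 hN).conv hN'
  | algebraMap r =>
    rw [Algebra.algebraMap_eq_smul_one, map_smul_ser, map_one]
    exact Conv.smul _ convRing.one_mem
  | add x y _ _ hx hy => rw [map_add]; exact add_mem hx hy
  | mul x y _ _ hx hy => rw [map_mul]; exact mul_mem hx hy

lemma isNoetherianRing_algA : IsNoetherianRing (algA N) := by
  have : Algebra.FiniteType ℂ (algA N) := by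
    unfold algA
    exact Algebra.FiniteType.adjoin_of_finite (Set.toFinite _)
  exact Algebra.FiniteType.isNoetherianRing ℂ _

end Pool.Agent.MP_07c73e_al.H96
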