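import Mathlib

/-!
Finite computations in `SL(2, ZMod 7)`.
-/

namespace Pool.Agent.MP_07c73e_al.H96

open scoped MatrixGroups

/-- The finite group used to detect the exotic automorphism. -/
abbrev G7 := SL(2, ZMod 7)

/-- First generator. -/
def X7 : G7 := ⟨!![0, 1; 6, 3], by decide⟩

/-- Second generator. -/
def Y7 : G7 := ⟨!![0, 2; 3, 3], by decide⟩

/-- An element that inverts `X7` and `X7 * Y7`. -/
def R7 : G7 := ⟨!![1, 6; 2, 6], by decide⟩

/-- The trace. -/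
def tr7 (g : G7) : ZMod 7 := g 0 0 + g 1 1

lemma tr7_conj (g x : G7) : tr7 (g * x * g⁻¹) = tr7 x := by
  have h : ∀ y : G7, tr7 y = Matrix.trace (y : Matrix (Fin 2) (Fin 2) (ZMod 7)) := fun y => by
    simp [tr7, Matrix.trace_fin_two]
  rw [h, h, Matrix.SpecialLinearGroup.coe_mul, Matrix.trace_mul_comm,
    ← Matrix.SpecialLinearGroup.coe_mul, inv_mul_cancel_left]

lemma R7_X : R7 * X7 * R7⁻¹ = X7⁻¹ := by decide
lemma R7_Y : R7 * Y7 * R7⁻¹ = X7 * Y7⁻¹ * X7⁻¹ := by decide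
lemma X7_pow : X7 ^ 8 = 1 := by decide
lemma Y7_pow : Y7 ^ 8 = 1 := by decide
lemma XY7_pow : (X7 * Y7) ^ 8 = 1 := by decide
lemma tr_X3 : tr7 (X7 ^ 3) = 4 := by decide
lemma tr_Y3 : tr7 (Y7 ^ 3) = 4 := by decide
lemma tr_Z3 : tr7 ((X7 * Y7)⁻¹ ^ 3) = 4 := by decide
lemma XY7_cube : (X7 * Y7) ^ 3 = ⟨!![0, 3; 2, 4], by decide⟩ := by decide
lemma tr_Y : tr7 Y7 = 3 := by decide

set_option synthInstance.maxSize 4096 in
lemma key7_aux : ∀ a b c d : ZMod 7, a * d - b * c = 1 → a + d = 4 →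
    (d * 0 + -b * 2) + (-c * 3 + a * 4) = 4 → ∀ e f g k : ZMod 7, e * k - f * g = 1 →
    e * 0 + f * 2 = 4 * e + -3 * g → e * 3 + f * 4 = 4 * f + -3 * k →
    e * a + f * c = d * e + -b * g → e * b + f * d = d * f + -b * k → False := by
  decide +kernel

lemma key7 {x J : G7} (h1 : tr7 x = 4) (h2 : tr7 (x⁻¹ * (X7 * Y7) ^ 3) = 4)
    (h3 : J * x * J⁻¹ = x⁻¹) (h4 : J * (X7 * Y7) ^ 3 * J⁻¹ = ((X7 * Y7) ^ 3)⁻¹) : False := by
  rw [mul_inv_eq_iff_eq_mul] at h3 h4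
  rw [XY7_cube] at h2 h4
  have e00 := congrFun (congrFun (congrArg Subtype.val h3) 0) 0
  have e01 := congrFun (congrFun (congrArg Subtype.val h3) 0) 1
  have f00 := congrFun (congrFun (congrArg Subtype.val h4) 0) 0
  have f01 := congrFun (congrFun (congrArg Subtype.val h4) 0) 1
  have hx := x.det_coe
  have hJ := J.det_coe
  rw [Matrix.det_fin_two] at hx hJ
  simp only [tr7, Matrix.SpecialLinearGroup.coe_mul, Matrix.mul_apply, Fin.sum_univ_two,
    Matrix.SpecialLinearGroup.coe_inv, Matrix.adjugate_fin_two, Matrix.of_apply, Matrix.cons_val',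
    Matrix.cons_val_zero, Matrix.cons_val_one, Matrix.cons_val_fin_one] at e00 e01 f00 f01 h1 h2
  exact key7_aux _ _ _ _ hx h1 h2 _ _ _ _ hJ f00 f01 e00 e01

lemma cent7_aux : ∀ e f g k : ZMod 7, e * k - f * g = 1 →
    e * 0 + f * 6 = 0 * e + 1 * g → e * 1 + f * 3 = 0 * f + 1 * k →
    e * 0 + f * 3 = 0 * e + 2 * g →
    (e = 1 ∧ f = 0 ∧ g = 0 ∧ k = 1) ∨ (e = -1 ∧ f = 0 ∧ g = 0 ∧ k = -1) := by
  decide +kernel

lemma cent7 {z : G7} (h1 : z * X7 = X7 * z) (h2 : z * Y7 = Y7 * z) : z = 1 ∨ z = -1 := by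
  have e00 := congrFun (congrFun (congrArg Subtype.val h1) 0) 0
  have e01 := congrFun (congrFun (congrArg Subtype.val h1) 0) 1
  have f00 := congrFun (congrFun (congrArg Subtype.val h2) 0) 0
  have hz := z.det_coe
  rw [Matrix.det_fin_two] at hz
  simp only [X7, Y7, Matrix.SpecialLinearGroup.coe_mul, Matrix.mul_apply, Fin.sum_univ_two,
    Matrix.of_apply, Matrix.cons_val',
    Matrix.cons_val_zero, Matrix.cons_val_one, Matrix.cons_val_fin_one] at e00 e01 f00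
  rcases cent7_aux _ _ _ _ hz e00 e01 f00 with ⟨a, b, c, d⟩ | ⟨a, b, c, d⟩
  · left
    ext i j
    fin_cases i <;> fin_cases j <;> simp [a, b, c, d]
  · right
    ext i j
    fin_cases i <;> fin_cases j <;> simp [a, b, c, d]

lemma tr7_neg (x : G7) : tr7 (x * (-1)) = - tr7 x := by
  simp [tr7, add_comm]

end Pool.Agent.MP_07c73e_al.H96
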