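import Pool.Agent.MP_07c73e_al.H96.Galois
import Pool.Agent.MP_07c73e_al.H96.Braid
import Pool.Agent.MP_07c73e_al.H96.Seven

/-!
The free subgroup of index six of the modular group, characteristic finite quotients, and the
finite level form of an exotic automorphism of the free profinite group of rank two.
-/

namespace Pool.Agent.MP_07c73e_al.H96

open UpperHalfPlane ModularGroup FreeGroup
open scoped MatrixGroups Pointwise

/-- The free group of rank two. -/
abbrev F2 := FreeGroup (Fin 2)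

/-- The matrix `S T S⁻¹`. -/
def Vm : SL(2, ℤ) := S * T * S⁻¹

lemma TV_braid : T * Vm * T = Vm * T * Vm := by decide

lemma TV_cube : (T * Vm) ^ 3 = -1 := by decide

lemma TVT : T * Vm * T = S⁻¹ := by decide

lemma S_sq : S * S = -1 := by decide

lemma closure_TV : Subgroup.closure {T, Vm} = ⊤ := by
  rw [eq_top_iff, ← SpecialLinearGroup.SL2Z_generators, Subgroup.closure_le]
  have hT : T ∈ Subgroup.closure {T, Vm} := Subgroup.subset_closure (by simp)
  have hV : Vm ∈ Subgroup.closure {T, Vm} := Subgroup.subset_closure (by simp)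
  rintro x (rfl | rfl)
  · have := inv_mem (mul_mem (mul_mem hT hV) hT)
    rwa [TVT, inv_inv] at this
  · exact hT

/-- The map of the free group of rank two to the modular group. -/
def iota : F2 →* SL(2, ℤ) := FreeGroup.lift ![Vm ^ 2, T * Vm ^ 2 * T⁻¹]

@[simp] lemma iota_0 : iota (of 0) = Vm ^ 2 := by simp [iota]
@[simp] lemma iota_1 : iota (of 1) = T * Vm ^ 2 * T⁻¹ := by simp [iota]

lemma iota_01 : iota (of 0 * of 1) = -1 * (T ^ 2)⁻¹ := by
  rw [_root_.map_mul, iota_0, iota_1]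
  decide

lemma re_S_smul (z : ℍ) : (S • z).re = -z.re / Complex.normSq z := by
  rw [modular_S_smul]
  change ((-z : ℂ)⁻¹).re = _
  simp [Complex.inv_re, neg_div]

lemma pingpong : Function.Injective
    (FreeGroup.lift ![MulAction.toPermHom SL(2, ℤ) ℍ (T ^ 2),
      MulAction.toPermHom SL(2, ℤ) ℍ (Vm ^ 2)]) := by
  have hn : ∀ z : ℍ, z.re ^ 2 < Complex.normSq z := fun z => by
    have := z.im_pos
    rw [Complex.normSq_apply, coe_re, coe_im]
    nlinarith
  have hn0 : ∀ z : ℍ, 0 < Complex.normSq z := fun z => (sq_nonneg _).trans_lt (hn z)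
  have hT : ∀ z : ℍ, ((T ^ 2) • z).re = z.re + 2 := fun z => by
    rw [← zpow_natCast, modular_T_zpow_smul]; simp [add_comm]
  have hT' : ∀ z : ℍ, ((T ^ 2)⁻¹ • z).re = z.re - 2 := fun z => by
    have := hT ((T ^ 2)⁻¹ • z)
    rw [smul_inv_smul] at this
    linarith
  have hSi : ∀ z : ℍ, S⁻¹ • z = S • z := fun z => by
    rw [inv_smul_eq_iff, ← mul_smul, S_sq, SL_neg_smul, one_smul]
  have hSS : ∀ z : ℍ, S • S • z = z := fun z => by
    rw [← mul_smul, S_sq, SL_neg_smul, one_smul]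
  have hV : ∀ z : ℍ, S • (Vm ^ 2) • z = (T ^ 2) • S • z := fun z => by
    rw [show Vm ^ 2 = S * T ^ 2 * S⁻¹ by decide, mul_smul, mul_smul, hSS, hSi]
  have hV' : ∀ z : ℍ, S • (Vm ^ 2)⁻¹ • z = (T ^ 2)⁻¹ • S • z := fun z => by
    rw [eq_inv_smul_iff, ← hV, smul_inv_smul]
  refine FreeGroup.injective_lift_of_ping_pong (α := ℍ) _
    ![{z | 1 ≤ z.re}, {z | 1 ≤ (S • z).re}] ![{z | z.re < -1}, {z | (S • z).re < -1}]
    ?_ ?_ ?_ ?_ ?_ ?_
  · intro i
    fin_cases i
    · exact ⟨⟨⟨1, 1⟩, one_pos⟩, le_refl (1 : ℝ)⟩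
    · refine ⟨S • ⟨⟨1, 1⟩, one_pos⟩, ?_⟩
      change 1 ≤ (S • S • (⟨⟨1, 1⟩, one_pos⟩ : ℍ)).re
      rw [hSS]
      exact le_refl (1 : ℝ)
  · have key : Disjoint {z : ℍ | 1 ≤ z.re} {z | 1 ≤ (S • z).re} := by
      rw [Set.disjoint_left]
      intro z h1 h2
      simp only [Set.mem_ofPred_eq, re_S_smul, le_div_iff₀ (hn0 z)] at h1 h2
      linarith [hn0 z]
    intro i j hij
    fin_cases i <;> fin_cases j
    exacts [(hij rfl).elim, key, key.symm, (hij rfl).elim]
  · have key : Disjoint {z : ℍ | z.re < -1} {z | (S • z).re < -1} := by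
      rw [Set.disjoint_left]
      intro z h1 h2
      simp only [Set.mem_ofPred_eq, re_S_smul, div_lt_iff₀ (hn0 z)] at h1 h2
      linarith [hn0 z]
    intro i j hij
    fin_cases i <;> fin_cases j
    exacts [(hij rfl).elim, key, key.symm, (hij rfl).elim]
  · intro i j
    rw [Set.disjoint_left]
    fin_cases i <;> fin_cases j <;> intro z h1 h2
    · have h1' : 1 ≤ z.re := h1
      have h2' : z.re < -1 := h2
      linarith
    · have h1' : 1 ≤ z.re := h1
      have h2' : (S • z).re < -1 := h2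
      rw [re_S_smul, div_lt_iff₀ (hn0 z)] at h2'
      nlinarith [hn z]
    · have h1' : 1 ≤ (S • z).re := h1
      have h2' : z.re < -1 := h2
      rw [re_S_smul, le_div_iff₀ (hn0 z)] at h1'
      nlinarith [hn z]
    · have h1' : 1 ≤ (S • z).re := h1
      have h2' : (S • z).re < -1 := h2
      linarith
  · intro i
    rw [Set.smul_set_subset_iff]
    fin_cases i <;> intro z hz
    · have h1 : ¬ z.re < -1 := hz
      change 1 ≤ ((T ^ 2) • z).re
      rw [hT]; linarith
    · have h1 : ¬ (S • z).re < -1 := hz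
      change 1 ≤ (S • (Vm ^ 2) • z).re
      rw [hV, hT]; linarith
  · intro i
    rw [Set.smul_set_subset_iff]
    fin_cases i <;> intro z hz
    · have h1 : ¬ 1 ≤ z.re := hz
      change ((T ^ 2)⁻¹ • z).re < -1
      rw [hT']; linarith
    · have h1 : ¬ 1 ≤ (S • z).re := hz
      change (S • (Vm ^ 2)⁻¹ • z).re < -1
      rw [hV', hT']; linarith

lemma perm_neg_one : MulAction.toPermHom SL(2, ℤ) ℍ (-1) = 1 := by
  ext1 z
  simp

lemma iota_injective : Function.Injective ((MulAction.toPermHom SL(2, ℤ) ℍ).comp iota) := by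
  let e : F2 →* F2 := FreeGroup.lift ![of 1, (of 1)⁻¹ * (of 0)⁻¹]
  let e' : F2 →* F2 := FreeGroup.lift ![(of 0 * of 1)⁻¹, of 0]
  have he : e'.comp e = MonoidHom.id _ := by
    ext1 i
    fin_cases i <;> simp [e, e']
  have hinj : Function.Injective e :=
    Function.LeftInverse.injective (g := e') (fun w => DFunLike.congr_fun he w)
  have : (MulAction.toPermHom SL(2, ℤ) ℍ).comp iota =
      (FreeGroup.lift ![MulAction.toPermHom SL(2, ℤ) ℍ (T ^ 2),
        MulAction.toPermHom SL(2, ℤ) ℍ (Vm ^ 2)]).comp e := by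
    ext1 i
    fin_cases i
    · simp [e]
    · have h1 : T * Vm ^ 2 * T⁻¹ = -1 * ((Vm ^ 2)⁻¹ * (T ^ 2)⁻¹) := by decide
      simp only [Fin.mk_one, MonoidHom.comp_apply, iota_1, h1, _root_.map_mul, perm_neg_one,
        _root_.map_inv, e, FreeGroup.lift_apply_of, Matrix.cons_val_one, Matrix.cons_val_zero,
        one_mul]
  rw [this, MonoidHom.coe_comp]
  exact pingpong.comp hinj

section quotient

variable {G : Type} [Group G] {p : SL(2, ℤ) →* G}

lemma p_braid (p : SL(2, ℤ) →* G) : p T * p Vm * p T = p Vm * p T * p Vm := by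
  simpa only [_root_.map_mul] using congrArg p TV_braid

lemma p_closure (hp : Function.Surjective p) (g : G) : g ∈ Subgroup.closure {p T, p Vm} := by
  have := MonoidHom.map_closure p {T, Vm}
  rw [closure_TV, Set.image_pair, Subgroup.map_top_of_surjective p hp] at this
  rw [← this]
  trivial

lemma p_iota_01 (hneg : p (-1) = 1) : p (iota (of 0 * of 1)) = (p T ^ 2)⁻¹ := by
  rw [iota_01, _root_.map_mul, hneg, one_mul, _root_.map_inv, map_pow]

lemma range_iota (hneg : p (-1) = 1) : (p.comp iota).range = pureSub (p T) (p Vm) := by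
  apply le_antisymm
  · rintro _ ⟨w, rfl⟩
    have hT : p T ∈ Subgroup.closure {p T, p Vm} := Subgroup.subset_closure (by simp)
    induction w using FreeGroup.induction_on with
    | C1 => simp
    | of i =>
      fin_cases i
      · simpa using sq_mem_pure_right
      · simpa using conj_mem_pure (p_braid p) hT sq_mem_pure_right
    | inv_of i h => rw [_root_.map_inv]; exact inv_mem h
    | mul x y hx hy => rw [_root_.map_mul]; exact mul_mem hx hy
  · rw [pureSub, Subgroup.closure_le]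
    rintro x (rfl | rfl | rfl)
    · exact ⟨(of 0 * of 1)⁻¹, by
        rw [_root_.map_inv, MonoidHom.comp_apply, p_iota_01 hneg, inv_inv]⟩
    · exact ⟨of 0, by simp⟩
    · rw [← _root_.map_mul, ← map_pow, TV_cube, hneg]
      exact one_mem _

end quotient

lemma exists_dominating_quot (K : Subgroup F2) [K.FiniteIndex] :
    ∃ (G : Type) (_ : Group G) (_ : Finite G) (p : SL(2, ℤ) →* G), p (-1) = 1 ∧
      ∀ w, p (iota w) = 1 → w ∈ K := by
  let p₀ := (MulAction.toPermHom SL(2, ℤ) ℍ).rangeRestrict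
  have hp₀ : Function.Surjective p₀ := MonoidHom.rangeRestrict_surjective _
  have hneg : p₀ (-1) = 1 := Subtype.ext perm_neg_one
  have hinj : Function.Injective (p₀.comp iota) := fun x y h =>
    iota_injective (congrArg Subtype.val h)
  have hfin : (p₀.comp iota).range.FiniteIndex := by
    rw [range_iota hneg]
    have hn : (pureSub (p₀ T) (p₀ Vm)).Normal :=
      ⟨fun x hx g => conj_mem_pure (p_braid p₀) (p_closure hp₀ g) hx⟩
    have : Finite (_ ⧸ pureSub (p₀ T) (p₀ Vm)) := by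
      refine Finite.of_surjective (fun r : ({1, p₀ T, p₀ Vm, p₀ T * p₀ Vm, p₀ Vm * p₀ T,
        p₀ T * p₀ Vm * p₀ T} : Set _) => QuotientGroup.mk r.1) ?_
      intro q
      obtain ⟨g, rfl⟩ := QuotientGroup.mk_surjective q
      obtain ⟨η, hη, r, hr, rfl⟩ := braid_cosets (p_braid p₀) (p_closure hp₀ g)
      refine ⟨⟨r, hr⟩, ?_⟩
      rw [QuotientGroup.mk_mul, (QuotientGroup.eq_one_iff η).mpr hη, one_mul]
    exact Subgroup.finiteIndex_of_finite_quotient
  have hK : (K.map (p₀.comp iota)).FiniteIndex := by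
    refine ⟨?_⟩
    rw [Subgroup.index_map_of_injective _ hinj]
    exact mul_ne_zero Subgroup.FiniteIndex.index_ne_zero hfin.index_ne_zero
  refine ⟨_ ⧸ (K.map (p₀.comp iota)).normalCore, inferInstance, inferInstance,
    (QuotientGroup.mk' _).comp p₀, by simp [hneg], fun w hw => ?_⟩
  have h1 : p₀ (iota w) ∈ (K.map (p₀.comp iota)).normalCore := by
    simpa [QuotientGroup.eq_one_iff] using hw
  obtain ⟨k, hk, hk'⟩ := Subgroup.normalCore_le _ h1
  rwa [← hinj hk']

lemma exists_char_quot {G₁ : Type} [Group G₁] [Finite G₁] (p₁ : SL(2, ℤ) →* G₁)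
    (h₁ : p₁ (-1) = 1) :
    ∃ (G : Type) (_ : Group G) (_ : Finite G) (p : SL(2, ℤ) →* G), Function.Surjective p ∧
      p (-1) = 1 ∧ (∀ γ, p γ = 1 → p₁ γ = 1) ∧ ∀ p' : SL(2, ℤ) →* G, Function.Surjective p' →
        p' (-1) = 1 → ∃ φ : MulAut G, ∀ γ, φ (p γ) = p' γ := by
  let J := {f : SL(2, ℤ) →* G₁ // f (-1) = 1}
  have : Finite J := by
    refine Finite.of_injective (fun f : J => (f.1 T, f.1 Vm)) fun f g h => ?_
    apply Subtype.ext
    refine MonoidHom.eq_of_eqOn_dense closure_TV ?_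
    rintro x (rfl | rfl)
    exacts [congrArg Prod.fst h, congrArg Prod.snd h]
  let P : SL(2, ℤ) →* (J → G₁) := MonoidHom.pi fun f => f.1
  have hsurj := MonoidHom.rangeRestrict_surjective P
  refine ⟨P.range, inferInstance, inferInstance, P.rangeRestrict, hsurj,
    Subtype.ext (funext fun f => f.2), fun γ h => congrFun (congrArg Subtype.val h) ⟨p₁, h₁⟩,
    fun p' hp' hneg => ?_⟩
  have hker : P.rangeRestrict.ker ≤ p'.ker := by
    intro γ hγ
    apply Subtype.ext
    funext f
    have := congrFun (congrArg Subtype.val hγ)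
      ⟨((Pi.evalMonoidHom _ f).comp P.range.subtype).comp p', by simp [hneg]⟩
    exact this
  let φ := P.rangeRestrict.liftOfSurjective hsurj ⟨p', hker⟩
  have hφ : ∀ γ, φ (P.rangeRestrict γ) = p' γ := fun γ =>
    P.rangeRestrict.liftOfRightInverse_comp_apply _ _ _ γ
  have hφs : Function.Surjective φ := fun g => by
    obtain ⟨γ, rfl⟩ := hp' g
    exact ⟨_, hφ γ⟩
  exact ⟨MulEquiv.ofBijective φ ⟨Finite.injective_iff_surjective.mpr hφs, hφs⟩, hφ⟩

/-- Conjugation by the diagonal matrix with entries `1` and `-1`. -/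
def conjDiag : SL(2, ℤ) →* SL(2, ℤ) where
  toFun g := ⟨!![g 0 0, -g 0 1; -g 1 0, g 1 1], by
    have := g.det_coe
    rw [Matrix.det_fin_two] at this ⊢
    simpa using this⟩
  map_one' := by decide
  map_mul' g h := by
    ext i j
    fin_cases i <;> fin_cases j <;> simp [Matrix.mul_apply, Fin.sum_univ_two] <;> ring

lemma conjDiag_T : conjDiag T = T⁻¹ := by decide
lemma conjDiag_V : conjDiag Vm = Vm⁻¹ := by decide
lemma conjDiag_S : conjDiag S = -1 * S := by decide
lemma conjDiag_neg : conjDiag (-1) = -1 := by decide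

lemma conjDiag_surjective : Function.Surjective conjDiag := fun g => ⟨conjDiag g, by
  ext i j
  fin_cases i <;> fin_cases j <;> simp [conjDiag]⟩

/-- The map of the free group of rank two to `SL(2, ZMod 7)`. -/
def rho0 : F2 →* G7 := FreeGroup.lift ![X7, Y7]

@[simp] lemma rho0_0 : rho0 (of 0) = X7 := by simp [rho0]
@[simp] lemma rho0_1 : rho0 (of 1) = Y7 := by simp [rho0]

lemma exists_lift_endo {α G : Type} [Group G] (ι : FreeGroup α →* G) (φ : G →* G)
    (h : ∀ w, φ (ι w) ∈ ι.range) :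
    ∃ η : FreeGroup α →* FreeGroup α, ∀ w, ι (η w) = φ (ι w) := by
  choose f hf using h
  refine ⟨FreeGroup.lift fun i => f (of i), fun w => ?_⟩
  have : ι.comp (FreeGroup.lift fun i => f (of i)) = φ.comp ι := by
    ext1 i
    simp [hf]
  exact DFunLike.congr_fun this w

theorem exotic_finite_level {H : Type} [Group H] [Finite H] (κ : F2 →* H) :
    ∃ a b : F2, κ (a * of 0 * a⁻¹ * (b * of 1 * b⁻¹)) = κ (of 0 * of 1) ∧
      (∀ w, κ w ∈ Subgroup.closure {κ (a * of 0 * a⁻¹), κ (b * of 1 * b⁻¹)}) ∧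
      ¬ ∃ g : G7, rho0 (a * of 0 * a⁻¹) = g * X7 * g⁻¹ ∧ rho0 (b * of 1 * b⁻¹) = g * Y7 * g⁻¹ := by
  obtain ⟨G₁, _, _, p₁, hneg₁, hdom₁⟩ := exists_dominating_quot (κ.prod rho0).ker
  obtain ⟨G, _, _, p, hp, hneg, hdom, hchar⟩ := exists_char_quot p₁ hneg₁
  set ι := p.comp iota with hι
  have hfac : ∀ w w', ι w = ι w' → κ w = κ w' ∧ rho0 w = rho0 w' := by
    intro w w' h
    have h1 : ι (w * w'⁻¹) = 1 := by rw [_root_.map_mul, _root_.map_inv, h, mul_inv_cancel]
    have h2 := hdom₁ _ (hdom _ h1)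
    rw [MonoidHom.mem_ker, _root_.map_mul, _root_.map_inv, mul_inv_eq_one] at h2
    exact ⟨congrArg Prod.fst h2, congrArg Prod.snd h2⟩
  obtain ⟨m, hm1, hm2, hm3⟩ := Nat.forall_exists_prime_gt_and_modEq (orderOf (p T))
    (q := 8) (a := 3) (by norm_num) (by norm_num)
  obtain ⟨p', hp', hneg', hT'⟩ := galois_twist p hp hneg m
    (Nat.Coprime.symm (Nat.coprime_of_lt_prime (orderOf_pos _).ne' hm1 hm2).symm)
  obtain ⟨φ, hφ⟩ := hchar p' hp' hneg'
  obtain ⟨c, hc⟩ := hchar (p.comp conjDiag) (hp.comp conjDiag_surjective)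
    (by simp [conjDiag_neg, hneg])
  set t := p T with ht
  set v := p Vm with hv
  set s := p S with hs
  have hvs : v = s * t * s⁻¹ := by simp [hv, Vm, hs, ht]
  have hφt : φ t = t ^ m := by rw [hφ, hT']
  have hct : c t = t⁻¹ := by rw [hc]; simp [conjDiag_T, ht]
  have hcv : c v = v⁻¹ := by rw [hc]; simp [conjDiag_V, hv]
  have hΛ : ι.range = pureSub t v := range_iota hneg
  have hn : ι.range.Normal := by
    rw [hΛ]
    exact ⟨fun x hx g => conj_mem_pure (p_braid p) (p_closure hp g) hx⟩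
  have ι0 : ι (of 0) = v ^ 2 := by simp [hι, hv]
  have ι1 : ι (of 1) = t * v ^ 2 * t⁻¹ := by simp [hι, hv, ht]
  have ι01 : ι (of 0 * of 1) = (t ^ 2)⁻¹ := p_iota_01 hneg
  have ht2 : t ^ 2 ∈ ι.range := hΛ ▸ sq_mem_pure_left
  have hv2 : v ^ 2 ∈ ι.range := hΛ ▸ sq_mem_pure_right
  -- an automorphism sending `t ^ 2` into the subgroup preserves the subgroup
  have hpres : ∀ ψ : MulAut G, ψ (t ^ 2) ∈ ι.range → ∀ x, ψ x ∈ ι.range ↔ x ∈ ι.range := by
    intro ψ hψ
    have h1 : ι.range.map ψ.toMonoidHom ≤ ι.range := by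
      rintro _ ⟨_, ⟨w, rfl⟩, rfl⟩
      have h2 : ψ (v ^ 2) ∈ ι.range := by
        have := hn.conj_mem _ hψ (ψ s)
        convert this using 1
        rw [hvs, conj_pow]
        simp
      induction w using FreeGroup.induction_on with
      | C1 => simp
      | of i =>
        fin_cases i
        · simpa [ι0] using h2
        · simpa [ι1] using hn.conj_mem _ h2 (ψ t)
      | inv_of i h => simpa using h
      | mul x y hx hy => simpa using mul_mem hx hy
    have h3 : ι.range.map ψ.toMonoidHom = ι.range :=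
      Subgroup.eq_of_le_of_card_ge h1 (Subgroup.card_map_of_injective ψ.injective).ge
    intro x
    conv_lhs => rw [← h3]
    exact Subgroup.mem_map_iff_mem ψ.injective
  have hφΛ := hpres φ (by rw [map_pow, hφt, ← pow_mul, mul_comm, pow_mul]; exact pow_mem ht2 m)
  have hcΛ := hpres c (by rw [map_pow, hct, inv_pow]; exact inv_mem ht2)
  -- `c` acts trivially modulo the subgroup
  have hctriv : ∀ g, c g * g⁻¹ ∈ ι.range := by
    intro g
    induction p_closure hp g using Subgroup.closure_induction with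
    | mem x hx =>
      rcases hx with rfl | rfl
      · rw [← ht, hct, ← mul_inv_rev, ← pow_two]; exact inv_mem ht2
      · rw [← hv, hcv, ← mul_inv_rev, ← pow_two]; exact inv_mem hv2
    | one => simp
    | mul x y _ _ hx hy =>
      have := mul_mem hx (hn.conj_mem _ hy x)
      convert this using 1
      simp [mul_assoc]
    | inv x _ hx =>
      convert inv_mem (hn.conj_mem _ hx (c x)⁻¹) using 1
      simp
  set θ : MulAut G := φ * c * φ⁻¹ * c⁻¹ with hθ
  have hθt : θ t = t := by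
    have h1 : c.symm t = t⁻¹ := by rw [MulEquiv.symm_apply_eq, _root_.map_inv, hct, inv_inv]
    have h2 : c (φ.symm t) = (φ.symm t)⁻¹ := by
      have h3 : φ.symm t ∈ Subgroup.zpowers t := by
        have h4 : (Subgroup.zpowers t).map φ.toMonoidHom ≤ Subgroup.zpowers t := by
          rw [MonoidHom.map_zpowers, Subgroup.zpowers_le]
          exact ⟨m, by simp [hφt]⟩
        have h5 := Subgroup.eq_of_le_of_card_ge h4 (Subgroup.card_map_of_injective φ.injective).ge
        have h6 : t ∈ (Subgroup.zpowers t).map φ.toMonoidHom := by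
          rw [h5]; exact Subgroup.mem_zpowers t
        obtain ⟨y, hy, hy'⟩ := h6
        have h7 : φ.symm t = y := by rw [MulEquiv.symm_apply_eq]; exact hy'.symm
        rwa [h7]
      obtain ⟨k, hk⟩ := Subgroup.mem_zpowers_iff.mp h3
      rw [← hk, map_zpow, hct, inv_zpow]
    simp [hθ, h1, h2]
  have hθtriv : ∀ g, θ g * g⁻¹ ∈ ι.range := by
    intro g
    have h1 := (hφΛ _).mpr (hctriv (φ.symm (c.symm g)))
    have h2 := inv_mem (hctriv (c.symm g))
    convert mul_mem h1 h2 using 1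
    simp [hθ, mul_assoc]
  have hθΛ := hpres θ (by rw [map_pow, hθt]; exact ht2)
  obtain ⟨a, ha⟩ := hθtriv s
  obtain ⟨b, hb⟩ := hn.conj_mem _ ⟨a, rfl⟩ t
  have hθ0 : ι (a * of 0 * a⁻¹) = θ (ι (of 0)) := by
    simp only [_root_.map_mul, _root_.map_inv, ha, ι0, hvs, conj_pow, map_pow, hθt]
    group
  have hθ1 : ι (b * of 1 * b⁻¹) = θ (ι (of 1)) := by
    have := hθ0
    simp only [_root_.map_mul, _root_.map_inv, ι0] at this
    simp only [_root_.map_mul, _root_.map_inv, hb, ι1, hθt, ← this]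
    group
  let ηθ : F2 →* F2 := FreeGroup.lift ![a * of 0 * a⁻¹, b * of 1 * b⁻¹]
  have hηθ : ∀ w, ι (ηθ w) = θ (ι w) := by
    have : ι.comp ηθ = θ.toMonoidHom.comp ι := by
      ext1 i
      fin_cases i
      · simpa [ηθ] using hθ0
      · simpa [ηθ] using hθ1
    exact fun w => DFunLike.congr_fun this w
  refine ⟨a, b, (hfac _ _ ?_).1, fun w => ?_, ?_⟩
  · rw [_root_.map_mul, hθ0, hθ1, ← _root_.map_mul, ← _root_.map_mul, ι01, _root_.map_inv, map_pow,
      hθt]
  · obtain ⟨w', hw'⟩ : θ.symm (ι w) ∈ ι.range := by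
      rw [← hθΛ]; simp
    have h1 : κ w = κ (ηθ w') := (hfac _ _ (by rw [hηθ, hw']; simp)).1
    rw [h1]
    clear h1 hw'
    induction w' using FreeGroup.induction_on with
    | C1 => simp
    | of i =>
      apply Subgroup.subset_closure
      fin_cases i <;> simp [ηθ]
    | inv_of i h => simpa using h
    | mul x y hx hy => simpa using mul_mem hx hy
  · rintro ⟨g, hg0, hg1⟩
    obtain ⟨ηφ, hηφ⟩ := exists_lift_endo ι φ.toMonoidHom fun w => (hφΛ _).mpr ⟨w, rfl⟩
    simp only [MulEquiv.coe_toMonoidHom] at hηφ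
    let ηc : F2 →* F2 := FreeGroup.lift ![(of 0)⁻¹, of 0 * (of 1)⁻¹ * (of 0)⁻¹]
    have hηc : ∀ w, ι (ηc w) = c (ι w) := by
      have h01 := ι01
      rw [_root_.map_mul, ι0, ι1] at h01
      have : ι.comp ηc = c.toMonoidHom.comp ι := by
        ext1 i
        fin_cases i
        · simp [ηc, ι0, hcv]
        · have h1 : ι (ηc (of 1)) = (t ^ 2)⁻¹ * (ι (of 1))⁻¹ * t ^ 2 := by
            rw [← inv_inv (t ^ 2), ← ι01]
            simp [ηc, mul_assoc]
          simp only [Fin.mk_one, MonoidHom.comp_apply, h1, ι1, MulEquiv.coe_toMonoidHom,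
            _root_.map_mul, _root_.map_inv, map_pow, hct, hcv]
          simp [pow_two, mul_assoc]
      exact fun w => DFunLike.congr_fun this w
    have hρθ : ∀ w, rho0 (ηθ w) = g * rho0 w * g⁻¹ := by
      have : rho0.comp ηθ = (MulAut.conj g).toMonoidHom.comp rho0 := by
        ext1 i
        fin_cases i
        · simpa [ηθ] using hg0
        · simpa [ηθ] using hg1
      exact fun w => DFunLike.congr_fun this w
    have hρc : ∀ w, rho0 (ηc w) = R7 * rho0 w * R7⁻¹ := by
      have : rho0.comp ηc = (MulAut.conj R7).toMonoidHom.comp rho0 := by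
        ext1 i
        fin_cases i
        · simp [ηc, R7_X]
        · simp [ηc, R7_Y]
      exact fun w => DFunLike.congr_fun this w
    have hJ : ∀ w, (g * R7) * rho0 (ηφ w) * (g * R7)⁻¹ = rho0 (ηφ (ηc w)) := by
      intro w
      have := (hfac (ηθ (ηc (ηφ w))) (ηφ (ηc w)) (by
        rw [hηθ, hηc, hηφ, hηφ, hηc]; simp [hθ])).2
      rw [← this, hρθ, hρc]
      group
    have hpow : ∀ x : G7, x ^ 8 = 1 → x ^ m = x ^ 3 := fun x hx => pow_eq_pow_of_modEq hm3 hx
    have hW : rho0 (ηφ (of 0 * of 1)) = (X7 * Y7) ^ 3 := by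
      have := (hfac (ηφ (of 0 * of 1)) ((of 0 * of 1) ^ m) (by
        rw [hηφ, map_pow, ι01, _root_.map_inv, map_pow, hφt, inv_pow, ← pow_mul, ← pow_mul,
          mul_comm])).2
      rw [this, map_pow, _root_.map_mul, rho0_0, rho0_1, hpow _ XY7_pow]
    have htr : ∀ (γ : G) (w : F2), ι w = γ * t ^ 2 * γ⁻¹ → tr7 (rho0 (ηφ w)) = 4 := by
      intro γ w hw
      obtain ⟨η, hη, r, hr, hγ⟩ := braid_cosets (p_braid p) (p_closure hp (φ γ))
      rw [← ht, ← hv] at hη hr
      rw [← hΛ] at hη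
      obtain ⟨w₁, rfl⟩ := hη
      have hbr : t * v * t = v * t * v := p_braid p
      have hd : (t * v) ^ 3 = 1 := by
        rw [ht, hv, ← _root_.map_mul, ← map_pow, TV_cube, hneg]
      have hcls : ∃ w₂ e : F2, (e = of 0 ∨ e = of 1 ∨ e = (of 0 * of 1)⁻¹) ∧
          r * t ^ 2 * r⁻¹ = ι (w₂ * e * w₂⁻¹) := by
        have k1 : v * t ^ 2 * v⁻¹ = ι (of 0 * of 1 * (of 0)⁻¹) := by
          rw [braid_conj_a hbr, hd, _root_.map_mul, ι01, _root_.map_inv, ι0, mul_one]
        have k2 : t * v * t ^ 2 * (t * v)⁻¹ = ι (1 * of 0 * 1⁻¹) := by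
          have : t * v * t * (t * v)⁻¹ = v := by rw [hbr]; group
          rw [inv_one, mul_one, one_mul, ι0, ← conj_pow, this]
        have k0 : t ^ 2 = ι (1 * (of 0 * of 1)⁻¹ * 1⁻¹) := by
          rw [inv_one, mul_one, one_mul, _root_.map_inv, ι01, inv_inv]
        rcases hr with hr | hr | hr | hr | hr | hr <;> rw [hr]
        · exact ⟨1, _, Or.inr (Or.inr rfl), by rw [← k0]; group⟩
        · exact ⟨1, _, Or.inr (Or.inr rfl), by rw [← k0]; group⟩
        · exact ⟨_, _, Or.inr (Or.inl rfl), k1⟩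
        · exact ⟨_, _, Or.inl rfl, k2⟩
        · exact ⟨_, _, Or.inr (Or.inl rfl), by rw [← k1]; group⟩
        · exact ⟨_, _, Or.inl rfl, by rw [← k2]; group⟩
      obtain ⟨w₂, e, he, hre⟩ := hcls
      have h1 := (hfac (ηφ w) ((w₁ * w₂) * e ^ m * (w₁ * w₂)⁻¹) (by
        have h2 : ι ((w₁ * w₂) * e ^ m * (w₁ * w₂)⁻¹) = ι w₁ * (r * t ^ 2 * r⁻¹) ^ m * (ι w₁)⁻¹ := by
          rw [hre, ← map_pow, conj_pow]
          simp [mul_assoc]
        rw [h2, hηφ, hw, conj_pow, _root_.map_mul, _root_.map_mul, _root_.map_inv, hγ, map_pow,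
          hφt, ← pow_mul, ← pow_mul, mul_comm m 2]
        group)).2
      rw [h1, _root_.map_mul, _root_.map_mul, _root_.map_inv, tr7_conj, map_pow]
      rcases he with rfl | rfl | rfl
      · rw [rho0_0, hpow _ X7_pow, tr_X3]
      · rw [rho0_1, hpow _ Y7_pow, tr_Y3]
      · rw [_root_.map_inv, _root_.map_mul, rho0_0, rho0_1,
          hpow _ (by rw [inv_pow, XY7_pow, inv_one]), tr_Z3]
    refine key7 (x := rho0 (ηφ (of 0))) (J := g * R7) (htr s _ (by rw [ι0, hvs, conj_pow])) ?_ ?_ ?_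
    · have := htr (t * s) (of 1) (by rw [ι1, hvs, conj_pow]; group)
      rw [← hW, ← this]
      simp
    · rw [hJ]
      simp [ηc]
    · rw [← hW, hJ]
      simp [ηc, mul_assoc]

end Pool.Agent.MP_07c73e_al.H96
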