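import Pool.Agent.MP_07c73e_al.H96.Twist

/-!
Poincare series: a vector valued modular form for the regular representation of a finite quotient
of the modular group whose components are pairwise distinct.
-/

namespace Pool.Agent.MP_07c73e_al.H96

open UpperHalfPlane hiding I
open PowerSeries Complex Function Filter Topology
open scoped Manifold MatrixGroups ModularForm Real

lemma exists_weight_fun {G : Type} [Group G] (t : G) {ζ : ℂ} (hpos : 0 < orderOf t)
    (hζ : IsPrimitiveRoot ζ (orderOf t)) :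
    ∃ w : G → ℂ, (∀ x, w (x * t) = ζ * w x) ∧ (∀ x, ‖w x‖ ≤ 1) ∧ w 1 = 1 ∧
      ∀ x, w x = 1 → x = 1 := by
  classical
  let w : G → ℂ := fun x => if h : ∃ j : ℕ, t ^ j = x then ζ ^ h.choose else 0
  have h1 : ∀ j : ℕ, w (t ^ j) = ζ ^ j := by
    intro j
    have h : ∃ i : ℕ, t ^ i = t ^ j := ⟨j, rfl⟩
    have h2 := pow_eq_pow_iff_modEq.mp h.choose_spec
    simp only [w, dif_pos h]
    rw [hζ.eq_orderOf] at h2
    exact pow_eq_pow_of_modEq h2 (pow_orderOf_eq_one ζ)
  have h0 : ∀ x, (¬ ∃ j : ℕ, t ^ j = x) → w x = 0 := fun x hx => by simp only [w, dif_neg hx]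
  refine ⟨w, fun x => ?_, fun x => ?_, by simpa using h1 0, fun x hx => ?_⟩
  · by_cases hx : ∃ j : ℕ, t ^ j = x
    · obtain ⟨j, rfl⟩ := hx
      rw [← pow_succ, h1, h1, pow_succ']
    · rw [h0 x hx, mul_zero]
      apply h0
      rintro ⟨j, hj⟩
      apply hx
      refine ⟨j + (orderOf t - 1), ?_⟩
      have : t ^ (orderOf t - 1) * t = 1 := by
        rw [← pow_succ, Nat.sub_add_cancel hpos, pow_orderOf_eq_one]
      rw [pow_add, hj, mul_assoc, ← pow_succ', pow_succ, this, mul_one]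
  · by_cases hx : ∃ j : ℕ, t ^ j = x
    · obtain ⟨j, rfl⟩ := hx
      rw [h1, norm_pow, hζ.norm'_eq_one hpos.ne', one_pow]
    · simp [h0 x hx]
  · by_cases hx' : ∃ j : ℕ, t ^ j = x
    · obtain ⟨j, rfl⟩ := hx'
      rw [h1, hζ.pow_eq_one_iff_dvd] at hx
      exact orderOf_dvd_iff_pow_eq_one.mp hx
    · simp [h0 x hx'] at hx

/-- Primitive vectors. -/
abbrev PrimVec := {v : Fin 2 → ℤ // IsCoprime (v 0) (v 1)}

lemma exists_mat (v : PrimVec) : ∃ γ : SL(2, ℤ), (γ : Matrix (Fin 2) (Fin 2) ℤ) 1 = v.1 := by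
  obtain ⟨γ, -, hγ⟩ := ModularGroup.bottom_row_surj (R := ℤ) v.2
  exact ⟨γ, hγ⟩

/-- A matrix with a given bottom row. -/
noncomputable def mat (v : PrimVec) : SL(2, ℤ) := (exists_mat v).choose

lemma mat_row (v : PrimVec) : (mat v : Matrix (Fin 2) (Fin 2) ℤ) 1 = v.1 :=
  (exists_mat v).choose_spec

lemma row_mul (γ δ : SL(2, ℤ)) : ((γ * δ : SL(2, ℤ)) : Matrix (Fin 2) (Fin 2) ℤ) 1 =
    Matrix.vecMul ((γ : Matrix (Fin 2) (Fin 2) ℤ) 1) δ := by
  ext i
  simp [Matrix.mul_apply, Matrix.vecMul, dotProduct]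

/-- Right multiplication of primitive vectors by a matrix. -/
def primEquiv (δ : SL(2, ℤ)) : PrimVec ≃ PrimVec where
  toFun v := ⟨Matrix.vecMul v.1 δ, v.2.vecMulSL δ⟩
  invFun v := ⟨Matrix.vecMul v.1 (δ⁻¹ : SL(2, ℤ)), v.2.vecMulSL δ⁻¹⟩
  left_inv v := by
    ext1
    simp only [Matrix.vecMul_vecMul, ← Matrix.SpecialLinearGroup.coe_mul, mul_inv_cancel,
      Matrix.SpecialLinearGroup.coe_one, Matrix.vecMul_one]
  right_inv v := by
    ext1
    simp only [Matrix.vecMul_vecMul, ← Matrix.SpecialLinearGroup.coe_mul, inv_mul_cancel,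
      Matrix.SpecialLinearGroup.coe_one, Matrix.vecMul_one]

lemma exists_T_zpow_of_row_eq {γ γ' : SL(2, ℤ)}
    (h : (γ : Matrix (Fin 2) (Fin 2) ℤ) 1 = (γ' : Matrix (Fin 2) (Fin 2) ℤ) 1) :
    ∃ n : ℤ, γ' = ModularGroup.T ^ n * γ := by
  have h1 : ((γ' * γ⁻¹ : SL(2, ℤ)) : Matrix (Fin 2) (Fin 2) ℤ) 1 =
      ((1 : SL(2, ℤ)) : Matrix (Fin 2) (Fin 2) ℤ) 1 := by
    rw [row_mul, ← h, ← row_mul, mul_inv_cancel]
  set δ := γ' * γ⁻¹ with hδ
  refine ⟨δ 0 1, ?_⟩
  rw [← mul_inv_eq_iff_eq_mul, ← hδ]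
  have h10 : δ 1 0 = 0 := by simpa using congrFun h1 0
  have h11 : δ 1 1 = 1 := by simpa using congrFun h1 1
  have hdet := δ.det_coe
  rw [Matrix.det_fin_two, h10, h11] at hdet
  ext i j
  rw [ModularGroup.coe_T_zpow]
  fin_cases i <;> fin_cases j <;> simp_all

variable {G : Type} [Group G]

/-- The function `exp (2 π i τ / N)`. -/
noncomputable def qFun (N : ℕ) : ℍ → ℂ := fun τ => Periodic.qParam N τ

lemma rep_qFun (N : ℕ) : Rep N X (qFun N) := fun τ => by
  have := hasSum_single (f := fun n => coeff n (X : ℂ⟦X⟧) * Periodic.qParam N τ ^ n) 1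
    (fun n hn => by simp [coeff_X, hn])
  simpa [qFun] using this

lemma qFun_slash_T (N : ℕ) (k : ℤ) :
    qFun N ∣[k] ModularGroup.T = cexp (2 * π * I / (N : ℝ)) • qFun N := by
  refine ((rep_qFun N).slash_T k).unique_fun ?_
  rw [rescale_X, ← smul_eq_C_mul]
  exact (rep_qFun N).smul _

/-- A term of the Poincare series. -/
noncomputable def term (p : SL(2, ℤ) →* G) (w : G → ℂ) (N : ℕ) (k : ℤ) (g : G) (γ : SL(2, ℤ)) :
    ℍ → ℂ := w (g * (p γ)⁻¹) • (qFun N ∣[k] γ)

variable {p : SL(2, ℤ) →* G} {w : G → ℂ} {N : ℕ} {k : ℤ}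

lemma term_slash (g : G) (γ δ : SL(2, ℤ)) :
    term p w N k g γ ∣[k] δ = term p w N k (g * p δ) (γ * δ) := by
  simp [term, ModularForm.SL_smul_slash, SlashAction.slash_mul, mul_assoc]

lemma term_T (hw : ∀ x, w (x * p ModularGroup.T) = cexp (2 * π * I / (N : ℝ)) * w x) (g : G)
    (γ : SL(2, ℤ)) : term p w N k g (ModularGroup.T * γ) = term p w N k g γ := by
  have := hw (g * (p (ModularGroup.T * γ))⁻¹)
  rw [term, term, SlashAction.slash_mul, qFun_slash_T, ModularForm.SL_smul_slash, smul_smul,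
    mul_comm (w _), ← this]
  simp [mul_assoc]

lemma term_row (hw : ∀ x, w (x * p ModularGroup.T) = cexp (2 * π * I / (N : ℝ)) * w x) (g : G)
    {γ γ' : SL(2, ℤ)}
    (h : (γ : Matrix (Fin 2) (Fin 2) ℤ) 1 = (γ' : Matrix (Fin 2) (Fin 2) ℤ) 1) :
    term p w N k g γ' = term p w N k g γ := by
  obtain ⟨n, rfl⟩ := exists_T_zpow_of_row_eq h
  clear h
  induction n using Int.induction_on with
  | zero => simp
  | succ n ih => rw [add_comm, zpow_add, zpow_one, mul_assoc, term_T hw, ih]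
  | pred n ih =>
    rw [← ih, ← term_T hw g (ModularGroup.T ^ (-(n : ℤ) - 1) * γ), ← mul_assoc, ← zpow_one_add]
    congr 3
    ring

lemma norm_term_le (hN : 0 < N) (hw : ∀ x, ‖w x‖ ≤ 1) (g : G) (v : PrimVec) (τ : ℍ) :
    ‖term p w N k g (mat v) τ‖ ≤ ‖(v.1 0 : ℂ) * τ + v.1 1‖ ^ (-k) := by
  have hN' : (0 : ℝ) < N := by exact_mod_cast hN
  have h0 : (mat v) 1 0 = v.1 0 := congrFun (mat_row v) 0
  have h1 : (mat v) 1 1 = v.1 1 := congrFun (mat_row v) 1
  rw [term, Pi.smul_apply, ModularForm.SL_slash_apply, smul_eq_mul, norm_mul, norm_mul,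
    ModularGroup.denom_apply, h0, h1, norm_zpow]
  have h2 : ‖qFun N (mat v • τ)‖ ≤ 1 := (Periodic.norm_qParam_lt_one hN' (mat v • τ).im_pos).le
  calc _ ≤ 1 * (1 * ‖(v.1 0 : ℂ) * τ + v.1 1‖ ^ (-k)) := by gcongr; exact hw _
    _ = _ := by ring

/-- The Poincare series. -/
noncomputable def poinc (p : SL(2, ℤ) →* G) (w : G → ℂ) (N : ℕ) (k : ℤ) (g : G) : ℍ → ℂ :=
  fun τ => ∑' v : PrimVec, term p w N k g (mat v) τ

lemma poinc_slash (hw : ∀ x, w (x * p ModularGroup.T) = cexp (2 * π * I / (N : ℝ)) * w x) (g : G)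
    (δ : SL(2, ℤ)) : poinc p w N k g ∣[k] δ = poinc p w N k (g * p δ) := by
  funext τ
  rw [ModularForm.SL_slash_apply, poinc, poinc, ← tsum_mul_right,
    ← (primEquiv δ).tsum_eq (fun v => term p w N k (g * p δ) (mat v) τ)]
  refine tsum_congr fun v => ?_
  rw [← ModularForm.SL_slash_apply, term_slash, term_row hw (γ := mat (primEquiv δ v))]
  rw [mat_row, row_mul, mat_row]
  rfl

lemma strip_bound (hN : 0 < N) (hk : 3 ≤ k) (hw : ∀ x, ‖w x‖ ≤ 1) (A : ℝ) {B : ℝ} (hB : 0 < B) :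
    ∃ u : PrimVec → ℝ, Summable u ∧ ∀ g v, ∀ τ ∈ verticalStrip A B,
      ‖term p w N k g (mat v) τ‖ ≤ u v := by
  have hk' : (2 : ℝ) < k := by norm_cast
  refine ⟨fun v => EisensteinSeries.r ⟨⟨A, B⟩, hB⟩ ^ (-k : ℝ) * ‖v.1‖ ^ (-k : ℝ),
    ((EisensteinSeries.summable_one_div_norm_rpow hk').subtype _).mul_left _, fun g v τ hτ => ?_⟩
  refine (norm_term_le hN hw g v τ).trans ?_
  have := EisensteinSeries.summand_bound_of_mem_verticalStrip (k := k) (by linarith) v.1 hB hτ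
  rwa [← Real.rpow_intCast, Int.cast_neg]

lemma poinc_mdiff (hN : 0 < N) (hk : 3 ≤ k) (hw : ∀ x, ‖w x‖ ≤ 1) (g : G) :
    MDiff (poinc p w N k g) := by
  have hN' : (0 : ℝ) < N := by exact_mod_cast hN
  intro τ
  rw [UpperHalfPlane.mdifferentiableAt_iff]
  have hε : 0 < τ.im / 2 := by have := τ.im_pos; positivity
  obtain ⟨u, hu, hb⟩ := strip_bound (p := p) hN hk hw (|τ.re| + 1) hε
  set U : Set ℂ := {z | |z.re| < |τ.re| + 1 ∧ τ.im / 2 < z.im} with hUdef
  have hU : IsOpen U :=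
    (isOpen_lt (f := fun z : ℂ => |z.re|) (by fun_prop) continuous_const).inter
      (isOpen_lt continuous_const Complex.continuous_im)
  have hτ : (τ : ℂ) ∈ U := by
    have := τ.im_pos
    simp only [hUdef, Set.mem_ofPred_eq, coe_im, coe_re]
    constructor <;> linarith
  have h3 := (Complex.differentiableOn_tsum_of_summable_norm (U := U)
    (F := fun v => term p w N k g (mat v) ∘ ofComplex) hu (fun v => ?_) hU
    (fun v z hz => ?_)).differentiableAt (hU.mem_nhds hτ)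
  · exact h3
  · have h4 : MDiff (term p w N k g (mat v)) :=
      (mdiff_slash ((rep_qFun N).mdiff hN') k _).const_smul _
    exact (UpperHalfPlane.mdifferentiable_iff.mp h4).mono fun z hz => hε.trans hz.2
  · have hz0 : 0 < z.im := hε.trans hz.2
    rw [comp_apply, ofComplex_apply_of_im_pos hz0]
    exact hb g v _ ⟨hz.1.le, hz.2.le⟩

lemma poinc_bdd (hN : 0 < N) (hk : 3 ≤ k) (hw : ∀ x, ‖w x‖ ≤ 1)
    (hw' : ∀ x, w (x * p ModularGroup.T) = cexp (2 * π * I / (N : ℝ)) * w x) (g : G) :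
    IsBoundedAtImInfty (poinc p w N k g) := by
  obtain ⟨u, hu, hb⟩ := strip_bound (p := p) hN hk hw 1 one_pos
  rw [isBoundedAtImInfty_iff]
  refine ⟨∑' v, u v, 1, fun τ hτ => ?_⟩
  obtain ⟨n, hn⟩ := ModularGroup_T_zpow_mem_verticalStrip τ (N := 1) one_pos
  set δ := ModularGroup.T ^ (((1 : ℕ) : ℤ) * n) with hδ
  have h1 := congrFun (poinc_slash (k := k) hw' (g * (p δ)⁻¹) δ) τ
  rw [inv_mul_cancel_right, ModularForm.SL_slash_apply] at h1
  have h2 : denom δ τ = 1 := by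
    rw [ModularGroup.denom_apply, hδ, ModularGroup.coe_T_zpow]
    simp
  rw [← h1, h2, one_zpow, mul_one]
  refine tsum_of_norm_bounded hu.hasSum fun v => hb _ v _ ?_
  exact verticalStrip_anti_right _ hτ (by simpa using hn)

lemma slash_neg_one (hk : Even k) (f : ℍ → ℂ) : f ∣[k] (-1 : SL(2, ℤ)) = f := by
  funext τ
  rw [ModularForm.SL_slash_apply, ModularGroup.SL_neg_smul, one_smul, ModularGroup.denom_apply]
  simp [hk.neg_one_zpow]

lemma poinc_injective [Finite G] (hN : 0 < N) (hp : Function.Surjective p) (hneg : p (-1) = 1)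
    (hw : ∀ x, ‖w x‖ ≤ 1)
    (hw' : ∀ x, w (x * p ModularGroup.T) = cexp (2 * π * I / (N : ℝ)) * w x)
    (hw1 : w 1 = 1) (hw2 : ∀ x, w x = 1 → x = 1) :
    ∃ k : ℤ, 3 ≤ k ∧ Even k ∧ Function.Injective (poinc p w N k) := by
  classical
  let τ : ℍ := ⟨2 * I, by simp⟩
  let v₁ : PrimVec := ⟨![0, 1], by simpa using isCoprime_one_right⟩
  let v₂ : PrimVec := ⟨![0, -1], by simpa using isCoprime_one_right.neg_right⟩
  have hv : ∀ v : PrimVec, v.1 0 = 0 → v = v₁ ∨ v = v₂ := by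
    intro v hv
    have h1 := v.2
    rw [hv, isCoprime_zero_left, Int.isUnit_iff] at h1
    rcases h1 with h1 | h1
    · left; ext i; fin_cases i <;> simp [v₁, hv, h1]
    · right; ext i; fin_cases i <;> simp [v₂, hv, h1]
  have hge : ∀ v : PrimVec, v.1 0 ≠ 0 → 2 ≤ ‖(v.1 0 : ℂ) * τ + v.1 1‖ := by
    intro v hv
    refine le_trans ?_ (Complex.abs_im_le_norm _)
    have h1 : (1 : ℝ) ≤ |(v.1 0 : ℝ)| := by exact_mod_cast Int.one_le_abs hv
    have h2 : ((v.1 0 : ℂ) * τ + v.1 1).im = v.1 0 * 2 := by simp [τ]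
    rw [h2, abs_mul, abs_two]
    linarith
  have hge1 : ∀ v : PrimVec, 1 ≤ ‖(v.1 0 : ℂ) * τ + v.1 1‖ := by
    intro v
    by_cases h : v.1 0 = 0
    · rcases hv v h with rfl | rfl <;> simp [v₁, v₂]
    · linarith [hge v h]
  have hterm : ∀ (n : ℕ) g (v : PrimVec), v.1 0 = 0 →
      term p w N (2 * n + 4) g (mat v) τ = w g * qFun N τ := by
    intro n g v h
    rcases hv v h with rfl | rfl
    · rw [term_row hw' g (γ := 1) (by rw [mat_row]; ext i; fin_cases i <;> simp [v₁])]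
      simp [term]
    · rw [term_row hw' g (γ := -1) (by rw [mat_row]; ext i; fin_cases i <;> simp [v₂])]
      rw [term, slash_neg_one ⟨n + 2, by ring⟩, hneg]
      simp
  have hlim : ∀ g, Tendsto (fun n : ℕ => poinc p w N (2 * n + 4) g τ) atTop
      (𝓝 (2 * (w g * qFun N τ))) := by
    intro g
    have hsum : Summable fun v : PrimVec => ‖(v.1 0 : ℂ) * τ + v.1 1‖ ^ (-4 : ℤ) := by
      have := (EisensteinSeries.summable_norm_eisSummand (k := 4) (by norm_num) τ).subtype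
        (fun v => IsCoprime (v 0) (v 1))
      simpa [EisensteinSeries.eisSummand, Function.comp_def] using this
    have h1 := tendsto_tsum_of_dominated_convergence (𝓕 := atTop)
      (f := fun (n : ℕ) (v : PrimVec) => term p w N (2 * n + 4) g (mat v) τ)
      (g := fun v => if v.1 0 = 0 then w g * qFun N τ else 0) hsum (fun v => ?_)
      (Eventually.of_forall fun n v => ?_)
    · have h2 : ∑' v : PrimVec, (if v.1 0 = 0 then w g * qFun N τ else 0) =
          2 * (w g * qFun N τ) := by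
        have hne : v₁ ≠ v₂ := fun h => by
          have := congrFun (congrArg Subtype.val h) 1
          simp [v₁, v₂] at this
        rw [tsum_eq_sum (s := {v₁, v₂}) (fun v hv' => by
          rw [if_neg]
          intro h
          rcases hv v h with rfl | rfl <;> simp at hv'), Finset.sum_pair hne]
        simp [v₁, v₂, two_mul]
      rw [h2] at h1
      exact h1
    · split_ifs with h
      · simp only [hterm _ g v h]
        exact tendsto_const_nhds
      · rw [tendsto_zero_iff_norm_tendsto_zero]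
        refine squeeze_zero (fun n => norm_nonneg _) (fun n => ?_)
          (tendsto_pow_atTop_nhds_zero_of_lt_one (r := 2⁻¹) (by norm_num) (by norm_num))
        refine (norm_term_le hN hw g v τ).trans ?_
        calc ‖(v.1 0 : ℂ) * τ + v.1 1‖ ^ (-(2 * (n : ℤ) + 4))
            ≤ ‖(v.1 0 : ℂ) * τ + v.1 1‖ ^ (-(n : ℤ)) :=
              zpow_le_zpow_right₀ (hge1 v) (by omega)
          _ ≤ (2⁻¹ : ℝ) ^ n := by
              rw [zpow_neg, zpow_natCast, ← inv_pow]
              gcongr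
              exact hge v h
    · exact (norm_term_le hN hw g v τ).trans (zpow_le_zpow_right₀ (hge1 v) (by omega))
  have hev : ∀ᶠ n : ℕ in atTop, ∀ x : G, x ≠ 1 →
      poinc p w N (2 * n + 4) 1 τ ≠ poinc p w N (2 * n + 4) x τ := by
    rw [eventually_all]
    intro x
    by_cases hx : x = 1
    · simp [hx]
    · have h1 := (hlim 1).sub (hlim x)
      have h2 : 2 * (w 1 * qFun N τ) - 2 * (w x * qFun N τ) ≠ 0 := by
        have h3 : qFun N τ ≠ 0 := Complex.exp_ne_zero _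
        have h4 : 1 - w x ≠ 0 := fun h => hx (hw2 x (sub_eq_zero.mp h).symm)
        rw [hw1, show 2 * (1 * qFun N τ) - 2 * (w x * qFun N τ) = 2 * (1 - w x) * qFun N τ by ring]
        exact mul_ne_zero (mul_ne_zero two_ne_zero h4) h3
      filter_upwards [h1.eventually_ne h2] with n hn _
      exact sub_ne_zero.mp hn
  obtain ⟨n, hn⟩ := hev.exists
  refine ⟨2 * n + 4, by omega, ⟨n + 2, by ring⟩, fun g g' hg => ?_⟩
  obtain ⟨δ, hδ⟩ := hp g⁻¹
  have h1 := congrArg (fun f => (f ∣[(2 * n + 4 : ℤ)] δ) τ) hg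
  simp only [poinc_slash hw', hδ, mul_inv_cancel] at h1
  by_contra hne
  exact hn _ (fun h => hne (mul_inv_eq_one.mp h).symm) h1

lemma periodic_of_slash_T_pow {f : ℍ → ℂ} (N : ℕ) (h : f ∣[k] (ModularGroup.T ^ N) = f) :
    Periodic (f ∘ ofComplex) (N : ℝ) := by
  intro z
  by_cases! hz : 0 < z.im
  · have h1 : 0 < (z + (N : ℝ)).im := by simp [hz]
    simp only [comp_apply, ofComplex_apply_of_im_pos h1, ofComplex_apply_of_im_pos hz]
    have h2 := congrFun h ⟨z, hz⟩
    rw [ModularForm.SL_slash_apply, ← zpow_natCast, UpperHalfPlane.modular_T_zpow_smul,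
      ModularGroup.denom_apply, ModularGroup.coe_T_zpow] at h2
    simp only [Matrix.of_apply, Matrix.cons_val', Matrix.cons_val_zero, Matrix.cons_val_one,
      Matrix.cons_val_fin_one, Int.cast_zero, zero_mul, Int.cast_one, zero_add, one_zpow,
      mul_one] at h2
    rw [← h2]
    congr 1
    ext1
    simp [add_comm]
  · have : (z + (N : ℝ)).im ≤ 0 := by simpa using hz
    simp only [comp_apply, ofComplex_apply_of_im_nonpos this, ofComplex_apply_of_im_nonpos hz]

theorem exists_vv [Finite G] (p : SL(2, ℤ) →* G) (hp : Function.Surjective p) (hneg : p (-1) = 1) :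
    ∃ (k : ℤ) (F : G → ℍ → ℂ) (a : G → ℂ⟦X⟧), Even k ∧
      (∀ g, Rep (orderOf (p ModularGroup.T) : ℕ) (a g) (F g)) ∧
      (∀ g γ, F g ∣[k] γ = F (g * p γ)) ∧ Function.Injective F := by
  set N := orderOf (p ModularGroup.T) with hNdef
  have hN : 0 < N := orderOf_pos _
  have hN' : (0 : ℝ) < N := by exact_mod_cast hN
  obtain ⟨w, hw', hw, hw1, hw2⟩ := exists_weight_fun (p ModularGroup.T)
    (ζ := cexp (2 * π * I / (N : ℝ))) hN (by simpa using Complex.isPrimitiveRoot_exp N hN.ne')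
  obtain ⟨k, hk, hk2, hinj⟩ := poinc_injective hN hp hneg hw hw' hw1 hw2
  refine ⟨k, poinc p w N k, fun g => qExpansion N (poinc p w N k g), hk2, fun g => ?_,
    poinc_slash hw', hinj⟩
  refine rep_qExpansion hN' (periodic_of_slash_T_pow (k := k) N ?_) (poinc_mdiff hN hk hw g)
    (poinc_bdd hN hk hw hw' g)
  rw [poinc_slash hw', map_pow, hNdef, pow_orderOf_eq_one, mul_one]

end Pool.Agent.MP_07c73e_al.H96
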