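import Mathlib

/-!
Finite permutation representations of free groups: residual finiteness, and separability of the
conjugacy class of a generator.
-/

namespace Pool.Agent.MP_07c73e_al.H96

open FreeGroup

section doubling

variable {Γ Ω : Type} [Group Γ] [MulAction Γ Ω]

open Classical in
/-- The involution attached to a group element and a finite set of points. -/
noncomputable def dblFun (S : Finset Ω) (g : Γ) : S × Bool → S × Bool
  | (v, false) => if h : g • (v : Ω) ∈ S then (⟨g • v, h⟩, true) else (v, false)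
  | (v, true) => if h : g⁻¹ • (v : Ω) ∈ S then (⟨g⁻¹ • v, h⟩, false) else (v, true)

lemma dblFun_invol (S : Finset Ω) (g : Γ) : Function.Involutive (dblFun S g) := by
  rintro ⟨v, _ | _⟩
  · by_cases h : g • (v : Ω) ∈ S
    · simp [dblFun, h]
    · simp [dblFun, h]
  · by_cases h : g⁻¹ • (v : Ω) ∈ S
    · simp [dblFun, h]
    · simp [dblFun, h]

/-- Flipping the second coordinate. -/
def flipPerm (V : Type) : Equiv.Perm (V × Bool) :=
  Function.Involutive.toPerm (fun z => (z.1, !z.2)) (fun z => by simp)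

/-- A permutation of two copies of `S` extending the action of `g` where it is defined on `S`. -/
noncomputable def dblPerm (S : Finset Ω) (g : Γ) : Equiv.Perm (S × Bool) :=
  flipPerm S * (dblFun_invol S g).toPerm

lemma dblPerm_apply (S : Finset Ω) (g : Γ) (v : S) (h : g • (v : Ω) ∈ S) :
    dblPerm S g (v, false) = (⟨g • v, h⟩, false) := by
  simp [dblPerm, flipPerm, dblFun, h]

lemma dblPerm_fixed (S : Finset Ω) (g : Γ) (z : S × Bool) (hz : dblPerm S g z = z) :
    ∃ u : Ω, g • u = u := by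
  obtain ⟨v, _ | _⟩ := z
  · by_cases h : g • (v : Ω) ∈ S
    · refine ⟨v, ?_⟩
      simpa [dblPerm, flipPerm, dblFun, h, Subtype.ext_iff] using hz
    · simp [dblPerm, flipPerm, dblFun, h] at hz
  · by_cases h : g⁻¹ • (v : Ω) ∈ S
    · refine ⟨v, ?_⟩
      have : g⁻¹ • (v : Ω) = v := by
        simpa [dblPerm, flipPerm, dblFun, h, Subtype.ext_iff] using hz
      rw [inv_smul_eq_iff] at this
      exact this.symm
    · simp [dblPerm, flipPerm, dblFun, h] at hz

end doubling

variable {α Ω : Type} [MulAction (FreeGroup α) Ω]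

/-- The finite permutation representation attached to a finite set of points. -/
noncomputable def dblRep (S : Finset Ω) : FreeGroup α →* Equiv.Perm (S × Bool) :=
  FreeGroup.lift fun a => dblPerm S (of a : FreeGroup α)

lemma exists_path (w : FreeGroup α) : ∀ ω : Ω, ∃ S₀ : Finset Ω, ω ∈ S₀ ∧ w • ω ∈ S₀ ∧
    ∀ S : Finset Ω, S₀ ⊆ S → ∀ (h1 : ω ∈ S) (h2 : w • ω ∈ S),
      dblRep S w (⟨ω, h1⟩, false) = (⟨w • ω, h2⟩, false) := by
  classical
  induction w using FreeGroup.induction_on with
  | C1 => exact fun ω => ⟨{ω}, by simp, by simp, fun S _ h1 h2 => by simp⟩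
  | of a =>
    refine fun ω => ⟨{ω, (of a : FreeGroup α) • ω}, by simp, by simp, fun S _ h1 h2 => ?_⟩
    simpa [dblRep] using dblPerm_apply S (of a : FreeGroup α) ⟨ω, h1⟩ h2
  | inv_of a _ =>
    refine fun ω => ⟨{ω, (of a : FreeGroup α)⁻¹ • ω}, by simp, by simp, fun S _ h1 h2 => ?_⟩
    have := dblPerm_apply S (of a : FreeGroup α) ⟨_, h2⟩ (by simpa using h1)
    rw [_root_.map_inv, Equiv.Perm.inv_eq_iff_eq]
    simpa [dblRep] using this.symm
  | mul x y hx hy =>
    intro ω
    obtain ⟨S₁, h11, h12, h13⟩ := hy ω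
    obtain ⟨S₂, h21, h22, h23⟩ := hx (y • ω)
    refine ⟨S₁ ∪ S₂, by simp [h11], by simp [mul_smul, h22], fun S hS h1 h2 => ?_⟩
    have e1 := h13 S (Finset.subset_union_left.trans hS) h1 (hS (by simp [h12]))
    have e2 := h23 S (Finset.subset_union_right.trans hS) (hS (by simp [h12]))
      (hS (by simp [h22]))
    rw [_root_.map_mul, Equiv.Perm.mul_apply, e1, e2]
    simp [mul_smul]

theorem free_residually_finite (w : FreeGroup α)
    (h : ∀ (H : Type) [Group H] [Finite H] (f : FreeGroup α →* H), f w = 1) : w = 1 := by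
  obtain ⟨S, h1, h2, h3⟩ := exists_path w (1 : FreeGroup α)
  have := h3 S (Finset.Subset.refl _) h1 h2
  rw [h _ (dblRep S)] at this
  simpa [Subtype.ext_iff, eq_comm] using this

theorem free_conj_separable (a : α) (w : FreeGroup α)
    (h : ∀ (H : Type) [Group H] [Finite H] (f : FreeGroup α →* H), IsConj (f (of a)) (f w)) :
    IsConj (of a) w := by
  classical
  obtain ⟨S, h1, h2, h3⟩ := exists_path w
    (QuotientGroup.mk 1 : FreeGroup α ⧸ Subgroup.zpowers w)
  have hfix : w • (QuotientGroup.mk 1 : FreeGroup α ⧸ Subgroup.zpowers w) =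
      QuotientGroup.mk 1 := by
    rw [MulAction.Quotient.smul_mk, QuotientGroup.eq]
    simp
  have h4 := h3 S (Finset.Subset.refl _) h1 h2
  simp only [hfix] at h4
  obtain ⟨c, hc⟩ := isConj_iff.mp (h _ (dblRep S))
  have h5 : dblPerm S (of a : FreeGroup α) (c⁻¹ (⟨_, h1⟩, false)) = c⁻¹ (⟨_, h1⟩, false) := by
    rw [← hc] at h4
    rw [Equiv.Perm.eq_inv_iff_eq]
    simpa [dblRep] using h4
  obtain ⟨u, hu⟩ := dblPerm_fixed S _ _ h5
  obtain ⟨g, rfl⟩ := QuotientGroup.mk_surjective u
  rw [MulAction.Quotient.smul_mk, eq_comm, QuotientGroup.eq] at hu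
  obtain ⟨k, hk⟩ := Subgroup.mem_zpowers_iff.mp hu
  let ε : FreeGroup α →* Multiplicative ℤ :=
    FreeGroup.lift fun b => Multiplicative.ofAdd (if b = a then 1 else 0)
  have e1 : k * (ε w).toAdd = 1 := by
    have := congrArg (fun x => (ε x).toAdd) hk
    simpa [ε] using this
  have e2 : (((ε w).toAdd : ℤ) : ZMod 3) = 1 := by
    have := h _ ((Int.castAddHom (ZMod 3)).toMultiplicative.comp ε)
    rw [isConj_iff_eq] at this
    have h6 := congrArg Multiplicative.toAdd this
    simpa [ε] using h6.symm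
  have e3 : (ε w).toAdd = 1 := by
    rcases Int.isUnit_iff.mp (IsUnit.of_mul_eq_one_right _ e1) with h7 | h7
    · exact h7
    · rw [h7] at e2
      exact absurd e2 (by decide)
  rw [e3, mul_one] at e1
  rw [e1, zpow_one, smul_eq_mul] at hk
  exact isConj_iff.mpr ⟨g⁻¹, by rw [hk]; group⟩

end Pool.Agent.MP_07c73e_al.H96
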