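import Pool.Agent.MP_07c73e_al.H96.Defs
import Pool.Agent.MP_07c73e_al.H96.Modular
import Pool.Agent.MP_07c73e_al.H96.Artin
import Pool.Agent.MP_07c73e_al.H96.Sep

/-!
The free profinite group of rank three: an exotic loop automorphism.
-/

namespace Pool.Agent.MP_07c73e_al.H96

open Filter Topology FreeGroup

variable {P : Type} [Group P] [TopologicalSpace P] [IsTopologicalGroup P]

/-- The kernel of a homomorphism with open kernel. -/
def kerOpen {H : Type} [Group H] (f : P →* H) (hf : IsOpen (f.ker : Set P)) :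
    OpenNormalSubgroup P := ⟨⟨f.ker, hf⟩, inferInstance⟩

omit [IsTopologicalGroup P] in
lemma eq_of_mem_kerOpen {H : Type} [Group H] {f : P →* H} {hf : IsOpen (f.ker : Set P)} {x y : P}
    (h : x⁻¹ * y ∈ kerOpen f hf) : f x = f y := by
  have : f (x⁻¹ * y) = 1 := h
  rwa [_root_.map_mul, _root_.map_inv, inv_mul_eq_one] at this

lemma hom_eq_of_dense {Γ H : Type} [Group Γ] [Group H] {j : Γ →* P} (hj : DenseRange j)
    {f g : P →* H} (hf : IsOpen (f.ker : Set P)) (hg : IsOpen (g.ker : Set P))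
    (h : ∀ w, f (j w) = g (j w)) : f = g := by
  let : TopologicalSpace H := ⊥
  have : DiscreteTopology H := ⟨rfl⟩
  exact DFunLike.ext' (hj.equalizer (continuous_of_isOpen_ker f hf)
    (continuous_of_isOpen_ker g hg) (funext h))

variable [CompactSpace P] [TotallyDisconnectedSpace P]

lemma mem_of_forall_open {R : Subgroup P} (hR : IsClosed (R : Set P)) {x : P}
    (h : ∀ U : OpenNormalSubgroup P, ∃ r ∈ R, x⁻¹ * r ∈ U) : x ∈ R := by
  by_contra hx
  obtain ⟨U, hU⟩ := ProfiniteGrp.exist_openNormalSubgroup_sub_open_nhds_of_one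
    (U := (fun z => x * z) ⁻¹' (R : Set P)ᶜ) (hR.isOpen_compl.preimage (by fun_prop))
    (by simpa using hx)
  obtain ⟨r, hr, hr'⟩ := h U
  have := hU hr'
  simp [hr] at this

lemma eq_one_of_forall_open {x : P} (h : ∀ U : OpenNormalSubgroup P, x ∈ U) : x = 1 := by
  have := mem_of_forall_open (R := ⊥) (x := x) isClosed_singleton
    (fun U => ⟨1, one_mem _, by simpa using h U⟩)
  simpa using this

lemma hopf {α : Type} [Finite α] {j : FreeGroup α →* P} (hj : DenseRange j) (ψ : P →* P)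
    (hc : Continuous ψ) (hs : Function.Surjective ψ) : Function.Injective ψ := by
  rw [injective_iff_map_eq_one]
  intro x hx
  refine eq_one_of_forall_open fun U => ?_
  let Φ := {f : P →* P ⧸ U.toSubgroup // IsOpen (f.ker : Set P)}
  have : Finite Φ := by
    refine Finite.of_injective (fun (f : Φ) (a : α) => f.1 (j (of a))) fun f g h => ?_
    refine Subtype.ext (hom_eq_of_dense hj f.2 g.2 fun w => ?_)
    have : f.1.comp j = g.1.comp j := by
      ext1 a
      exact congrFun h a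
    exact DFunLike.congr_fun this w
  let c : Φ → Φ := fun f => ⟨f.1.comp ψ, f.2.preimage hc⟩
  have hinj : Function.Injective c := fun f g h =>
    Subtype.ext ((MonoidHom.cancel_right hs).mp (congrArg Subtype.val h))
  obtain ⟨f, hf⟩ := Finite.injective_iff_surjective.mp hinj ⟨_, isOpen_ker_mk U⟩
  have h1 : f.1 (ψ x) = QuotientGroup.mk' U.toSubgroup x :=
    DFunLike.congr_fun (congrArg Subtype.val hf) x
  rw [hx, _root_.map_one] at h1
  exact (QuotientGroup.eq_one_iff x).mp h1.symm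

omit [TotallyDisconnectedSpace P] in
lemma exists_cluster (u v : OpenNormalSubgroup P → P) : ∃ a b : P, ∀ U₀ : OpenNormalSubgroup P,
    ∃ U ≤ U₀, a⁻¹ * u U ∈ U₀ ∧ b⁻¹ * v U ∈ U₀ := by
  have : Nonempty (OpenNormalSubgroup P) := ⟨⟨⊤, inferInstanceAs (⊤ : Subgroup P).Normal⟩⟩
  obtain ⟨⟨a, b⟩, hab⟩ := exists_clusterPt_of_compactSpace
    (Filter.map (fun U => (u U, v U)) atBot)
  refine ⟨a, b, fun U₀ => ?_⟩
  have h2 : IsOpen {z : P × P | a⁻¹ * z.1 ∈ U₀ ∧ b⁻¹ * z.2 ∈ U₀} :=
    (U₀.isOpen'.preimage (f := fun z : P × P => a⁻¹ * z.1) (by fun_prop)).inter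
      (U₀.isOpen'.preimage (f := fun z : P × P => b⁻¹ * z.2) (by fun_prop))
  have h1 := mapClusterPt_iff_frequently.mp hab _ (h2.mem_nhds (by simp))
  obtain ⟨U, hU1, hU2⟩ := (h1.and_eventually (eventually_le_atBot U₀)).exists
  exact ⟨U, hU2, hU1⟩

/-- `j` presents `P` as the free profinite group of rank three. -/
structure FreeData (j : F3 →* P) : Prop where
  dense : DenseRange j
  ext : ∀ (Q : Type) [Group Q] [TopologicalSpace Q] [IsTopologicalGroup Q] [CompactSpace Q]
    [TotallyDisconnectedSpace Q] (f : F3 →* Q),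
    ∃ f' : P →* Q, Continuous f' ∧ ∀ w, f' (j w) = f w

variable {j : F3 →* P}

omit [IsTopologicalGroup P] [CompactSpace P] [TotallyDisconnectedSpace P] in
lemma FreeData.ext_fin (h : FreeData j) {H : Type} [Group H] [Finite H] (f : F3 →* H) :
    ∃ f' : P →* H, IsOpen (f'.ker : Set P) ∧ ∀ w, f' (j w) = f w := by
  let : TopologicalSpace H := ⊥
  have : DiscreteTopology H := ⟨rfl⟩
  obtain ⟨f', h1, h2⟩ := h.ext H f
  exact ⟨f', (isOpen_discrete {1}).preimage h1, h2⟩

omit [IsTopologicalGroup P] [CompactSpace P] [TotallyDisconnectedSpace P] in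
lemma FreeData.injective (h : FreeData j) : Function.Injective j := by
  rw [injective_iff_map_eq_one]
  intro w hw
  refine free_residually_finite w fun H _ _ f => ?_
  obtain ⟨f', -, hf⟩ := h.ext_fin f
  rw [← hf, hw, _root_.map_one]

omit [IsTopologicalGroup P] [CompactSpace P] [TotallyDisconnectedSpace P] in
lemma FreeData.isConj (h : FreeData j) (e : MulAut F3) (a : Fin 3) {w : F3}
    (hw : IsConj (j (e (of a))) (j w)) : IsConj (e (of a)) w := by
  have h1 : IsConj (of a) (e.symm w) := by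
    refine free_conj_separable a _ fun H _ _ f => ?_
    obtain ⟨f', -, hf⟩ := h.ext_fin (f.comp e.symm.toMonoidHom)
    have := f'.map_isConj hw
    simpa [hf] using this
  simpa using e.toMonoidHom.map_isConj h1

lemma FreeData.exists_aut (h : FreeData j) (f : F3 →* P)
    (hs : ∀ R : Subgroup P, IsClosed (R : Set P) → (∀ i, f (of i) ∈ R) → ∀ i, j (of i) ∈ R) :
    ∃ ψ : MulAut P, Continuous ψ ∧ ∀ w, ψ (j w) = f w := by
  obtain ⟨ψ, h1, h2⟩ := h.ext P f
  have hcl : IsClosed (ψ.range : Set P) := (isCompact_range h1).isClosed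
  have h3 := hs ψ.range hcl fun i => ⟨_, h2 _⟩
  have h4 : ∀ w, j w ∈ ψ.range := by
    intro w
    induction w using FreeGroup.induction_on with
    | C1 => simp
    | of i => exact h3 i
    | inv_of i h => simpa using h
    | mul x y hx hy => simpa using mul_mem hx hy
  have hsurj : Function.Surjective ψ := fun y =>
    h.dense.induction_on (p := fun y => y ∈ ψ.range) y hcl h4
  exact ⟨MulEquiv.ofBijective ψ ⟨hopf h.dense ψ h1 hsurj, hsurj⟩, h1, h2⟩

/-- The representation that kills the first loop. -/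
def rho1 : F3 →* G7 := FreeGroup.lift ![1, (X7 * Y7)⁻¹, X7]

/-- The representation that kills the third loop. -/
def rho3 : F3 →* G7 := FreeGroup.lift ![X7, Y7, 1]

/-- The inclusion of the free group of rank two. -/
def incl : F2 →* F3 := FreeGroup.lift ![of 0, of 1]

@[simp] lemma rho1_0 : rho1 (of 0) = 1 := by simp [rho1]
@[simp] lemma rho1_1 : rho1 (of 1) = (X7 * Y7)⁻¹ := by simp [rho1]
@[simp] lemma rho1_2 : rho1 (of 2) = X7 := by simp [rho1]
@[simp] lemma rho3_0 : rho3 (of 0) = X7 := by simp [rho3]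
@[simp] lemma rho3_1 : rho3 (of 1) = Y7 := by simp [rho3]
@[simp] lemma rho3_2 : rho3 (of 2) = 1 := by simp [rho3]
@[simp] lemma incl_0 : incl (of 0) = of 0 := by simp [incl]
@[simp] lemma incl_1 : incl (of 1) = of 1 := by simp [incl]

lemma rho3_incl (w : F2) : rho3 (incl w) = rho0 w := by
  have : rho3.comp incl = rho0 := by
    ext1 i
    fin_cases i <;> simp
  exact DFunLike.congr_fun this w

lemma rho1_incl (w : F2) : rho1 (incl w) ∈ Subgroup.zpowers (X7 * Y7) := by
  induction w using FreeGroup.induction_on with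
  | C1 => simp
  | of i =>
    fin_cases i
    · simp
    · simpa using inv_mem (Subgroup.mem_zpowers (X7 * Y7))
  | inv_of i h => simpa using h
  | mul x y hx hy => simpa using mul_mem hx hy

theorem FreeData.exists_exotic (h : FreeData j) {ρ1 ρ3 : P →* G7} (o1 : IsOpen (ρ1.ker : Set P))
    (o3 : IsOpen (ρ3.ker : Set P)) (e1 : ∀ w, ρ1 (j w) = rho1 w) (e3 : ∀ w, ρ3 (j w) = rho3 w) :
    ∃ ψ : MulAut P, Continuous ψ ∧ ∃ a b : P, ψ (j (of 0)) = a * j (of 0) * a⁻¹ ∧
      ψ (j (of 1)) = b * j (of 1) * b⁻¹ ∧ ψ (j (of 2)) = j (of 2) ∧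
      ψ (j (of 0)) * ψ (j (of 1)) = j (of 0) * j (of 1) ∧
      ρ1 a ∈ Subgroup.zpowers (X7 * Y7) ∧ ρ1 b ∈ Subgroup.zpowers (X7 * Y7) ∧
      ¬ ∃ g : G7, ρ3 (ψ (j (of 0))) = g * X7 * g⁻¹ ∧ ρ3 (ψ (j (of 1))) = g * Y7 * g⁻¹ := by
  choose u v h1 h2 h3 using fun U : OpenNormalSubgroup P =>
    exotic_finite_level ((QuotientGroup.mk' U.toSubgroup).comp (j.comp incl))
  obtain ⟨a, b, hab⟩ := exists_cluster (fun U => j (incl (u U))) (fun U => j (incl (v U)))
  -- approximation with respect to any homomorphism with open kernel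
  have happ : ∀ {H : Type} [Group H] (f : P →* H) (hf : IsOpen (f.ker : Set P)),
      ∃ U : OpenNormalSubgroup P, (∀ x ∈ U, f x = 1) ∧ f a = f (j (incl (u U))) ∧
        f b = f (j (incl (v U))) := by
    intro H _ f hf
    obtain ⟨U, hU, ha, hb⟩ := hab (kerOpen f hf)
    exact ⟨U, fun x hx => hU hx, eq_of_mem_kerOpen ha, eq_of_mem_kerOpen hb⟩
  have hrel : a * j (of 0) * a⁻¹ * (b * j (of 1) * b⁻¹) = j (of 0) * j (of 1) := by
    rw [← inv_mul_eq_one]
    refine eq_one_of_forall_open fun U₀ => ?_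
    obtain ⟨U, hU, ha, hb⟩ := happ _ (isOpen_ker_mk U₀)
    have h4 := hU _ (QuotientGroup.eq.mp (h1 U))
    refine (QuotientGroup.eq_one_iff (N := U₀.toSubgroup) _).mp ?_
    rw [← QuotientGroup.mk'_apply]
    simpa only [_root_.map_mul, _root_.map_inv, ha, hb, MonoidHom.comp_apply, incl_0, incl_1]
      using h4
  obtain ⟨ψ, hψ1, hψ2⟩ := h.exists_aut
    (FreeGroup.lift ![a * j (of 0) * a⁻¹, b * j (of 1) * b⁻¹, j (of 2)]) (by
      intro R hR hgen
      have g0 : a * j (of 0) * a⁻¹ ∈ R := by simpa using hgen 0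
      have g1 : b * j (of 1) * b⁻¹ ∈ R := by simpa using hgen 1
      have g2 : j (of 2) ∈ R := by simpa using hgen 2
      have key : ∀ w : F2, j (incl w) ∈ R := by
        intro w
        refine mem_of_forall_open hR fun U₀ => ?_
        obtain ⟨U, hU, ha, hb⟩ := happ _ (isOpen_ker_mk U₀)
        let q : P ⧸ U.toSubgroup →* P ⧸ U₀.toSubgroup :=
          QuotientGroup.lift _ (QuotientGroup.mk' U₀.toSubgroup) hU
        have h5 : Subgroup.closure {((QuotientGroup.mk' U.toSubgroup).comp (j.comp incl))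
            (u U * of 0 * (u U)⁻¹), ((QuotientGroup.mk' U.toSubgroup).comp (j.comp incl))
            (v U * of 1 * (v U)⁻¹)} ≤ (R.map (QuotientGroup.mk' U₀.toSubgroup)).comap q := by
          rw [Subgroup.closure_le]
          rintro _ (rfl | rfl)
          · refine ⟨_, g0, ?_⟩
            change _ = QuotientGroup.mk' U₀.toSubgroup (j (incl (u U * of 0 * (u U)⁻¹)))
            simp only [_root_.map_mul, _root_.map_inv, ha, incl_0]
          · refine ⟨_, g1, ?_⟩
            change _ = QuotientGroup.mk' U₀.toSubgroup (j (incl (v U * of 1 * (v U)⁻¹)))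
            simp only [_root_.map_mul, _root_.map_inv, hb, incl_1]
        obtain ⟨r, hr, hr'⟩ := h5 (h2 U w)
        exact ⟨r, hr, QuotientGroup.eq.mp hr'.symm⟩
      intro i
      fin_cases i
      · simpa using key (of 0)
      · simpa using key (of 1)
      · exact g2)
  have k0 : ψ (j (of 0)) = a * j (of 0) * a⁻¹ := by simp [hψ2]
  have k1 : ψ (j (of 1)) = b * j (of 1) * b⁻¹ := by simp [hψ2]
  refine ⟨ψ, hψ1, a, b, k0, k1, by simp [hψ2], by rw [k0, k1, hrel], ?_, ?_, ?_⟩
  · obtain ⟨U, -, ha, -⟩ := happ ρ1 o1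
    rw [ha, e1]
    exact rho1_incl _
  · obtain ⟨U, -, -, hb⟩ := happ ρ1 o1
    rw [hb, e1]
    exact rho1_incl _
  · obtain ⟨U, -, ha, hb⟩ := happ ρ3 o3
    have := h3 U
    simpa only [k0, k1, _root_.map_mul, _root_.map_inv, ha, hb, e3, rho3_incl, rho3_0, rho3_1,
      rho0_0, rho0_1] using this

/-- The finite group of pairs of a permutation of two copies of `G7` and an element of `G7` that
describes its effect on the first coordinate. -/
def lampGroup : Subgroup (Equiv.Perm (G7 × Bool) × G7) where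
  carrier := {z | ∀ y, (z.1 y).1 = z.2 * y.1}
  one_mem' y := by simp
  mul_mem' {a b} ha hb y := by
    rw [Prod.fst_mul, Equiv.Perm.mul_apply, ha, hb, Prod.snd_mul, mul_assoc]
  inv_mem' {a} ha y := by
    have := ha (a.1⁻¹ y)
    have h2 : a.1 (a.1⁻¹ y) = y := by simp
    rw [h2] at this
    rw [this]
    simp

omit [CompactSpace P] [TotallyDisconnectedSpace P] in
lemma FreeData.exists_lamp (h : FreeData j) (ρ : F3 →* G7) (i : Fin 3) (hi : ρ (of i) = 1) :
    ∃ (ρ' : P →* G7) (U : OpenNormalSubgroup P), IsOpen (ρ'.ker : Set P) ∧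
      (∀ w, ρ' (j w) = ρ w) ∧ (∀ x y, x⁻¹ * y ∈ U → ρ' x = ρ' y) ∧
      ∀ A A', (A * j (of i) * A⁻¹)⁻¹ * (A' * j (of i) * A'⁻¹) ∈ U → ρ' A = ρ' A' := by
  classical
  let e : Equiv.Perm (G7 × Bool) := Equiv.swap (1, false) (1, true)
  have he : ((e, 1) : Equiv.Perm (G7 × Bool) × G7) ∈ lampGroup := by
    intro y
    simp only [e, Equiv.swap_apply_def, one_mul]
    split_ifs with h1 h2
    · simp [h1]
    · simp [h2]
    · rfl
  let Ω : F3 →* lampGroup := FreeGroup.lift fun k => if k = i then ⟨(e, 1), he⟩ else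
    ⟨(Equiv.prodCongr (Equiv.mulLeft (ρ (of k))) (Equiv.refl _), ρ (of k)), fun y => rfl⟩
  let s : lampGroup →* G7 := (MonoidHom.snd _ _).comp lampGroup.subtype
  have hs : s.comp Ω = ρ := by
    ext1 k
    by_cases hk : k = i
    · subst hk
      simp [s, Ω, hi]
    · simp [s, Ω, hk]
  obtain ⟨Ω', h1, h2⟩ := h.ext_fin Ω
  refine ⟨s.comp Ω', kerOpen Ω' h1, Subgroup.isOpen_mono (fun x hx => ?_) h1,
    fun w => ?_, fun x y hxy => ?_, fun A A' hA => ?_⟩
  · have : Ω' x = 1 := hx
    simp [this]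
  · rw [MonoidHom.comp_apply, h2, ← hs]
    rfl
  · rw [MonoidHom.comp_apply, eq_of_mem_kerOpen hxy]
    rfl
  · have h3 := eq_of_mem_kerOpen hA
    have h4 : Ω' (j (of i)) = ⟨(e, 1), he⟩ := by simp [h2, Ω]
    set μ := Ω' (A'⁻¹ * A) with hμ
    have h5 : μ * ⟨(e, 1), he⟩ = ⟨(e, 1), he⟩ * μ := by
      simp only [_root_.map_mul, _root_.map_inv, h4] at h3
      rw [hμ, _root_.map_mul, _root_.map_inv, mul_assoc, inv_mul_eq_iff_eq_mul, ← mul_assoc,
        ← mul_assoc, ← h3]
      simp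
    have h6 : μ.1.1 (e (1, false)) = e (μ.1.1 (1, false)) :=
      DFunLike.congr_fun (congrArg (fun z : lampGroup => z.1.1) h5) (1, false)
    have h7 : (μ.1.1 (1, false)).1 = 1 := by
      by_contra hne
      rw [Equiv.swap_apply_left, Equiv.swap_apply_of_ne_of_ne (fun h => hne (by rw [h]))
        (fun h => hne (by rw [h]))] at h6
      simpa using μ.1.1.injective h6
    rw [μ.2, mul_one] at h7
    have h8 : (s.comp Ω') (A'⁻¹ * A) = 1 := h7
    rw [_root_.map_mul, _root_.map_inv, inv_mul_eq_one] at h8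
    exact h8.symm

end Pool.Agent.MP_07c73e_al.H96
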