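import Mathlib

/-!
Power series in the local parameter at the cusp, and the functions on the upper half plane
that they represent.
-/

namespace Pool.Agent.MP_07c73e_al.H96

open UpperHalfPlane hiding I
open PowerSeries Complex Function Filter Topology
open scoped Manifold MatrixGroups ModularForm Real

/-- The power series `a` converges on the open unit disc. -/
def Conv (a : ℂ⟦X⟧) : Prop :=
  ∀ r : ℝ, 0 ≤ r → r < 1 → Summable (fun n => ‖coeff n a‖ * r ^ n)

/-- The power series `a` in `exp (2 π i τ / h)` sums to `f τ` for every `τ`. -/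
def Rep (h : ℝ) (a : ℂ⟦X⟧) (f : ℍ → ℂ) : Prop :=
  ∀ τ : ℍ, HasSum (fun n => coeff n a * Periodic.qParam h τ ^ n) (f τ)

/-- The operator `q d/dq`. -/
noncomputable def thetaOp (a : ℂ⟦X⟧) : ℂ⟦X⟧ := PowerSeries.mk fun n => (n : ℂ) * coeff n a

variable {h : ℝ} {a b : ℂ⟦X⟧} {f g : ℍ → ℂ}

lemma Rep.conv (hh : 0 < h) (H : Rep h a f) : Conv a := by
  intro r hr0 hr1
  rcases hr0.eq_or_lt with rfl | hr0
  · refine summable_of_ne_finset_zero (s := {0}) ?_
    intro n hn
    have : n ≠ 0 := by simpa using hn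
    simp [this]
  · have hq : ‖(r : ℂ)‖ < 1 := by simpa [abs_of_pos hr0] using hr1
    have hq0 : (r : ℂ) ≠ 0 := by exact_mod_cast hr0.ne'
    have h1 := Periodic.im_invQParam_pos_of_norm_lt_one hh hq hq0
    have h2 := (H ⟨_, h1⟩).summable.norm
    simp only [Periodic.qParam_right_inv hh.ne' hq0, norm_mul, norm_pow, Complex.norm_real,
      Real.norm_eq_abs, abs_of_pos hr0] at h2
    exact h2

lemma Conv.summable_norm (H : Conv a) {q : ℂ} (hq : ‖q‖ < 1) :
    Summable (fun n => ‖coeff n a * q ^ n‖) := by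
  simpa [norm_mul, norm_pow] using H _ (norm_nonneg q) hq

lemma Conv.exists_rep (hh : 0 < h) (H : Conv a) : ∃ f, Rep h a f :=
  ⟨fun τ => ∑' n, coeff n a * Periodic.qParam h τ ^ n, fun τ =>
    (H.summable_norm (Periodic.norm_qParam_lt_one hh τ.im_pos)).of_norm.hasSum⟩

lemma Rep.unique_fun (H1 : Rep h a f) (H2 : Rep h a g) : f = g :=
  funext fun τ => (H1 τ).unique (H2 τ)

lemma Rep.add (H1 : Rep h a f) (H2 : Rep h b g) : Rep h (a + b) (f + g) := fun τ => by
  simpa [add_mul] using (H1 τ).add (H2 τ)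

lemma Rep.sub (H1 : Rep h a f) (H2 : Rep h b g) : Rep h (a - b) (f - g) := fun τ => by
  simpa [sub_mul] using (H1 τ).sub (H2 τ)

lemma Rep.smul (c : ℂ) (H1 : Rep h a f) : Rep h (c • a) (c • f) := fun τ => by
  simpa [mul_assoc] using (H1 τ).mul_left c

lemma Rep.zero : Rep h 0 0 := fun τ => by simp [hasSum_zero]

lemma Rep.one : Rep h 1 1 := fun τ => by
  have := hasSum_single (f := fun n => coeff n (1 : ℂ⟦X⟧) * Periodic.qParam h τ ^ n) 0
    (fun n hn => by simp [coeff_one, hn])
  simpa using this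

lemma Rep.mul (hh : 0 < h) (H1 : Rep h a f) (H2 : Rep h b g) : Rep h (a * b) (f * g) := fun τ => by
  have hq := Periodic.norm_qParam_lt_one hh τ.im_pos
  have s1 := (H1.conv hh).summable_norm hq
  have s2 := (H2.conv hh).summable_norm hq
  have s3 := (summable_norm_sum_mul_antidiagonal_of_summable_norm s1 s2).of_norm.hasSum
  rw [← tsum_mul_tsum_eq_tsum_sum_antidiagonal_of_summable_norm s1 s2, (H1 τ).tsum_eq,
    (H2 τ).tsum_eq] at s3
  convert! s3 using 2 with n
  rw [coeff_mul, Finset.sum_mul]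
  refine Finset.sum_congr rfl fun p hp => ?_
  rw [← Finset.HasAntidiagonal.mem_antidiagonal.mp hp, pow_add]
  ring

lemma Rep.pow (hh : 0 < h) (H1 : Rep h a f) (n : ℕ) : Rep h (a ^ n) (f ^ n) := by
  induction n with
  | zero => simpa using Rep.one
  | succ n ih => simpa [pow_succ] using ih.mul hh H1

lemma Rep.sum {ι : Type*} (s : Finset ι) {a : ι → ℂ⟦X⟧} {f : ι → ℍ → ℂ}
    (H : ∀ i ∈ s, Rep h (a i) (f i)) : Rep h (∑ i ∈ s, a i) (∑ i ∈ s, f i) := by
  classical
  induction s using Finset.induction_on with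
  | empty => simpa using Rep.zero
  | insert i s hi ih =>
    rw [Finset.sum_insert hi, Finset.sum_insert hi]
    exact (H i (by simp)).add (ih fun j hj => H j (by simp [hj]))

lemma Rep.bdd (hh : 0 < h) (H : Rep h a f) : IsBoundedAtImInfty f :=
  isBoundedAtImInfty_of_hasSum_qExpansion (c := fun n => coeff n a) hh (fun τ => by simpa using H τ)

lemma Rep.eqOn (H : Rep h a f) {w : ℂ} (hw : 0 < w.im) :
    (f ∘ ofComplex) w = ∑' n, coeff n a * Periodic.qParam h w ^ n := by
  simp only [comp_apply, ofComplex_apply_of_im_pos hw]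
  exact (H ⟨w, hw⟩).tsum_eq.symm

lemma norm_qParam_le (hh : 0 < h) {ε : ℝ} {w : ℂ} (hw : ε < w.im) :
    ‖Periodic.qParam h w‖ ≤ Real.exp (-2 * π * ε / h) := by
  rw [Periodic.norm_qParam]
  apply Real.exp_le_exp.mpr
  apply div_le_div_of_nonneg_right _ hh.le
  nlinarith [Real.pi_pos]

lemma Rep.aux (hh : 0 < h) (H : Rep h a f) {ε : ℝ} (hε : 0 < ε) :
    Summable (fun n => ‖coeff n a‖ * Real.exp (-2 * π * ε / h) ^ n) ∧
    ∀ n, ∀ w ∈ {w : ℂ | ε < w.im}, ‖coeff n a * Periodic.qParam h w ^ n‖ ≤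
      ‖coeff n a‖ * Real.exp (-2 * π * ε / h) ^ n := by
  refine ⟨H.conv hh _ (Real.exp_pos _).le ?_, fun n w hw => ?_⟩
  · apply Real.exp_lt_one_iff.mpr
    apply div_neg_of_neg_of_pos _ hh
    nlinarith [Real.pi_pos]
  · rw [norm_mul, norm_pow]
    gcongr
    exact norm_qParam_le hh hw

lemma diffOn_term (n : ℕ) (U : Set ℂ) :
    DifferentiableOn ℂ (fun w => coeff n a * Periodic.qParam h w ^ n) U :=
  ((Periodic.differentiable_qParam.pow n).const_mul _).differentiableOn

lemma Rep.mdiff (hh : 0 < h) (H : Rep h a f) : MDiff f := by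
  intro τ
  rw [UpperHalfPlane.mdifferentiableAt_iff]
  have hε : 0 < τ.im / 2 := by have := τ.im_pos; positivity
  obtain ⟨h1, h2⟩ := H.aux hh hε
  have hU : IsOpen {w : ℂ | τ.im / 2 < w.im} := isOpen_lt continuous_const Complex.continuous_im
  have hτ : (τ : ℂ) ∈ {w : ℂ | τ.im / 2 < w.im} := by
    have := τ.im_pos
    simp only [Set.mem_ofPred_eq, coe_im]; linarith
  have h3 := (Complex.differentiableOn_tsum_of_summable_norm h1 (fun n => diffOn_term n _)
    hU h2).differentiableAt (hU.mem_nhds hτ)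
  refine h3.congr_of_eventuallyEq ?_
  filter_upwards [hU.mem_nhds hτ] with w hw
  exact H.eqOn (hε.trans hw)

lemma hasDerivAt_qParam (h : ℝ) (w : ℂ) :
    HasDerivAt (Periodic.qParam h) (Periodic.qParam h w * (2 * π * I / h)) w := by
  have : HasDerivAt (fun z : ℂ => 2 * π * I * z / h) (2 * π * I / h) w := by
    simpa using ((hasDerivAt_id w).const_mul (2 * π * I : ℂ)).div_const (h : ℂ)
  exact this.cexp

lemma Rep.deriv (hh : 0 < h) (H : Rep h a f) :
    Rep h ((h : ℂ)⁻¹ • thetaOp a) (Derivative.normalizedDerivOfComplex f) := by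
  intro τ
  have hε : 0 < τ.im / 2 := by have := τ.im_pos; positivity
  obtain ⟨h1, h2⟩ := H.aux hh hε
  have hU : IsOpen {w : ℂ | τ.im / 2 < w.im} := isOpen_lt continuous_const Complex.continuous_im
  have hτ : (τ : ℂ) ∈ {w : ℂ | τ.im / 2 < w.im} := by
    have := τ.im_pos
    simp only [Set.mem_ofPred_eq, coe_im]; linarith
  have h3 := Complex.hasSum_deriv_of_summable_norm h1 (fun n => diffOn_term n _) hU h2 hτ
  have h4 : _root_.deriv (f ∘ ofComplex) τ =
      _root_.deriv (fun w => ∑' n, coeff n a * Periodic.qParam h w ^ n) τ := by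
    apply Filter.EventuallyEq.deriv_eq
    filter_upwards [hU.mem_nhds hτ] with w hw
    exact H.eqOn (hε.trans hw)
  have h5 := h3.mul_left ((2 * π * I : ℂ)⁻¹)
  unfold Derivative.normalizedDerivOfComplex
  rw [h4]
  convert! h5 using 2 with n
  rw [(((hasDerivAt_qParam h τ).fun_pow n).const_mul (coeff n a)).deriv]
  have hh' : (h : ℂ) ≠ 0 := by exact_mod_cast hh.ne'
  have hpi : (2 * π * I : ℂ) ≠ 0 := Complex.two_pi_I_ne_zero
  simp only [thetaOp, map_smul, coeff_mk, smul_eq_mul]
  rcases n with _ | n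
  · simp
  · simp only [Nat.add_sub_cancel, pow_succ]
    field_simp

lemma Rep.periodic (hh : 0 < h) (H : Rep h a f) : Periodic (f ∘ ofComplex) h := by
  intro w
  by_cases! hw : 0 < w.im
  · have h1 : 0 < (w + h).im := by simp [hw]
    rw [H.eqOn hw, H.eqOn h1]
    have hh' : (h : ℂ) ≠ 0 := by exact_mod_cast hh.ne'
    have : Periodic.qParam h (w + h) = Periodic.qParam h w := by
      unfold Periodic.qParam
      rw [show 2 * π * I * (w + h) / h = 2 * π * I * w / h + 2 * π * I by field_simp,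
        Complex.exp_add, Complex.exp_two_pi_mul_I, mul_one]
    rw [this]
  · have : (w + h).im ≤ 0 := by simpa using hw
    simp [ofComplex_apply_of_im_nonpos this, ofComplex_apply_of_im_nonpos hw]

lemma Rep.eq_qExpansion (hh : 0 < h) (H : Rep h a f) : a = qExpansion h f := by
  ext n
  have han := analyticAt_cuspFunction_zero hh (H.periodic hh) (H.mdiff hh) (H.bdd hh)
  let F : C(ℍ, ℂ) := ⟨f, (H.mdiff hh).continuous⟩
  exact qExpansion_coeff_unique (c := fun n => coeff n a) F hh han (fun τ => by simpa [F] using H τ) n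

lemma Rep.unique_ser (hh : 0 < h) (H1 : Rep h a f) (H2 : Rep h b f) : a = b :=
  (H1.eq_qExpansion hh).trans (H2.eq_qExpansion hh).symm

lemma rep_qExpansion (hh : 0 < h) (hper : Periodic (f ∘ ofComplex) h) (hhol : MDiff f)
    (hbdd : IsBoundedAtImInfty f) : Rep h (qExpansion h f) f := fun τ => by
  simpa using hasSum_qExpansion hh hper hhol hbdd τ

lemma slash_T_apply (k : ℤ) (f : ℍ → ℂ) (τ : ℍ) :
    (f ∣[k] ModularGroup.T) τ = f ((1 : ℝ) +ᵥ τ) := by
  rw [ModularForm.SL_slash_apply, UpperHalfPlane.modular_T_smul]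
  simp [ModularGroup.denom_apply, ModularGroup.coe_T]

lemma Rep.slash_T (k : ℤ) (H : Rep h a f) :
    Rep h (rescale (cexp (2 * π * I / h)) a) (f ∣[k] ModularGroup.T) := by
  intro τ
  rw [slash_T_apply]
  convert H ((1 : ℝ) +ᵥ τ) using 2 with n
  rw [coeff_rescale]
  have : Periodic.qParam h (((1 : ℝ) +ᵥ τ : ℍ) : ℂ) =
      cexp (2 * π * I / h) * Periodic.qParam h τ := by
    unfold Periodic.qParam
    rw [← Complex.exp_add, coe_vadd]
    congr 1
    push_cast
    ring
  rw [this, mul_pow]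
  ring

/-- Substitution of `X ^ N` for `X`. -/
noncomputable def expandSer (N : ℕ) (a : ℂ⟦X⟧) : ℂ⟦X⟧ :=
  PowerSeries.mk fun n => if N ∣ n then coeff (n / N) a else 0

lemma Rep.expand {N : ℕ} (hN : 0 < N) (H : Rep 1 a f) : Rep N (expandSer N a) f := by
  intro τ
  have hinj : Function.Injective (fun n : ℕ => N * n) := fun x y hxy =>
    Nat.eq_of_mul_eq_mul_left hN hxy
  rw [← hinj.hasSum_iff]
  · convert H τ using 2 with n
    have hN' : (N : ℂ) ≠ 0 := by exact_mod_cast hN.ne'
    simp only [comp_apply, expandSer, coeff_mk, dvd_mul_right, if_true,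
      Nat.mul_div_cancel_left _ hN, pow_mul]
    congr 2
    unfold Periodic.qParam
    rw [← Complex.exp_nat_mul]
    congr 1
    push_cast
    field_simp
  · intro n hn
    have : ¬ N ∣ n := fun ⟨m, hm⟩ => hn ⟨m, hm.symm⟩
    simp [expandSer, this]

/-- All coefficients are rational. -/
def IsRatSer (a : ℂ⟦X⟧) : Prop := ∀ n, ∃ r : ℚ, coeff n a = r

lemma IsRatSer.expand (H : IsRatSer a) (N : ℕ) : IsRatSer (expandSer N a) := by
  intro n
  by_cases hn : N ∣ n
  · simpa [expandSer, hn] using H (n / N)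
  · exact ⟨0, by simp [expandSer, hn]⟩

lemma IsRatSer.map_eq (H : IsRatSer a) (σ : ℂ →+* ℂ) : PowerSeries.map σ a = a := by
  ext n
  obtain ⟨r, hr⟩ := H n
  simp [hr]

lemma map_thetaOp (σ : ℂ →+* ℂ) (a : ℂ⟦X⟧) :
    PowerSeries.map σ (thetaOp a) = thetaOp (PowerSeries.map σ a) := by
  ext n
  simp [thetaOp]

lemma map_smul_ser (σ : ℂ →+* ℂ) (c : ℂ) (a : ℂ⟦X⟧) :
    PowerSeries.map σ (c • a) = σ c • PowerSeries.map σ a := by
  ext n
  simp

lemma map_rescale_ser (σ : ℂ →+* ℂ) (c : ℂ) (a : ℂ⟦X⟧) :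
    PowerSeries.map σ (rescale c a) = rescale (σ c) (PowerSeries.map σ a) := by
  ext n
  simp [coeff_rescale]

/-- The ring of power series that converge on the open unit disc. -/
def convRing : Subring ℂ⟦X⟧ where
  carrier := {a | Conv a}
  mul_mem' {a b} ha hb := by
    obtain ⟨f, hf⟩ := Conv.exists_rep one_pos ha
    obtain ⟨g, hg⟩ := Conv.exists_rep one_pos hb
    exact (hf.mul one_pos hg).conv one_pos
  one_mem' := Rep.one.conv one_pos
  add_mem' {a b} ha hb := by
    obtain ⟨f, hf⟩ := Conv.exists_rep one_pos ha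
    obtain ⟨g, hg⟩ := Conv.exists_rep one_pos hb
    exact (hf.add hg).conv one_pos
  zero_mem' := Rep.zero.conv one_pos
  neg_mem' {a} ha := by
    obtain ⟨f, hf⟩ := Conv.exists_rep one_pos ha
    simpa using (hf.smul (-1)).conv one_pos

lemma Conv.smul (c : ℂ) (ha : Conv a) : Conv (c • a) := by
  obtain ⟨f, hf⟩ := Conv.exists_rep one_pos ha
  exact (hf.smul c).conv one_pos

/-- Formal solutions of a linear system with a regular singular point and coefficients that
converge on the unit disc converge on the unit disc. -/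
theorem conv_of_ode {ι : Type*} [Fintype ι] (y : ι → ℂ⟦X⟧) (C : ι → ι → ℂ⟦X⟧)
    (hC : ∀ i j, Conv (C i j)) (hy : ∀ i, thetaOp (y i) = ∑ j, C i j * y j) (i₀ : ι) :
    Conv (y i₀) := by
  -- first: for every `r < 1` the numbers `‖coeff n (y i)‖ * r ^ n` are bounded
  have key : ∀ r : ℝ, 0 ≤ r → r < 1 → ∃ B : ℝ, ∀ n i, ‖coeff n (y i)‖ * r ^ n ≤ B := by
    intro r hr0 hr1
    set M : ℝ := ∑ i, ∑ j, ∑' n, ‖coeff n (C i j)‖ * r ^ n with hM
    set s : ℕ → ℝ := fun n => ∑ i, ‖coeff n (y i)‖ * r ^ n with hs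
    have hs0 : ∀ n, 0 ≤ s n := fun n => Finset.sum_nonneg fun i _ => by positivity
    have hle : ∀ n i, ‖coeff n (y i)‖ * r ^ n ≤ s n := fun n i =>
      Finset.single_le_sum (f := fun i => ‖coeff n (y i)‖ * r ^ n)
        (fun i _ => by positivity) (Finset.mem_univ i)
    have hM0 : 0 ≤ M := Finset.sum_nonneg fun i _ => Finset.sum_nonneg fun j _ =>
      tsum_nonneg fun n => by positivity
    have hrec : ∀ (n : ℕ) (B : ℝ), (∀ l ≤ n, s l ≤ B) → n * s n ≤ M * B := by
      intro n B hB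
      have hB0 : 0 ≤ B := (hs0 0).trans (hB 0 (Nat.zero_le _))
      rw [hs, hM, Finset.mul_sum, Finset.sum_mul]
      refine Finset.sum_le_sum fun i _ => ?_
      have h1 : (n : ℝ) * ‖coeff n (y i)‖ = ‖coeff n (∑ j, C i j * y j)‖ := by
        rw [← hy i]
        simp [thetaOp]
      rw [← mul_assoc, h1, map_sum, Finset.sum_mul]
      refine (mul_le_mul_of_nonneg_right (norm_sum_le _ _) (by positivity)).trans ?_
      rw [Finset.sum_mul]
      refine Finset.sum_le_sum fun j _ => ?_
      rw [coeff_mul]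
      refine (mul_le_mul_of_nonneg_right (norm_sum_le _ _) (by positivity)).trans ?_
      rw [Finset.sum_mul]
      calc ∑ p ∈ Finset.HasAntidiagonal.antidiagonal n, ‖coeff p.1 (C i j) * coeff p.2 (y j)‖ * r ^ n
          ≤ ∑ p ∈ Finset.HasAntidiagonal.antidiagonal n, (‖coeff p.1 (C i j)‖ * r ^ p.1) * B := by
            refine Finset.sum_le_sum fun p hp => ?_
            have hp' := Finset.HasAntidiagonal.mem_antidiagonal.mp hp
            have h2 : ‖coeff p.2 (y j)‖ * r ^ p.2 ≤ B := (hle _ _).trans (hB _ (by omega))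
            calc ‖coeff p.1 (C i j) * coeff p.2 (y j)‖ * r ^ n
                = (‖coeff p.1 (C i j)‖ * r ^ p.1) * (‖coeff p.2 (y j)‖ * r ^ p.2) := by
                  rw [← hp', pow_add, norm_mul]; ring
              _ ≤ _ := by gcongr
        _ = (∑ l ∈ Finset.range (n + 1), ‖coeff l (C i j)‖ * r ^ l) * B := by
            rw [← Finset.sum_mul, Finset.Nat.sum_antidiagonal_eq_sum_range_succ
              (fun k _ => ‖coeff k (C i j)‖ * r ^ k)]
        _ ≤ (∑' l, ‖coeff l (C i j)‖ * r ^ l) * B := by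
            gcongr
            exact (hC i j r hr0 hr1).sum_le_tsum _ (fun l _ => by positivity)
    obtain ⟨N, hN⟩ := exists_nat_gt M
    refine ⟨∑ l ∈ Finset.range (N + 1), s l, fun n i => (hle n i).trans ?_⟩
    set B := ∑ l ∈ Finset.range (N + 1), s l with hB
    induction n using Nat.strong_induction_on with
    | _ n ih =>
      by_cases hn : n ≤ N
      · exact Finset.single_le_sum (f := s) (fun l _ => hs0 l)
          (Finset.mem_range.mpr (by omega))
      · by_contra hcon
        push Not at hcon hn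
        have h1 := hrec n (s n) (fun l hl => by
          rcases hl.eq_or_lt with rfl | hl
          · exact le_rfl
          · exact (ih l hl).trans hcon.le)
        have hB0 : 0 ≤ B := Finset.sum_nonneg fun l _ => hs0 l
        have h2 : (N : ℝ) < n := by exact_mod_cast hn
        nlinarith
  intro r hr0 hr1
  obtain ⟨r', hr', hr'1⟩ := exists_between hr1
  have hr'0 : 0 < r' := hr0.trans_lt hr'
  obtain ⟨B, hB⟩ := key r' hr'0.le hr'1
  have hρ : r / r' < 1 := (div_lt_one hr'0).mpr hr'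
  refine Summable.of_nonneg_of_le (fun n => by positivity) (fun n => ?_)
    ((summable_geometric_of_lt_one (by positivity) hρ).mul_left B)
  calc ‖coeff n (y i₀)‖ * r ^ n = (‖coeff n (y i₀)‖ * r' ^ n) * (r / r') ^ n := by
        rw [div_pow]; field_simp
    _ ≤ B * (r / r') ^ n := by gcongr; exact hB n i₀

end Pool.Agent.MP_07c73e_al.H96
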