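import Pool.Agent.MP_07c73e_al.H96.LevelOne

/-!
Twisting a vector valued modular form by an automorphism of `ℂ`.
-/

namespace Pool.Agent.MP_07c73e_al.H96

open UpperHalfPlane hiding I
open PowerSeries Complex Function Filter Topology
open scoped Manifold MatrixGroups ModularForm Real

lemma exists_eq_of_pow_sum_eq {ι : Type*} [Fintype ι] (u v : ι → ℂ)
    (H : ∀ j : ℕ, ∑ i, u i ^ j = ∑ i, v i ^ j) (i₀ : ι) : ∃ i, u i₀ = v i := by
  classical
  have hpoly : ∀ r : Polynomial ℂ, ∑ i, r.eval (u i) = ∑ i, r.eval (v i) := by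
    intro r
    simp only [Polynomial.eval_eq_sum_range]
    rw [Finset.sum_comm, Finset.sum_comm (f := fun i n => r.coeff n * v i ^ n)]
    refine Finset.sum_congr rfl fun n _ => ?_
    rw [← Finset.mul_sum, ← Finset.mul_sum, H]
  by_contra hcon
  push Not at hcon
  set r : Polynomial ℂ := (∏ i, (Polynomial.X - Polynomial.C (v i))) *
    ∏ i ∈ Finset.univ.filter (fun i => u i ≠ u i₀), (Polynomial.X - Polynomial.C (u i)) with hr
  have hev : ∀ z, r.eval z = (∏ i, (z - v i)) *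
      ∏ i ∈ Finset.univ.filter (fun i => u i ≠ u i₀), (z - u i) := by
    intro z
    simp [hr, Polynomial.eval_prod]
  have h1 : ∑ i, r.eval (v i) = 0 := by
    refine Finset.sum_eq_zero fun i _ => ?_
    rw [hev, Finset.prod_eq_zero (Finset.mem_univ i) (sub_self _), zero_mul]
  have h2 : r.eval (u i₀) ≠ 0 := by
    rw [hev]
    refine mul_ne_zero (Finset.prod_ne_zero_iff.mpr fun i _ => sub_ne_zero.mpr (hcon i))
      (Finset.prod_ne_zero_iff.mpr fun i hi => sub_ne_zero.mpr ?_)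
    exact (Finset.mem_filter.mp hi).2.symm
  have h3 : ∑ i, r.eval (u i) =
      ∑ i ∈ Finset.univ.filter (fun i => u i = u i₀), r.eval (u i₀) := by
    rw [Finset.sum_filter]
    refine Finset.sum_congr rfl fun i _ => ?_
    split_ifs with hi
    · rw [hi]
    · rw [hev, Finset.prod_eq_zero (s := Finset.univ.filter (fun i => u i ≠ u i₀)) (i := i)
        (by simpa using hi) (sub_self _), mul_zero]
  rw [hpoly, h1, Finset.sum_const, nsmul_eq_mul] at h3
  have h4 : ((Finset.univ.filter (fun i => u i = u i₀)).card : ℂ) ≠ 0 := by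
    rw [Nat.cast_ne_zero, ← Nat.pos_iff_ne_zero, Finset.card_pos]
    exact ⟨i₀, by simp⟩
  exact mul_ne_zero h4 h2 h3.symm

lemma slash_pow (k : ℤ) (γ : SL(2, ℤ)) (f : ℍ → ℂ) (j : ℕ) :
    (f ^ j) ∣[(j * k : ℤ)] γ = (f ∣[k] γ) ^ j := by
  induction j with
  | zero => simpa using ModularForm.is_invariant_one γ
  | succ j ih =>
    rw [pow_succ, pow_succ, ← ih, ← ModularForm.mul_slash_SL2]
    congr 1
    push_cast
    ring

lemma slash_sum {ι : Type*} (s : Finset ι) (k : ℤ) (γ : SL(2, ℤ)) (f : ι → ℍ → ℂ) :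
    (∑ i ∈ s, f i) ∣[k] γ = ∑ i ∈ s, f i ∣[k] γ := by
  classical
  induction s using Finset.induction_on with
  | empty => simp
  | insert i s hi ih => rw [Finset.sum_insert hi, Finset.sum_insert hi, SlashAction.add_slash, ih]

lemma mdiff_slash {f : ℍ → ℂ} (hf : MDiff f) (k : ℤ) (γ : SL(2, ℤ)) : MDiff (f ∣[k] γ) := by
  rw [ModularForm.SL_slash]
  exact hf.slash k _

variable {N : ℕ} {k l : ℤ}

lemma perm_of_LO (hN : 0 < N) {ι : Type*} [Fintype ι] {b : ι → ℂ⟦X⟧} {F : ι → ℍ → ℂ}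
    (hrep : ∀ i, Rep N (b i) (F i)) (hLO : ∀ j : ℕ, LO N (j * k) (∑ i, b i ^ j))
    (γ : SL(2, ℤ)) (i₀ : ι) : ∃ i, F i₀ ∣[k] γ = F i := by
  have hN' : (0 : ℝ) < N := by exact_mod_cast hN
  have h1 : ∀ j : ℕ, ∑ i, (F i ∣[k] γ) ^ j = ∑ i, F i ^ j := by
    intro j
    obtain ⟨f, hf, hinv⟩ := hLO j
    have h2 : f = ∑ i, F i ^ j :=
      hf.unique_fun (Rep.sum _ fun i _ => (hrep i).pow hN' j)
    have h3 := hinv γ
    rw [h2, slash_sum] at h3
    simpa only [slash_pow] using h3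
  have h2 : ∏ i, (F i₀ ∣[k] γ - F i) = 0 := by
    funext τ
    obtain ⟨i, hi⟩ := exists_eq_of_pow_sum_eq (fun i => (F i ∣[k] γ) τ) (fun i => F i τ)
      (fun j => by simpa [Finset.sum_apply] using congrFun (h1 j) τ) i₀
    rw [Finset.prod_apply]
    exact Finset.prod_eq_zero (Finset.mem_univ i) (by simpa [sub_eq_zero] using hi)
  rw [UpperHalfPlane.prod_eq_zero_iff (fun i _ =>
    (mdiff_slash ((hrep i₀).mdiff hN') k γ).sub ((hrep i).mdiff hN'))] at h2
  obtain ⟨i, -, hi⟩ := h2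
  exact ⟨i, sub_eq_zero.mp hi⟩

lemma LO_of_perm (hN : 0 < N) {ι : Type*} [Fintype ι] {a b : ι → ℂ⟦X⟧} {E F : ι → ℍ → ℂ}
    (ha : ∀ i, Rep N (a i) (E i)) (hb : ∀ i, Rep N (b i) (F i))
    (hperm : ∀ γ : SL(2, ℤ), ∃ e : ι ≃ ι, ∀ i, E i ∣[l] γ = E (e i) ∧ F i ∣[k] γ = F (e i))
    (j : ℕ) : LO N (l + j * k) (∑ i, a i * b i ^ j) := by
  have hN' : (0 : ℝ) < N := by exact_mod_cast hN
  refine ⟨∑ i, E i * F i ^ j, Rep.sum _ fun i _ => (ha i).mul hN' ((hb i).pow hN' j), fun γ => ?_⟩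
  obtain ⟨e, he⟩ := hperm γ
  rw [slash_sum, ← Equiv.sum_comp e (fun i => E i * F i ^ j)]
  refine Finset.sum_congr rfl fun i _ => ?_
  rw [ModularForm.mul_slash_SL2, slash_pow, (he i).1, (he i).2]

lemma LO_of_perm' (hN : 0 < N) {ι : Type*} [Fintype ι] {b : ι → ℂ⟦X⟧} {F : ι → ℍ → ℂ}
    (hb : ∀ i, Rep N (b i) (F i))
    (hperm : ∀ γ : SL(2, ℤ), ∃ e : ι ≃ ι, ∀ i, F i ∣[k] γ = F (e i))
    (j : ℕ) : LO N (j * k) (∑ i, b i ^ j) := by
  have := LO_of_perm (l := 0) (k := k) hN (a := fun _ => 1) (E := fun _ => 1) (fun _ => Rep.one) hb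
    (fun γ => by
      obtain ⟨e, he⟩ := hperm γ
      exact ⟨e, fun i => ⟨Inv.one γ, he i⟩⟩) j
  simpa using this

variable {G : Type} [Group G] [Fintype G] {p : SL(2, ℤ) →* G}

/-- Iterated Serre derivatives. -/
noncomputable def serreIter (k : ℤ) (f : ℍ → ℂ) : ℕ → ℍ → ℂ
  | 0 => f
  | i + 1 => Derivative.serreDerivative ((k + 2 * i : ℤ) : ℂ) (serreIter k f i)

/-- Iterated Serre derivatives on expansions. -/
noncomputable def serreSer (N : ℕ) (k : ℤ) (a : ℂ⟦X⟧) : ℕ → ℂ⟦X⟧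
  | 0 => a
  | i + 1 => ((N : ℝ) : ℂ)⁻¹ • thetaOp (serreSer N k a i) -
      (((k + 2 * i : ℤ) : ℂ) * 12⁻¹) • (e2 N * serreSer N k a i)

lemma rep_serre (hN : 0 < N) {a : ℂ⟦X⟧} {f : ℍ → ℂ} (H : Rep N a f) (i : ℕ) :
    Rep N (serreSer N k a i) (serreIter k f i) := by
  have hN' : (0 : ℝ) < N := by exact_mod_cast hN
  induction i with
  | zero => exact H
  | succ i ih =>
    have := (ih.deriv hN').sub (((rep_e2 hN).mul hN' ih).smul (((k + 2 * i : ℤ) : ℂ) * 12⁻¹))
    have e : serreIter k f (i + 1) = Derivative.normalizedDerivOfComplex (serreIter k f i) -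
        (((k + 2 * i : ℤ) : ℂ) * 12⁻¹) • (EisensteinSeries.E2 * serreIter k f i) := by
      funext τ
      simp [serreIter, mul_assoc]
    rw [e]
    exact this

lemma serreIter_slash (hN : 0 < N) {a : ℂ⟦X⟧} {f : ℍ → ℂ} (H : Rep N a f) (γ : SL(2, ℤ)) (i : ℕ) :
    serreIter k f i ∣[k + 2 * i] γ = serreIter k (f ∣[k] γ) i := by
  have hN' : (0 : ℝ) < N := by exact_mod_cast hN
  induction i with
  | zero => simp [serreIter]
  | succ i ih =>
    have := Derivative.serreDerivative_slash_equivariant (k := k + 2 * i)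
      ((rep_serre (k := k) hN H i).mdiff hN') (γ := γ)
    rw [ih] at this
    simp only [serreIter]
    rw [← this]
    congr 1
    push_cast
    ring

lemma conv_twist (hN : 0 < N) {a : G → ℂ⟦X⟧} {F : G → ℍ → ℂ} (hrep : ∀ g, Rep N (a g) (F g))
    (hvv : ∀ g γ, F g ∣[k] γ = F (g * p γ)) (hinj : Function.Injective a) (σ : ℂ →+* ℂ) (g₀ : G) :
    Conv (PowerSeries.map σ (a g₀)) := by
  have hN' : (0 : ℝ) < N := by exact_mod_cast hN
  have hNc : ((N : ℝ) : ℂ) ≠ 0 := by exact_mod_cast hN.ne'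
  set n := Fintype.card G
  set y : ℕ → G → ℂ⟦X⟧ := fun i g => serreSer N k (a g) i with hy
  have hmem : ∀ (i j : ℕ), ∑ g, y i g * a g ^ j ∈ algA N := by
    intro i j
    refine LO.mem_algA (k := k + 2 * i + j * k) hN ?_
    refine LO_of_perm hN (E := fun g => serreIter k (F g) i) (fun g => rep_serre hN (hrep g) i)
      hrep (fun γ => ⟨Equiv.mulRight (p γ), fun g => ⟨?_, hvv g γ⟩⟩) j
    rw [serreIter_slash hN (hrep g), hvv]
    rfl
  set u : ℕ → Fin n → algA N := fun i j => ⟨_, hmem i j⟩ with hu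
  have := isNoetherianRing_algA (N := N)
  obtain ⟨M, hM⟩ := monotone_stabilizes_iff_noetherian.mpr
    (inferInstance : IsNoetherian (algA N) (Fin n → algA N))
    ⟨fun M => Submodule.span (algA N) (Set.range fun i : Fin (M + 1) => u i), by
      intro M M' hMM'
      apply Submodule.span_mono
      rintro _ ⟨i, rfl⟩
      exact ⟨⟨i, by omega⟩, rfl⟩⟩
  have h1 : u (M + 1) ∈ Submodule.span (algA N) (Set.range fun i : Fin (M + 1) => u i) := by
    have := hM (M + 1) (Nat.le_succ M)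
    simp only [OrderHom.coe_mk] at this
    rw [this]
    exact Submodule.subset_span ⟨Fin.last _, rfl⟩
  obtain ⟨c, hc⟩ := (Submodule.mem_span_range_iff_exists_fun _).mp h1
  have h2 : ∀ g, y (M + 1) g = ∑ i : Fin (M + 1), (c i : ℂ⟦X⟧) * y i g := by
    let e : Fin n ≃ G := (Fintype.equivFin G).symm
    have h3 := Matrix.eq_zero_of_forall_pow_sum_mul_pow_eq_zero (f := a ∘ e)
      (v := fun t => y (M + 1) (e t) - ∑ i : Fin (M + 1), (c i : ℂ⟦X⟧) * y i (e t))
      (hinj.comp e.injective) (fun j => by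
        have h4 := congrArg Subtype.val (congrFun hc j)
        simp only [Finset.sum_apply, Pi.smul_apply, smul_eq_mul, hu,
          AddSubmonoidClass.coe_finsetSum, MulMemClass.coe_mul] at h4
        simp only [Function.comp_apply]
        rw [Equiv.sum_comp e (fun g => (y (M + 1) g -
          ∑ i : Fin (M + 1), (c i : ℂ⟦X⟧) * y i g) * a g ^ (j : ℕ))]
        simp only [sub_mul, Finset.sum_sub_distrib, ← h4, Finset.sum_mul, Finset.mul_sum]
        rw [Finset.sum_comm]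
        simp only [mul_assoc, sub_self])
    intro g
    have h5 := congrFun h3 (e.symm g)
    simpa [sub_eq_zero] using h5
  set z : ℕ → ℂ⟦X⟧ := fun i => PowerSeries.map σ (y i g₀) with hz
  set W := Submodule.span convRing (Set.range fun i : Fin (M + 1) => z i) with hW
  have h3 : ∀ i ≤ M + 1, z i ∈ W := by
    intro i hi
    rcases hi.eq_or_lt with rfl | hi
    · simp only [hz, h2 g₀, map_sum, map_mul]
      refine Submodule.sum_mem _ fun i _ => ?_
      exact W.smul_mem ⟨_, conv_map_of_mem_algA hN σ (c i).2⟩ (Submodule.subset_span ⟨i, rfl⟩)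
    · exact Submodule.subset_span ⟨⟨i, hi⟩, rfl⟩
  have h4 : ∀ i : Fin (M + 1), ∃ C : Fin (M + 1) → convRing,
      ∑ j, C j • z j = thetaOp (z i) := by
    intro i
    rw [← Submodule.mem_span_range_iff_exists_fun]
    have h5 : thetaOp (z i) = (((N : ℝ) : ℂ) • (1 : ℂ⟦X⟧)) * z (i + 1) +
        ((((N : ℝ) : ℂ) * (((k + 2 * (i : ℕ) : ℤ) : ℂ) * 12⁻¹)) • e2 N) * z i := by
      have h6 : z (i + 1) = ((N : ℝ) : ℂ)⁻¹ • thetaOp (z i) -
          (((k + 2 * (i : ℕ) : ℤ) : ℂ) * 12⁻¹) • (e2 N * z i) := by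
        simp only [hz, hy, serreSer, map_sub, map_smul_ser, map_thetaOp, map_mul, isRat_e2.map_eq,
          map_inv₀, map_intCast, map_ofNat, Complex.ofReal_natCast, map_natCast]
      rw [h6, smul_mul_assoc, one_mul, smul_sub, smul_smul, smul_smul, mul_inv_cancel₀ hNc,
        one_smul, smul_mul_assoc, sub_add_cancel]
    rw [h5]
    refine W.add_mem (W.smul_mem ⟨_, Conv.smul _ convRing.one_mem⟩ (h3 _ (by omega)))
      (W.smul_mem ⟨_, Conv.smul _ ((rep_e2 hN).conv hN')⟩ (h3 _ (by omega)))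
  choose C hC using h4
  exact conv_of_ode (fun i : Fin (M + 1) => z i) (fun i j => C i j) (fun i j => (C i j).2)
    (fun i => (hC i).symm) 0

theorem twist_of_vv (hN : 0 < N) (hp : Function.Surjective p) (hneg : ∀ f : ℍ → ℂ,
      f ∣[k] (-1 : SL(2, ℤ)) = f) {F : G → ℍ → ℂ} {a : G → ℂ⟦X⟧}
    (hrep : ∀ g, Rep N (a g) (F g)) (hvv : ∀ g γ, F g ∣[k] γ = F (g * p γ))
    (hinj : Function.Injective F) (σ : ℂ ≃+* ℂ) (m : ℕ)
    (hσ : σ (cexp (2 * π * I / (N : ℝ)) ^ m) = cexp (2 * π * I / (N : ℝ))) :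
    ∃ p' : SL(2, ℤ) →* G, Function.Surjective p' ∧ p' (-1) = 1 ∧
      p' ModularGroup.T = p ModularGroup.T ^ m := by
  classical
  have hN' : (0 : ℝ) < N := by exact_mod_cast hN
  have hainj : Function.Injective a := fun g g' hg =>
    hinj ((hrep g).unique_fun (hg ▸ hrep g'))
  have hmapinj : Function.Injective (PowerSeries.map (σ : ℂ →+* ℂ)) :=
    PowerSeries.map_injective _ σ.injective
  choose F' hrep' using fun g => (conv_twist hN hrep hvv hainj (σ : ℂ →+* ℂ) g).exists_rep hN'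
  have hinj' : Function.Injective F' := fun g g' hg =>
    hainj (hmapinj ((hrep' g).unique_ser hN' (hg ▸ hrep' g')))
  have key : ∀ γ : SL(2, ℤ), ∃ b : G, ∀ g, F' g ∣[k] γ = F' (g * b) := by
    intro γ
    have h1 : ∀ c : G → ℚ, ∃ b : G,
        ∑ g, (c g : ℂ) • (F' g ∣[k] γ - F' (g * b)) = 0 := by
      intro c
      have hc : ∀ b, Rep N (∑ g, (c g : ℂ) • a (g * b)) (∑ g, (c g : ℂ) • F (g * b)) :=
        fun b => Rep.sum _ fun g _ => (hrep _).smul _
      have hc' : ∀ b, Rep N (PowerSeries.map (σ : ℂ →+* ℂ) (∑ g, (c g : ℂ) • a (g * b)))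
          (∑ g, (c g : ℂ) • F' (g * b)) := by
        intro b
        rw [map_sum]
        refine Rep.sum _ fun g _ => ?_
        rw [map_smul_ser, map_ratCast]
        exact (hrep' _).smul _
      obtain ⟨b, hb⟩ := perm_of_LO (k := k) hN hc' (fun j => by
        have := (LO_of_perm' (k := k) hN hc (fun δ => ⟨Equiv.mulRight (p δ), fun b => by
          rw [slash_sum]
          refine Finset.sum_congr rfl fun g _ => ?_
          rw [ModularForm.SL_smul_slash, hvv, Equiv.coe_mulRight, mul_assoc]⟩) j).map hN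
            (σ : ℂ →+* ℂ)
        simpa only [map_sum (PowerSeries.map (σ : ℂ →+* ℂ)) (fun b =>
          (∑ g, (c g : ℂ) • a (g * b)) ^ j), map_pow] using this) γ 1
      refine ⟨b, ?_⟩
      rw [slash_sum] at hb
      simp only [smul_sub, Finset.sum_sub_distrib, ← hb, ModularForm.SL_smul_slash, mul_one,
        sub_self]
    let V : G → Submodule ℚ (G → ℚ) := fun b =>
      { carrier := {c | ∑ g, (c g : ℂ) • (F' g ∣[k] γ - F' (g * b)) = 0}
        add_mem' := by
          intro c d hc hd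
          simp only [Set.mem_ofPred_eq, Pi.add_apply, Rat.cast_add, add_smul,
            Finset.sum_add_distrib] at hc hd ⊢
          rw [hc, hd, add_zero]
        zero_mem' := by simp
        smul_mem' := by
          intro r c hc
          simp only [Set.mem_ofPred_eq, Pi.smul_apply, smul_eq_mul, Rat.cast_mul, mul_smul,
            ← Finset.smul_sum] at hc ⊢
          rw [hc, smul_zero] }
    have h2 : ∃ b, V b = ⊤ := by
      by_contra hcon
      push Not at hcon
      obtain ⟨c, hc⟩ := Submodule.exists_forall_notMem_of_forall_ne_top V hcon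
      obtain ⟨b, hb⟩ := h1 c
      exact hc b hb
    obtain ⟨b, hb⟩ := h2
    refine ⟨b, fun g => ?_⟩
    have h3 : (Pi.single g 1 : G → ℚ) ∈ V b := hb ▸ Submodule.mem_top
    have h4 : ∑ g', ((Pi.single g 1 : G → ℚ) g' : ℂ) • (F' g' ∣[k] γ - F' (g' * b)) = 0 := h3
    rw [Finset.sum_eq_single g (fun g' _ hg' => by simp [Pi.single_eq_of_ne hg'])
      (fun h => (h (Finset.mem_univ _)).elim)] at h4
    simpa [sub_eq_zero] using h4
  choose b hb using key
  let p' : SL(2, ℤ) →* G := MonoidHom.mk' b fun γ δ => by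
    apply hinj'
    have h1 := hb (γ * δ) 1
    rw [SlashAction.slash_mul, hb γ, hb δ] at h1
    simpa using h1.symm
  have hp' : ∀ γ g, F' g ∣[k] γ = F' (g * p' γ) := hb
  refine ⟨p', ?_, ?_, ?_⟩
  · intro g
    obtain ⟨γ, rfl⟩ := hp g
    have h1 : ∀ j : ℕ, LO N (j * k) (∑ i : p'.range, a i ^ j) := by
      intro j
      have h2 := (LO_of_perm' (k := k) (ι := p'.range) hN (fun i => hrep' i)
        (fun δ => ⟨Equiv.mulRight ⟨p' δ, δ, rfl⟩, fun i => hp' δ i⟩) j).map hN
          (σ.symm : ℂ →+* ℂ)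
      have h3 : ∀ x : ℂ⟦X⟧, PowerSeries.map (σ.symm : ℂ →+* ℂ)
          (PowerSeries.map (σ : ℂ →+* ℂ) x) = x := by
        intro x
        ext n
        simp
      simpa only [map_sum, map_pow, h3] using h2
    obtain ⟨i, hi⟩ := perm_of_LO (k := k) (ι := p'.range) hN (fun i => hrep i) h1 γ 1
    rw [hvv] at hi
    have h4 := hinj hi
    obtain ⟨δ, hδ⟩ := i.2
    exact ⟨δ, by simpa [hδ] using h4.symm⟩
  · apply hinj'
    have h1 := hp' (-1) 1
    rw [hneg] at h1
    simpa using h1.symm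
  · apply hinj'
    set ζ := cexp (2 * π * I / (N : ℝ))
    have h1 : ∀ (j : ℕ) g, a (g * p ModularGroup.T ^ j) = rescale (ζ ^ j) (a g) := by
      intro j g
      induction j with
      | zero => simp
      | succ j ih =>
        have h2 := (hrep (g * p ModularGroup.T ^ j)).slash_T k
        rw [hvv, ih, rescale_rescale, mul_assoc g, ← pow_succ, ← pow_succ] at h2
        exact (hrep _).unique_ser hN' h2
    have h2 := (hrep' 1).slash_T k
    have h3 := hrep' (1 * p ModularGroup.T ^ m)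
    rw [h1, map_rescale_ser] at h3
    rw [hp'] at h2
    have h4 : (σ : ℂ →+* ℂ) (ζ ^ m) = ζ := hσ
    rw [h4] at h3
    simpa using h2.unique_fun h3

end Pool.Agent.MP_07c73e_al.H96
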